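import Mathlib

/-! Mapping class groups of planar surfaces: the definitions. -/

set_option autoImplicit false
open scoped ContDiff Topology
open Set Filter

namespace Pool.Agent.Helper328.MT
noncomputable section

/-! ### Diffeomorphisms and isotopies of a planar surface `S ⊆ ℂ` -/

/-- A self-map of `S ⊆ ℂ` is smooth if it is the restriction of a `C^∞` map (in the real sense)
defined on an open neighbourhood of `S`. -/
def IsSmoothSelfMap (S : Set ℂ) (e : S → S) : Prop :=
  ∃ (U : Set ℂ) (F : ℂ → ℂ), IsOpen U ∧ S ⊆ U ∧ ContDiffOn ℝ ∞ F U ∧ ∀ x : S, F x = e x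

theorem isSmoothSelfMap_id (S : Set ℂ) : IsSmoothSelfMap S (fun x => x) :=
  ⟨univ, fun z => z, isOpen_univ, subset_univ _, contDiff_id.contDiffOn, fun _ => rfl⟩

theorem IsSmoothSelfMap.comp {S : Set ℂ} {e e' : S → S} (h : IsSmoothSelfMap S e)
    (h' : IsSmoothSelfMap S e') : IsSmoothSelfMap S (fun x => e (e' x)) := by
  obtain ⟨U, F, hU, hS, hF, hFe⟩ := h
  obtain ⟨U', F', hU', hS', hF', hFe'⟩ := h'
  refine ⟨U' ∩ F' ⁻¹' U, F ∘ F', hF'.continuousOn.isOpen_inter_preimage hU' hU, ?_, ?_, ?_⟩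
  · intro x hx
    refine ⟨hS' hx, ?_⟩
    have := hFe' ⟨x, hx⟩
    simp only [mem_preimage]
    rw [this]
    exact hS (e' ⟨x, hx⟩).2
  · exact hF.comp (hF'.mono inter_subset_left) (fun x hx => hx.2)
  · intro x
    simp only [Function.comp]
    rw [hFe' x, hFe (e' x)]

/-- The group of diffeomorphisms of the surface `S` (orientation reversing ones included; the
boundary is not required to be fixed). -/
def Diff (S : Set ℂ) : Subgroup (Equiv.Perm S) where
  carrier := {e | IsSmoothSelfMap S e ∧ IsSmoothSelfMap S e.symm}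
  mul_mem' := fun {a b} ha hb => ⟨ha.1.comp hb.1, hb.2.comp ha.2⟩
  one_mem' := ⟨isSmoothSelfMap_id S, isSmoothSelfMap_id S⟩
  inv_mem' := fun {a} ha => ⟨ha.2, ha.1⟩

/-- The diffeomorphism `e` is smoothly isotopic to the identity through diffeomorphisms. -/
def IsotopicToId (S : Set ℂ) (e : Diff S) : Prop :=
  ∃ (U : Set (ℝ × ℂ)) (H : ℝ × ℂ → ℂ), IsOpen U ∧ Icc (0 : ℝ) 1 ×ˢ S ⊆ U ∧ ContDiffOn ℝ ∞ H U ∧
    (∀ t ∈ Icc (0 : ℝ) 1, ∃ d : Diff S, ∀ x : S, H (t, x) = (d : Equiv.Perm S) x) ∧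
    (∀ x : S, H (0, x) = x) ∧ ∀ x : S, H (1, x) = (e : Equiv.Perm S) x

/-- The identity component of the group of diffeomorphisms: the (normal) subgroup generated by the
diffeomorphisms isotopic to the identity. -/
def Diff0 (S : Set ℂ) : Subgroup (Diff S) := Subgroup.normalClosure {e | IsotopicToId S e}

instance (S : Set ℂ) : (Diff0 S).Normal := Subgroup.normalClosure_normal

/-- The (extended) mapping class group `π₀(Diff S)`. -/
abbrev MCG (S : Set ℂ) : Type := Diff S ⧸ Diff0 S

/-- The image of a subset of the surface under a diffeomorphism. -/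
def img {S : Set ℂ} (d : Diff S) (C : Set S) : Set S := (d : Equiv.Perm S) '' C

/-! ### Circles -/

/-- `C ⊆ S` is a circle on `S`: the image of a smooth embedding of `ℝ/ℤ`. -/
def IsCircle (S : Set ℂ) (C : Set S) : Prop :=
  ∃ γ : ℝ → ℂ, ContDiff ℝ ∞ γ ∧ (∀ t, deriv γ t ≠ 0) ∧
    (∀ s t, γ s = γ t ↔ ∃ n : ℤ, t = s + n) ∧ range γ = Subtype.val '' C

/-- `C` bounds a disk in `S`. -/
def BoundsDisk (S : Set ℂ) (C : Set S) : Prop :=
  ∃ φ : ℂ → ℂ, ContinuousOn φ (Metric.closedBall 0 1) ∧ InjOn φ (Metric.closedBall 0 1) ∧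
    MapsTo φ (Metric.closedBall 0 1) S ∧ φ '' Metric.sphere 0 1 = Subtype.val '' C

/-- `C` can be deformed (inside `S`) into the boundary `∂S`; for the planar surfaces considered
here `∂S` is the topological frontier of `S` in the plane. -/
def DeformsIntoBoundary (S : Set ℂ) (C : Set S) : Prop :=
  ∃ H : ℝ × ℂ → ℂ, ContinuousOn H (Icc (0 : ℝ) 1 ×ˢ (Subtype.val '' C)) ∧
    (∀ t ∈ Icc (0 : ℝ) 1, ∀ x ∈ C, H (t, (x : ℂ)) ∈ S) ∧ (∀ x ∈ C, H (0, (x : ℂ)) = x) ∧
    ∀ x ∈ C, H (1, (x : ℂ)) ∈ frontier S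

/-- A nontrivial circle: it neither bounds a disk nor can be deformed into `∂S`. -/
def IsNontrivialCircle (S : Set ℂ) (C : Set S) : Prop :=
  IsCircle S C ∧ ¬ BoundsDisk S C ∧ ¬ DeformsIntoBoundary S C

/-- Two circles are isotopic if a diffeomorphism isotopic to the identity carries the first to
the second. -/
def IsotopicCircles (S : Set ℂ) (C C' : Set S) : Prop := ∃ d ∈ Diff0 S, C' = img d C

/-- The geometric intersection number of (the isotopy classes of) two circles. -/
def geomInt (S : Set ℂ) (C D : Set S) : ℕ∞ :=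
  ⨅ (C' : {C' : Set S // IsotopicCircles S C C'}) (D' : {D' : Set S // IsotopicCircles S D D'}),
    (C'.1 ∩ D'.1).encard

/-- The set `A` of circles fills `S`: every nontrivial circle `C` has nonzero geometric
intersection number with some member of `A`. -/
def Fills (S : Set ℂ) (A : Set (Set S)) : Prop :=
  ∀ C, IsNontrivialCircle S C → ∃ D ∈ A, geomInt S C D ≠ 0

/-! ### Dehn twists and multi-twists -/

/-- The closed round annulus. -/
def annulus (a b : ℝ) : Set ℂ := {z | a ≤ ‖z‖ ∧ ‖z‖ ≤ b}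

/-- The model left Dehn twist of the annulus `a ≤ |z| ≤ b` (the identity outside of it). -/
def modelTwist (a b : ℝ) (z : ℂ) : ℂ :=
  z * Complex.exp (2 * Real.pi * Complex.I * (Real.smoothTransition ((‖z‖ - a) / (b - a)) : ℝ))

/-- `τ` is the class of the left Dehn twist along the circle `C`: there is an orientation
preserving smooth embedding `φ` of (an open neighbourhood of) a closed annulus into the interior
of `S`, carrying a concentric circle in the annulus onto `C`, and a representative `T` of `τ`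
which is the model twist in the coordinate `φ` and the identity outside the image of the
annulus. -/
def IsDehnTwist (S : Set ℂ) (C : Set S) (τ : MCG S) : Prop :=
  ∃ (a r b : ℝ) (U : Set ℂ) (φ : ℂ → ℂ) (T : Diff S), 0 < a ∧ a < r ∧ r < b ∧
    IsOpen U ∧ annulus a b ⊆ U ∧ ContDiffOn ℝ ∞ φ U ∧ InjOn φ U ∧
    (∀ z ∈ U, 0 < (fderiv ℝ φ z).det) ∧ MapsTo φ U (interior S) ∧
    φ '' {z | ‖z‖ = r} = Subtype.val '' C ∧
    (∀ x : S, (x : ℂ) ∉ φ '' annulus a b → (T : Equiv.Perm S) x = x) ∧
    (∀ x : S, ∀ z ∈ annulus a b, (x : ℂ) = φ z →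
      ((T : Equiv.Perm S) x : ℂ) = φ (modelTwist a b z)) ∧
    τ = (T : MCG S)

/-- `t = τ₁^{±1} ⋯ τₙ^{±1}` is a Dehn multi-twist about the pairwise disjoint and pairwise
non-isotopic nontrivial circles `α₁, …, αₙ` (each exponent chosen independently). -/
def IsMultiTwist (S : Set ℂ) {n : ℕ} (α : Fin n → Set S) (t : MCG S) : Prop :=
  (∀ i, IsNontrivialCircle S (α i)) ∧ (∀ i j, i ≠ j → Disjoint (α i) (α j)) ∧
    (∀ i j, i ≠ j → ¬ IsotopicCircles S (α i) (α j)) ∧
    ∃ (τ : Fin n → MCG S) (ε : Fin n → ℤˣ), (∀ i, IsDehnTwist S (α i) (τ i)) ∧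
      t = (List.ofFn fun i => τ i ^ ((ε i : ℤˣ) : ℤ)).prod

/-! ### The Nielsen–Thurston trichotomy -/

/-- `g` is reducible: it preserves the isotopy class of a nonempty finite system of pairwise
disjoint, pairwise non-isotopic nontrivial circles. -/
def IsReducible (S : Set ℂ) (g : MCG S) : Prop :=
  ∃ (n : ℕ) (C : Fin (n + 1) → Set S) (d : Diff S), (∀ i, IsNontrivialCircle S (C i)) ∧
    (∀ i j, i ≠ j → Disjoint (C i) (C j)) ∧
    (∀ i j, i ≠ j → ¬ IsotopicCircles S (C i) (C j)) ∧
    g = (d : MCG S) ∧ ∀ i, ∃ j, IsotopicCircles S (img d (C i)) (C j)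

/-- Pseudo-Anosov mapping classes in the sense of the Nielsen–Thurston classification: those that
are neither of finite order nor reducible. -/
def IsPseudoAnosov (S : Set ℂ) (g : MCG S) : Prop := ¬ IsOfFinOrder g ∧ ¬ IsReducible S g

/-! ### The question -/

/-- `E = {j : t^j ∘ f is not pseudo-Anosov}`. -/
def exceptional (S : Set ℂ) (t f : MCG S) : Set ℤ := {j | ¬ IsPseudoAnosov S (t ^ j * f)}

/-- The property asked for in the question, for the surface `S` and the constant `N`. -/
def UniformBlock (S : Set ℂ) (N : ℕ) : Prop :=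
  ∀ (f : Diff S) (n : ℕ) (α : Fin n → Set S) (t : MCG S), IsMultiTwist S α t →
    Fills S {C | ∃ (m : ℤ) (i : Fin n), C = img (f ^ m) (α i)} →
    (exceptional S t (f : MCG S)).Finite ∧ ∃ a : ℤ, exceptional S t (f : MCG S) ⊆ Ico a (a + N)

/-- `S` is a closed disk with finitely many open disks (with disjoint closures, contained in the
open disk) removed; these are compact connected oriented surfaces with boundary. -/
def IsHoledDisk (S : Set ℂ) : Prop :=
  ∃ (c₀ : ℂ) (R : ℝ) (n : ℕ) (c : Fin n → ℂ) (r : Fin n → ℝ),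
    0 < R ∧ (∀ i, 0 < r i) ∧ (∀ i, Metric.closedBall (c i) (r i) ⊆ Metric.ball c₀ R) ∧
    (∀ i j, i ≠ j → Disjoint (Metric.closedBall (c i) (r i)) (Metric.closedBall (c j) (r j))) ∧
    S = Metric.closedBall c₀ R \ ⋃ i, Metric.ball (c i) (r i)

/-! ### The surface of the counterexample -/

/-- the fifth roots of unity -/
def ctr (i : ZMod 5) : ℂ := Complex.exp (2 * Real.pi * Complex.I * (i.val : ℂ) / 5)

/-- The closed disk of radius `2` with five holes of radius `1/10` about the fifth roots of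
unity: a sphere with six holes. -/
def Surf : Set ℂ := {z | ‖z‖ ≤ 2 ∧ ∀ i, 1 / 10 ≤ ‖z - ctr i‖}

end
end Pool.Agent.Helper328.MT
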