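import Mathlib
import Pool.Agent.Helper328.MT.Defs
set_option autoImplicit false

namespace Pool.Agent.Helper328.MT


theorem isRotated_of_isConj_rot {α : Type} (a : α × Bool) (L : List (α × Bool)) :
    FreeGroup.IsCyclicallyReduced (a :: L) ↔ FreeGroup.IsCyclicallyReduced (L ++ [a]) := by
  unfold FreeGroup.IsCyclicallyReduced FreeGroup.IsReduced
  rcases L with _ | ⟨b, L⟩
  · simp
  · rw [List.isChain_cons, List.isChain_append]
    have h1 : (a :: b :: L).getLast? = (b :: L).getLast? := by
      rw [List.getLast?_cons_cons]
    rw [h1]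
    simp only [List.head?_cons, Option.mem_def, Option.some.injEq, List.isChain_singleton,
      true_and, List.cons_append, forall_eq']
    have h2 : (b :: (L ++ [a])).getLast? = some a := by
      rw [← List.cons_append, List.getLast?_concat]
    rw [h2]
    constructor
    · rintro ⟨⟨h3, h4⟩, h5⟩
      refine ⟨⟨h4, h5⟩, ?_⟩
      intro x hx
      obtain rfl := Option.some.inj hx
      exact h3
    · rintro ⟨⟨h4, h5⟩, h3⟩
      exact ⟨⟨h3 a rfl, h4⟩, h5⟩

theorem isRotated_of_isConj_aux {α : Type} [DecidableEq α] (n : ℕ) :
    ∀ (W L M : List (α × Bool)), W.length = n → FreeGroup.IsReduced W →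
    FreeGroup.IsCyclicallyReduced L → FreeGroup.IsCyclicallyReduced M →
    FreeGroup.mk W * FreeGroup.mk L * (FreeGroup.mk W)⁻¹ = FreeGroup.mk M → L ~r M := by
  induction n with
  | zero =>
    intro W L M hW _ hL hM h
    rw [List.length_eq_zero_iff] at hW
    subst hW
    have h1 : FreeGroup.mk L = FreeGroup.mk M := by
      rw [← FreeGroup.one_eq_mk, one_mul, inv_one, mul_one] at h
      exact h
    have h3 : FreeGroup.reduce L = FreeGroup.reduce M := FreeGroup.reduce.sound h1
    rw [hL.isReduced.reduce_eq, hM.isReduced.reduce_eq] at h3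
    rw [h3]
  | succ n ih =>
    intro W L M hW hWr hL hM h
    obtain ⟨W', a, rfl⟩ : ∃ W' a, W = W' ++ [a] := by
      rcases List.eq_nil_or_concat W with h0 | ⟨W', a, h0⟩
      · subst h0; simp at hW
      · exact ⟨W', a, by rw [h0, List.concat_eq_append]⟩
    have hW' : W'.length = n := by simpa using hW
    have hWr' : FreeGroup.IsReduced W' := by
      unfold FreeGroup.IsReduced at hWr ⊢
      exact (List.isChain_append.1 hWr).1
    have hsplit : FreeGroup.mk (W' ++ [a]) = FreeGroup.mk W' * FreeGroup.mk [a] :=
      FreeGroup.mul_mk.symm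
    by_cases hnil : L = []
    · subst hnil
      have h1 : FreeGroup.mk M = FreeGroup.mk ([] : List (α × Bool)) := by
        rw [← h, ← FreeGroup.one_eq_mk, mul_one, mul_inv_cancel]
      have h3 : FreeGroup.reduce M = FreeGroup.reduce [] := FreeGroup.reduce.sound h1
      rw [hM.isReduced.reduce_eq] at h3
      rw [h3]
      rfl
    have hcancel : ∀ c : α × Bool, FreeGroup.mk [c] * FreeGroup.mk [(c.1, !c.2)] = 1 := by
      intro c
      have : FreeGroup.mk [(c.1, !c.2)] = (FreeGroup.mk [c])⁻¹ := by
        rw [FreeGroup.inv_mk]; rfl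
      rw [this, mul_inv_cancel]
    by_cases h1 : L.head? = some (a.1, !a.2)
    · obtain ⟨L', rfl⟩ : ∃ L', L = (a.1, !a.2) :: L' := by
        rcases L with _ | ⟨b, L'⟩
        · exact absurd rfl hnil
        · rw [List.head?_cons] at h1
          exact ⟨L', by rw [Option.some.inj h1]⟩
      have h2 := ih W' (L' ++ [(a.1, !a.2)]) M hW' hWr' ((isRotated_of_isConj_rot _ _).1 hL) hM (by
        rw [← h, hsplit, mul_inv_rev]
        have e1 : FreeGroup.mk ((a.1, !a.2) :: L') = FreeGroup.mk [(a.1, !a.2)] * FreeGroup.mk L' := by
          rw [FreeGroup.mul_mk]; rfl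
        have e2 : FreeGroup.mk (L' ++ [(a.1, !a.2)]) = FreeGroup.mk L' * FreeGroup.mk [(a.1, !a.2)] :=
          FreeGroup.mul_mk.symm
        have e3 : (FreeGroup.mk [a])⁻¹ = FreeGroup.mk [(a.1, !a.2)] := by
          rw [FreeGroup.inv_mk]; rfl
        rw [e1, e2, e3]
        have e4 := hcancel a
        calc _ = FreeGroup.mk W' * (1 * (FreeGroup.mk L' * FreeGroup.mk [(a.1, !a.2)])) *
              (FreeGroup.mk W')⁻¹ := by rw [one_mul]
          _ = _ := by rw [← e4]; group)
      refine List.IsRotated.trans ?_ h2
      exact (List.isRotated_append (l := [(a.1, !a.2)]) (l' := L'))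
    by_cases h2 : L.getLast? = some a
    · obtain ⟨L', rfl⟩ : ∃ L', L = L' ++ [a] := by
        rcases List.eq_nil_or_concat L with h0 | ⟨L', b, h0⟩
        · exact absurd h0 hnil
        · rw [List.concat_eq_append] at h0
          subst h0
          rw [List.getLast?_concat] at h2
          exact ⟨L', by rw [Option.some.inj h2]⟩
      have h3 := ih W' (a :: L') M hW' hWr' ((isRotated_of_isConj_rot _ _).2 hL) hM (by
        rw [← h, hsplit, mul_inv_rev]
        have e1 : FreeGroup.mk (a :: L') = FreeGroup.mk [a] * FreeGroup.mk L' := by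
          rw [FreeGroup.mul_mk]; rfl
        have e2 : FreeGroup.mk (L' ++ [a]) = FreeGroup.mk L' * FreeGroup.mk [a] :=
          FreeGroup.mul_mk.symm
        rw [e1, e2]
        group)
      refine List.IsRotated.trans ?_ h3
      exact (List.isRotated_append (l := L') (l' := [a]))
    · exfalso
      have hinv : FreeGroup.invRev (W' ++ [a]) = (a.1, !a.2) :: FreeGroup.invRev W' := by
        simp [FreeGroup.invRev]
      have hinvr : FreeGroup.IsReduced (FreeGroup.invRev (W' ++ [a])) := by
        rw [FreeGroup.isReduced_iff_reduce_eq, FreeGroup.reduce_invRev, hWr.reduce_eq]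
      have hred : FreeGroup.IsReduced ((W' ++ [a]) ++ (L ++ FreeGroup.invRev (W' ++ [a]))) := by
        unfold FreeGroup.IsReduced at *
        rw [List.isChain_append]
        refine ⟨hWr, ?_, ?_⟩
        · rw [List.isChain_append]
          refine ⟨hL.isReduced, hinvr, ?_⟩
          intro x hx y hy
          rw [hinv, List.head?_cons] at hy
          obtain rfl := Option.some.inj hy
          intro hxy
          simp only at hxy ⊢
          by_contra hne
          apply h2
          rw [Option.mem_def] at hx
          rw [hx]
          congr 1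
          refine Prod.ext hxy ?_
          exact (by decide : ∀ b c : Bool, ¬ b = !c → b = c) _ _ hne
        · intro x hx y hy
          rw [List.getLast?_concat] at hx
          obtain rfl := Option.some.inj hx
          have hy' : L.head? = some y := by
            rcases L with _ | ⟨b, L'⟩
            · exact absurd rfl hnil
            · simpa using hy
          intro hxy
          by_contra hne
          apply h1
          rw [hy']
          congr 1
          refine Prod.ext hxy.symm ?_
          exact (by decide : ∀ b c : Bool, ¬ b = c → c = !b) _ _ hne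
      have hM2 : (W' ++ [a]) ++ (L ++ FreeGroup.invRev (W' ++ [a])) = M := by
        have h3 : FreeGroup.mk ((W' ++ [a]) ++ (L ++ FreeGroup.invRev (W' ++ [a]))) =
            FreeGroup.mk M := by
          rw [← h, FreeGroup.inv_mk]
          simp only [FreeGroup.mul_mk, List.append_assoc]
        have h4 := FreeGroup.reduce.sound h3
        rwa [hred.reduce_eq, hM.isReduced.reduce_eq] at h4
      obtain ⟨w, W'', hw⟩ : ∃ w W'', W' ++ [a] = w :: W'' := by
        rcases h5 : W' ++ [a] with _ | ⟨w, W''⟩
        · simp at h5
        · exact ⟨w, W'', rfl⟩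
      have hhead : M.head? = some w := by
        rw [← hM2, hw]
        rfl
      have hlast : M.getLast? = some (w.1, !w.2) := by
        have : FreeGroup.invRev (w :: W'') = FreeGroup.invRev W'' ++ [(w.1, !w.2)] := by
          simp [FreeGroup.invRev]
        rw [← hM2, hw, this, ← List.append_assoc, ← List.append_assoc, List.getLast?_concat]
      have := hM.2 (w.1, !w.2) hlast w hhead rfl
      simp at this

/-- conjugate cyclically reduced words are rotations of each other -/
theorem isRotated_of_isConj {α : Type} [DecidableEq α] (L M : List (α × Bool))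
    (hL : FreeGroup.IsCyclicallyReduced L) (hM : FreeGroup.IsCyclicallyReduced M)
    (h : IsConj (FreeGroup.mk L) (FreeGroup.mk M)) : L ~r M := by
  
  rw [isConj_iff] at h
  obtain ⟨g, hg⟩ := h
  refine isRotated_of_isConj_aux g.toWord.length g.toWord L M rfl FreeGroup.isReduced_toWord hL hM ?_
  rw [FreeGroup.mk_toWord]
  exact hg

end Pool.Agent.Helper328.MT
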