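import Mathlib
import Pool.Agent.Helper328.MT.K1
set_option autoImplicit false

namespace Pool.Agent.Helper328.MT

/-! helper lemmas -/

/-- cyclic chains -/
def CC {α : Type} (R : α → α → Prop) (L : List α) : Prop :=
  L.IsChain R ∧ ∀ a ∈ L.getLast?, ∀ b ∈ L.head?, R a b

theorem cc_iff {α : Type} (R : α → α → Prop) (L : List α) :
    CC R L ↔ Cycle.Chain R (L : Cycle α) := by
  cases L with
  | nil => simp [CC]
  | cons b l =>
    rw [Cycle.chain_ne_nil R (List.cons_ne_nil b l), List.isChain_cons_cons, CC,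
      List.getLast?_eq_some_getLast (List.cons_ne_nil b l), List.head?_cons]
    simp only [Option.mem_def, Option.some.injEq, forall_eq']
    exact and_comm

theorem cc_rot {α : Type} (R : α → α → Prop) {L M : List α} (h : L ~r M) :
    CC R L ↔ CC R M := by
  rw [cc_iff, cc_iff, Cycle.coe_eq_coe.2 h]

theorem cc_flatMap {β α : Type} (R' : β → β → Prop) (R : α → α → Prop) (sub : β → List α)
    (M : List β) (hne : ∀ m, sub m ≠ []) (hM : CC R' M) (hint : ∀ m ∈ M, (sub m).IsChain R)
    (hb : ∀ m ∈ M, ∀ m' ∈ M, R' m m' → ∀ x ∈ (sub m).getLast?, ∀ y ∈ (sub m').head?, R x y) :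
    CC R (M.flatMap sub) := by
  constructor
  · rw [List.flatMap_def, List.isChain_flatten]
    · refine ⟨?_, ?_⟩
      · intro l hl
        obtain ⟨m, hm, rfl⟩ := List.mem_map.1 hl
        exact hint m hm
      · rw [List.isChain_map]
        exact hM.1.imp_of_mem_imp (fun m m' hm hm' h => hb m hm m' hm' h)
    · intro h
      obtain ⟨m, _, hm⟩ := List.mem_map.1 h
      exact hne m hm
  · intro x hx y hy
    by_cases hMn : M = []
    · subst hMn
      simp at hx
    · have h1 : M = M.dropLast ++ [M.getLast hMn] := (List.dropLast_append_getLast hMn).symm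
      have h2 : M = M.head hMn :: M.tail := (List.cons_head_tail hMn).symm
      have hx' : x ∈ (sub (M.getLast hMn)).getLast? := by
        rw [h1, List.flatMap_append, List.getLast?_append_of_ne_nil] at hx
        · simpa using hx
        · simpa using hne _
      have hy' : y ∈ (sub (M.head hMn)).head? := by
        rw [h2, List.flatMap_cons, List.head?_append_of_ne_nil _ (hne _)] at hy
        exact hy
      refine hb _ (List.getLast_mem hMn) _ (List.head_mem hMn) ?_ x hx' y hy'
      exact hM.2 _ (List.getLast?_eq_some_getLast hMn) _ (List.head?_eq_some_head hMn)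

theorem cc_mono {α : Type} {R R' : α → α → Prop} (h : ∀ a b, R a b → R' a b) {L : List α}
    (hL : CC R L) : CC R' L :=
  ⟨hL.1.imp h, fun a ha b hb => h a b (hL.2 a ha b hb)⟩

theorem cc_rotate_to {α : Type} (u : List α) (a : α) (ha : a ∈ u) : ∃ N, u ~r (a :: N) := by
  obtain ⟨s, t, rfl⟩ := List.append_of_mem ha
  exact ⟨t ++ s, List.isRotated_append⟩

theorem cc_succ {α : Type} (R : α → α → Prop) (u : List α) (hu : CC R u) (a : α) (ha : a ∈ u) :
    (∃ b ∈ u, R a b) ∧ ∃ b ∈ u, R b a := by
  obtain ⟨N, hN⟩ := cc_rotate_to u a ha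
  rw [cc_rot R hN] at hu
  constructor
  · cases N with
    | nil =>
      exact ⟨a, ha, hu.2 a rfl a rfl⟩
    | cons b N' =>
      refine ⟨b, hN.mem_iff.2 (by simp), ?_⟩
      exact (List.isChain_cons_cons.1 hu.1).1
  · refine ⟨(a :: N).getLast (List.cons_ne_nil _ _),
      hN.mem_iff.2 (List.getLast_mem _), ?_⟩
    exact hu.2 _ (List.getLast?_eq_some_getLast _) a rfl

/-- reduced adjacency -/
def R0 (a b : ZMod 5 × Bool) : Prop := a.1 = b.1 → a.2 = b.2

/-- the adjacency rule at `i` -/
def Ri (i : ZMod 5) (a b : ZMod 5 × Bool) : Prop :=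
  (a = (i, true) → b = (i + 1, true)) ∧ (b = (i + 1, true) → a = (i, true)) ∧
  (a = (i + 1, false) → b = (i, false)) ∧ (b = (i, false) → a = (i + 1, false))

/-- the substitution -/
def sub (i : ZMod 5) (m : ZMod 5 × Bool) : List (ZMod 5 × Bool) :=
  if m = (i, true) then [(i, true), (i + 1, true)] else
    if m = (i, false) then [(i + 1, false), (i, false)] else [m]

theorem ne_succ (i : ZMod 5) : i ≠ i + 1 := by
  revert i; decide

theorem ne_succ2 (i : ZMod 5) : i ≠ i + 1 + 1 := by
  revert i; decide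

theorem sub_ne (i : ZMod 5) (m : ZMod 5 × Bool) : sub i m ≠ [] := by
  unfold sub; split_ifs <;> simp

theorem sub_int (i : ZMod 5) (m : ZMod 5 × Bool) :
    (sub i m).IsChain (fun a b => R0 a b ∧ Ri i a b) := by
  have h := ne_succ i
  unfold sub
  split_ifs
  · rw [List.isChain_pair]
    refine ⟨fun h' => absurd h' h, fun _ => rfl, fun _ => rfl, fun h' => ?_, fun h' => ?_⟩
    · exact absurd (congrArg Prod.snd h') (by simp)
    · exact absurd (congrArg Prod.snd h') (by simp)
  · rw [List.isChain_pair]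
    refine ⟨fun h' => absurd h'.symm h, fun h' => ?_, fun h' => ?_, fun _ => rfl, fun _ => rfl⟩
    · exact absurd (congrArg Prod.snd h') (by simp)
    · exact absurd (congrArg Prod.snd h') (by simp)
  · exact List.isChain_singleton m

/-- last letter of the substituted letter -/
def lastS (i : ZMod 5) (m : ZMod 5 × Bool) : ZMod 5 × Bool :=
  if m = (i, true) then (i + 1, true) else m

/-- first letter of the substituted letter -/
def headS (i : ZMod 5) (m : ZMod 5 × Bool) : ZMod 5 × Bool :=
  if m = (i, false) then (i + 1, false) else m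

theorem sub_last (i : ZMod 5) (m : ZMod 5 × Bool) : (sub i m).getLast? = some (lastS i m) := by
  unfold sub lastS
  split_ifs with h1 h2
  · rfl
  · rw [h2]; rfl
  · rfl

theorem sub_head (i : ZMod 5) (m : ZMod 5 × Bool) : (sub i m).head? = some (headS i m) := by
  unfold sub headS
  by_cases h1 : m = (i, true)
  · rw [if_pos h1, if_neg (by rw [h1]; simp), h1]; rfl
  · rw [if_neg h1]
    split_ifs <;> rfl

theorem sub_bd (i : ZMod 5) (m m' : ZMod 5 × Bool) (h1 : m.1 ≠ i + 1) (h2 : m'.1 ≠ i + 1)
    (h : R0 m m') : R0 (lastS i m) (headS i m') ∧ Ri i (lastS i m) (headS i m') := by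
  have hi := ne_succ i
  unfold lastS headS
  by_cases hA : m = (i, true)
  · rw [if_pos hA]
    by_cases hB : m' = (i, false)
    · exfalso
      rw [hA, hB] at h
      exact absurd (h rfl) (by simp)
    · rw [if_neg hB]
      refine ⟨fun h' => absurd h'.symm h2, fun h' => ?_, fun h' => ?_, fun h' => ?_,
        fun h' => absurd h' hB⟩
      · exact absurd (congrArg Prod.fst h').symm hi
      · exact absurd (congrArg Prod.fst h') h2
      · exact absurd (congrArg Prod.snd h') (by simp)
  · rw [if_neg hA]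
    by_cases hB : m' = (i, false)
    · rw [if_pos hB]
      refine ⟨fun h' => absurd h' h1, fun h' => absurd h' hA, fun h' => ?_, fun h' => ?_,
        fun h' => ?_⟩
      · exact absurd (congrArg Prod.snd h') (by simp)
      · exact absurd (congrArg Prod.fst h') h1
      · exact absurd (congrArg Prod.fst h').symm hi
    · rw [if_neg hB]
      refine ⟨h, fun h' => absurd h' hA, fun h' => ?_, fun h' => ?_,
        fun h' => absurd h' hB⟩
      · exact absurd (congrArg Prod.fst h') h2
      · exact absurd (congrArg Prod.fst h') h1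

/-- the substitution homomorphism -/
noncomputable def Th (i : ZMod 5) : FreeGroup (ZMod 5) →* FreeGroup (ZMod 5) :=
  FreeGroup.lift (fun j => if j = i then FreeGroup.of i * FreeGroup.of (i + 1) else FreeGroup.of j)

theorem mk_cons' (m : ZMod 5 × Bool) (M : List (ZMod 5 × Bool)) :
    FreeGroup.mk (m :: M) = FreeGroup.mk [m] * FreeGroup.mk M := by
  rw [FreeGroup.mul_mk]; rfl

theorem mk_false (j : ZMod 5) : FreeGroup.mk [(j, false)] = (FreeGroup.of j)⁻¹ := by
  rw [FreeGroup.of, FreeGroup.inv_mk]; rfl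

theorem Th_of (i j : ZMod 5) : Th i (FreeGroup.of j) =
    if j = i then FreeGroup.of i * FreeGroup.of (i + 1) else FreeGroup.of j := by
  unfold Th
  rw [FreeGroup.lift_apply_of]

theorem Th_single (i : ZMod 5) (m : ZMod 5 × Bool) :
    Th i (FreeGroup.mk [m]) = FreeGroup.mk (sub i m) := by
  obtain ⟨j, b⟩ := m
  cases b with
  | true =>
    show Th i (FreeGroup.of j) = _
    rw [Th_of]
    by_cases h : j = i
    · rw [if_pos h, h]
      unfold sub
      rw [if_pos rfl]
      rw [FreeGroup.of, FreeGroup.of, FreeGroup.mul_mk]; rfl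
    · rw [if_neg h]
      unfold sub
      rw [if_neg (fun h' => h (congrArg Prod.fst h')),
        if_neg (fun h' => h (congrArg Prod.fst h'))]
      rfl
  | false =>
    rw [mk_false, map_inv, Th_of]
    by_cases h : j = i
    · rw [if_pos h, h]
      unfold sub
      rw [if_neg (by simp), if_pos rfl, mul_inv_rev, ← mk_false, ← mk_false, FreeGroup.mul_mk]
      rfl
    · rw [if_neg h]
      unfold sub
      rw [if_neg (fun h' => h (congrArg Prod.fst h')),
        if_neg (fun h' => h (congrArg Prod.fst h')), mk_false]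

theorem Th_mk (i : ZMod 5) (M : List (ZMod 5 × Bool)) :
    Th i (FreeGroup.mk M) = FreeGroup.mk (M.flatMap (sub i)) := by
  induction M with
  | nil =>
    show Th i 1 = 1
    exact map_one _
  | cons m M ih =>
    rw [mk_cons', map_mul, Th_single, ih, List.flatMap_cons, FreeGroup.mul_mk]

theorem invRev_mem (M : List (ZMod 5 × Bool)) (m : ZMod 5 × Bool) (hm : m ∈ FreeGroup.invRev M) :
    ∃ m' ∈ M, m'.1 = m.1 := by
  unfold FreeGroup.invRev at hm
  rw [List.mem_reverse, List.mem_map] at hm
  obtain ⟨m', hm', rfl⟩ := hm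
  exact ⟨m', hm', rfl⟩

theorem alt2 (i : ZMod 5) (v : FreeGroup (ZMod 5))
    (hv : v ∈ Subgroup.closure ({x | x = FreeGroup.of i * FreeGroup.of (i + 1) ∨
          ∃ j, j ≠ i ∧ j ≠ i + 1 ∧ x = FreeGroup.of j} : Set (FreeGroup (ZMod 5)))) :
    ∃ M : List (ZMod 5 × Bool), (∀ m ∈ M, m.1 ≠ i + 1) ∧ v = Th i (FreeGroup.mk M) := by
  induction hv using Subgroup.closure_induction with
  | mem x hx =>
    rcases hx with rfl | ⟨j, h1, h2, rfl⟩
    · refine ⟨[(i, true)], ?_, ?_⟩
      · intro m hm
        rw [List.mem_singleton] at hm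
        rw [hm]; exact ne_succ i
      · show _ = Th i (FreeGroup.of i)
        rw [Th_of, if_pos rfl]
    · refine ⟨[(j, true)], ?_, ?_⟩
      · intro m hm
        rw [List.mem_singleton] at hm
        rw [hm]; exact h2
      · show _ = Th i (FreeGroup.of j)
        rw [Th_of, if_neg h1]
  | one =>
    refine ⟨[], by simp, ?_⟩
    show 1 = Th i 1
    exact (map_one _).symm
  | mul x y _ _ hx hy =>
    obtain ⟨M1, h1, rfl⟩ := hx
    obtain ⟨M2, h2, rfl⟩ := hy
    refine ⟨M1 ++ M2, ?_, ?_⟩
    · intro m hm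
      rcases List.mem_append.1 hm with h | h
      · exact h1 m h
      · exact h2 m h
    · rw [← FreeGroup.mul_mk, map_mul]
  | inv x _ hx =>
    obtain ⟨M1, h1, rfl⟩ := hx
    refine ⟨FreeGroup.invRev M1, ?_, ?_⟩
    · intro m hm
      obtain ⟨m', hm', h⟩ := invRev_mem M1 m hm
      rw [← h]; exact h1 m' hm'
    · rw [← FreeGroup.inv_mk, map_inv]

theorem alt1 (i : ZMod 5) (v : FreeGroup (ZMod 5))
    (hv : v ∈ Subgroup.closure ({FreeGroup.of i, FreeGroup.of (i + 1)} :
      Set (FreeGroup (ZMod 5)))) :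
    ∃ M : List (ZMod 5 × Bool), (∀ m ∈ M, m.1 = i ∨ m.1 = i + 1) ∧ v = FreeGroup.mk M := by
  induction hv using Subgroup.closure_induction with
  | mem x hx =>
    rcases hx with rfl | hx
    · refine ⟨[(i, true)], ?_, rfl⟩
      intro m hm
      rw [List.mem_singleton] at hm
      rw [hm]; exact Or.inl rfl
    · rw [Set.mem_singleton_iff] at hx
      subst hx
      refine ⟨[(i + 1, true)], ?_, rfl⟩
      intro m hm
      rw [List.mem_singleton] at hm
      rw [hm]; exact Or.inr rfl
  | one => exact ⟨[], by simp, rfl⟩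
  | mul x y _ _ hx hy =>
    obtain ⟨M1, h1, rfl⟩ := hx
    obtain ⟨M2, h2, rfl⟩ := hy
    refine ⟨M1 ++ M2, ?_, ?_⟩
    · intro m hm
      rcases List.mem_append.1 hm with h | h
      · exact h1 m h
      · exact h2 m h
    · rw [← FreeGroup.mul_mk]
  | inv x _ hx =>
    obtain ⟨M1, h1, rfl⟩ := hx
    refine ⟨FreeGroup.invRev M1, ?_, ?_⟩
    · intro m hm
      obtain ⟨m', hm', h⟩ := invRev_mem M1 m hm
      rw [← h]; exact h1 m' hm'
    · rw [← FreeGroup.inv_mk]

theorem cyc_red (M : List (ZMod 5 × Bool)) : ∃ M2 : List (ZMod 5 × Bool),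
    FreeGroup.IsCyclicallyReduced M2 ∧ IsConj (FreeGroup.mk M) (FreeGroup.mk M2) ∧
      ∀ m ∈ M2, m ∈ M := by
  set M1 := FreeGroup.reduce M with hM1
  have hred : FreeGroup.IsReduced M1 := by
    apply FreeGroup.IsReduced.of_reduce_eq
    rw [hM1, FreeGroup.reduce.idem]
  have heq := FreeGroup.reduceCyclically.conj_conjugator_reduceCyclically M1
  have hmk : FreeGroup.mk M = FreeGroup.mk M1 := FreeGroup.reduce.self.symm
  refine ⟨FreeGroup.reduceCyclically M1,
    FreeGroup.reduceCyclically.isCyclicallyReduced hred, ?_, ?_⟩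
  · rw [hmk]
    have h1 : FreeGroup.mk M1 = FreeGroup.mk (FreeGroup.reduceCyclically.conjugator M1) *
        FreeGroup.mk (FreeGroup.reduceCyclically M1) *
        (FreeGroup.mk (FreeGroup.reduceCyclically.conjugator M1))⁻¹ := by
      rw [FreeGroup.inv_mk, FreeGroup.mul_mk, FreeGroup.mul_mk, heq]
    exact (isConj_iff.2 ⟨_, h1.symm⟩).symm
  · intro m hm
    have h2 : m ∈ M1 := by
      rw [← heq]
      simp [hm]
    have h3 : FreeGroup.Red M M1 := FreeGroup.reduce.red
    exact h3.sublist.subset h2

theorem one_letter (j : ZMod 5) (u : List (ZMod 5 × Bool)) (hu : ∀ m ∈ u, m.1 = j) :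
    ∃ k : ℤ, FreeGroup.mk u = FreeGroup.of j ^ k := by
  induction u with
  | nil => exact ⟨0, by rw [zpow_zero]; rfl⟩
  | cons m u ih =>
    obtain ⟨k, hk⟩ := ih (fun m' hm' => hu m' (List.mem_cons_of_mem _ hm'))
    have hm := hu m (by simp)
    obtain ⟨c, b⟩ := m
    simp only at hm
    subst hm
    cases b with
    | true =>
      refine ⟨1 + k, ?_⟩
      rw [mk_cons', hk, zpow_add, zpow_one]; rfl
    | false =>
      refine ⟨-1 + k, ?_⟩
      rw [mk_cons', hk, mk_false, zpow_add, zpow_neg_one]

/-- the successor letter -/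
def fS (x : ZMod 5 × Bool) : ZMod 5 × Bool := if x.2 then (x.1 + 1, true) else (x.1 - 1, false)

theorem fS_true (c : ZMod 5) (t : ℕ) : fS^[t] (c, true) = (c + (t : ZMod 5), true) := by
  induction t with
  | zero => simp
  | succ t ih =>
    rw [Function.iterate_succ_apply', ih]
    show (c + (t : ZMod 5) + 1, true) = _
    push_cast
    rw [add_assoc]

theorem fS_false (c : ZMod 5) (t : ℕ) : fS^[t] (c, false) = (c - (t : ZMod 5), false) := by
  induction t with
  | zero => simp
  | succ t ih =>
    rw [Function.iterate_succ_apply', ih]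
    show (c - (t : ZMod 5) - 1, false) = _
    push_cast
    rw [sub_sub]

theorem chain_iter (a : ZMod 5 × Bool) (l : List (ZMod 5 × Bool))
    (h : (a :: l).IsChain (fun x y => y = fS x)) (t : ℕ) (ht : t < (a :: l).length) :
    (a :: l)[t] = fS^[t] a := by
  induction t with
  | zero => rfl
  | succ t ih =>
    rw [Function.iterate_succ_apply', ← ih (by omega)]
    exact List.isChain_iff_getElem.1 h t ht

/-- the five letter product -/
noncomputable def P5 (c : ZMod 5) : FreeGroup (ZMod 5) :=
  FreeGroup.of c * FreeGroup.of (c + 1) * FreeGroup.of (c + 2) * FreeGroup.of (c + 3) *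
    FreeGroup.of (c + 4)

theorem P5_succ (c : ZMod 5) : IsConj (P5 c) (P5 (c + 1)) := by
  rw [isConj_iff]
  refine ⟨(FreeGroup.of c)⁻¹, ?_⟩
  unfold P5
  have h1 : c + 1 + 1 = c + 2 := by revert c; decide
  have h2 : c + 1 + 2 = c + 3 := by revert c; decide
  have h3 : c + 1 + 3 = c + 4 := by revert c; decide
  have h4 : c + 1 + 4 = c := by revert c; decide
  rw [h1, h2, h3, h4]
  group

theorem P5_zero (c : ZMod 5) : IsConj (P5 c) (P5 0) := by
  have h : ∀ n : ℕ, IsConj (P5 (n : ZMod 5)) (P5 0) := by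
    intro n
    induction n with
    | zero => rw [Nat.cast_zero]
    | succ n ih =>
      rw [Nat.cast_succ]
      exact (P5_succ _).symm.trans ih
  have h2 := h c.val
  rw [ZMod.natCast_val, ZMod.cast_id] at h2
  exact h2

theorem five_zero (m : ℕ) : ((5 * m : ℕ) : ZMod 5) = 0 := by
  rw [ZMod.natCast_eq_zero_iff]; exact dvd_mul_right _ _

theorem pos_word (c : ZMod 5) (m : ℕ) :
    FreeGroup.mk ((List.range (5 * m)).map (fun t : ℕ => ((c + (t : ZMod 5) : ZMod 5), true))) =
      P5 c ^ m := by
  induction m with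
  | zero => rw [pow_zero]; rfl
  | succ m ih =>
    rw [Nat.mul_succ, List.range_add, List.map_append, ← FreeGroup.mul_mk, ih, pow_succ,
      List.map_map]
    congr 1
    have h : ((fun t : ℕ => ((c + (t : ZMod 5) : ZMod 5), true)) ∘ fun x => 5 * m + x) =
        fun t : ℕ => ((c + (t : ZMod 5) : ZMod 5), true) := by
      funext t
      show ((c + ((5 * m + t : ℕ) : ZMod 5) : ZMod 5), true) = _
      rw [Nat.cast_add, five_zero, zero_add]
    rw [h]
    have h2 : (List.range 5).map (fun t : ℕ => ((c + (t : ZMod 5) : ZMod 5), true)) =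
        [(c, true), (c + 1, true), (c + 2, true), (c + 3, true), (c + 4, true)] := by
      have h3 : List.range 5 = [0, 1, 2, 3, 4] := rfl
      rw [h3]
      simp
    rw [h2]
    unfold P5
    simp only [FreeGroup.of, FreeGroup.mul_mk]
    rfl

theorem zmod_facts (c : ZMod 5) : c + 1 + 1 = c - 3 ∧ c + 1 + 2 = c - 2 ∧ c + 1 + 3 = c - 1 ∧
    c + 1 + 4 = c ∧ c + 1 = c - 4 := by
  revert c; decide

theorem neg_word (c : ZMod 5) (m : ℕ) :
    FreeGroup.mk ((List.range (5 * m)).map (fun t : ℕ => ((c - (t : ZMod 5) : ZMod 5), false))) =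
      (P5 (c + 1))⁻¹ ^ m := by
  induction m with
  | zero => rw [pow_zero]; rfl
  | succ m ih =>
    rw [Nat.mul_succ, List.range_add, List.map_append, ← FreeGroup.mul_mk, ih, pow_succ,
      List.map_map]
    congr 1
    have h : ((fun t : ℕ => ((c - (t : ZMod 5) : ZMod 5), false)) ∘ fun x => 5 * m + x) =
        fun t : ℕ => ((c - (t : ZMod 5) : ZMod 5), false) := by
      funext t
      show ((c - ((5 * m + t : ℕ) : ZMod 5) : ZMod 5), false) = _
      rw [Nat.cast_add, five_zero, zero_add]
    rw [h]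
    have h2 : (List.range 5).map (fun t : ℕ => ((c - (t : ZMod 5) : ZMod 5), false)) =
        [(c, false), (c - 1, false), (c - 2, false), (c - 3, false), (c - 4, false)] := by
      have h3 : List.range 5 = [0, 1, 2, 3, 4] := rfl
      rw [h3]
      simp
    rw [h2]
    obtain ⟨g0, g1, g2, g3, g4⟩ := zmod_facts c
    unfold P5
    rw [g0, g1, g2, g3, g4]
    simp only [FreeGroup.of, FreeGroup.mul_mk, FreeGroup.inv_mk]
    rfl

theorem all_case (u : List (ZMod 5 × Bool)) (hu : ∀ i, CC (Ri i) u) (hne : u ≠ []) :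
    ∃ k : ℤ, IsConj (FreeGroup.mk u) (P5 0 ^ k) := by
  obtain ⟨a, N, rfl⟩ := List.exists_cons_of_ne_nil hne
  have hF : CC (fun x y => y = fS x) (a :: N) := by
    have hR : ∀ x y, (∀ i, Ri i x y) → y = fS x := by
      intro x y h
      obtain ⟨c, b⟩ := x
      cases b with
      | true =>
        exact (h c).1 rfl
      | false =>
        have h1 := (h (c - 1)).2.2.1
        rw [sub_add_cancel] at h1
        exact h1 rfl
    refine cc_mono hR ?_
    refine ⟨?_, ?_⟩
    · rw [List.isChain_iff_getElem]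
      intro t ht i
      exact List.isChain_iff_getElem.1 (hu i).1 t ht
    · intro x hx y hy i
      exact (hu i).2 x hx y hy
  rw [cc_iff] at hF
  have hF' : List.IsChain (fun x y => y = fS x) (a :: (N ++ [a])) := hF
  have hit := chain_iter a (N ++ [a]) hF'
  set n := N.length + 1 with hn
  have hlast : fS^[n] a = a := by
    rw [← hit n (by simp [hn])]
    simp [hn]
  have hlist : a :: N = (List.range n).map (fun t => fS^[t] a) := by
    apply List.ext_getElem
    · simp [hn]
    · intro t h1 h2
      rw [List.getElem_map, List.getElem_range]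
      have h3 : t < (a :: (N ++ [a])).length := by
        simp only [List.length_cons, List.length_append, List.length_nil] at h1 ⊢
        omega
      rw [← hit t h3]
      have h4 : (a :: (N ++ [a])) = (a :: N) ++ [a] := rfl
      simp only [h4]
      rw [List.getElem_append_left]
  obtain ⟨c, b⟩ := a
  cases b with
  | true =>
    have h5 : ((n : ℕ) : ZMod 5) = 0 := by
      rw [fS_true] at hlast
      have h6 := congrArg Prod.fst hlast
      have h7 : c + ((n : ℕ) : ZMod 5) = c := h6
      exact add_eq_left.1 h7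
    rw [ZMod.natCast_eq_zero_iff] at h5
    obtain ⟨m, hm⟩ := h5
    refine ⟨m, ?_⟩
    rw [hlist, hm]
    have h8 : (fun t => fS^[t] (c, true)) = fun t : ℕ => ((c + (t : ZMod 5) : ZMod 5), true) :=
      funext fun t => fS_true c t
    rw [h8, pos_word, zpow_natCast]
    exact (P5_zero c).pow m
  | false =>
    have h5 : ((n : ℕ) : ZMod 5) = 0 := by
      rw [fS_false] at hlast
      have h6 := congrArg Prod.fst hlast
      have h7 : c - ((n : ℕ) : ZMod 5) = c := h6
      exact sub_eq_self.1 h7
    rw [ZMod.natCast_eq_zero_iff] at h5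
    obtain ⟨m, hm⟩ := h5
    refine ⟨-(m : ℤ), ?_⟩
    rw [hlist, hm]
    have h8 : (fun t => fS^[t] (c, false)) = fun t : ℕ => ((c - (t : ZMod 5) : ZMod 5), false) :=
      funext fun t => fS_false c t
    rw [h8, neg_word, zpow_neg, zpow_natCast, ← inv_pow]
    refine IsConj.pow m ?_
    obtain ⟨g, hg⟩ := isConj_iff.1 (P5_zero (c + 1))
    rw [isConj_iff]
    exact ⟨g, by rw [← hg]; group⟩

theorem fill_algebra (w : FreeGroup (ZMod 5))
    (h : ∀ i : ZMod 5,
      (∃ u ∈ Subgroup.closure ({FreeGroup.of i, FreeGroup.of (i + 1)} : Set (FreeGroup (ZMod 5))),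
        IsConj w u) ∨
      (∃ u ∈ Subgroup.closure ({x | x = FreeGroup.of i * FreeGroup.of (i + 1) ∨
          ∃ j, j ≠ i ∧ j ≠ i + 1 ∧ x = FreeGroup.of j} : Set (FreeGroup (ZMod 5))),
        IsConj w u)) :
    (∃ (j : ZMod 5) (k : ℤ), IsConj w (FreeGroup.of j ^ k)) ∨
    ∃ k : ℤ, IsConj w ((FreeGroup.of 0 * FreeGroup.of 1 * FreeGroup.of 2 * FreeGroup.of 3 *
      FreeGroup.of 4) ^ k) := by
  obtain ⟨u, huc, huw, -⟩ := cyc_red w.toWord
  rw [FreeGroup.mk_toWord] at huw
  have hAB : ∀ i : ZMod 5, (∀ m ∈ u, m.1 = i ∨ m.1 = i + 1) ∨ CC (Ri i) u := by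
    intro i
    rcases h i with ⟨v, hv, hwv⟩ | ⟨v, hv, hwv⟩
    · left
      obtain ⟨M, hM, rfl⟩ := alt1 i v hv
      obtain ⟨M2, hM2, hconj, hsub⟩ := cyc_red M
      have hrot := isRotated_of_isConj u M2 huc hM2 ((huw.symm.trans hwv).trans hconj)
      intro m hm
      exact hM m (hsub m (hrot.mem_iff.1 hm))
    · right
      obtain ⟨M, hM, rfl⟩ := alt2 i v hv
      obtain ⟨M2, hM2, hconj, hsub⟩ := cyc_red M
      have hcc : CC (fun a b => R0 a b ∧ Ri i a b) (M2.flatMap (sub i)) := by
        refine cc_flatMap R0 _ (sub i) M2 (sub_ne i) hM2 (fun m _ => sub_int i m) ?_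
        intro m hm m' hm' hR x hx y hy
        rw [sub_last, Option.mem_def, Option.some.injEq] at hx
        rw [sub_head, Option.mem_def, Option.some.injEq] at hy
        rw [← hx, ← hy]
        exact sub_bd i m m' (hM m (hsub m hm)) (hM m' (hsub m' hm')) hR
      have hconj2 : IsConj (Th i (FreeGroup.mk M)) (FreeGroup.mk (M2.flatMap (sub i))) := by
        rw [← Th_mk]
        exact (Th i).map_isConj hconj
      have hcyc : FreeGroup.IsCyclicallyReduced (M2.flatMap (sub i)) :=
        cc_mono (R' := R0) (fun a b h => h.1) hcc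
      have hrot := isRotated_of_isConj u _ huc hcyc ((huw.symm.trans hwv).trans hconj2)
      rw [cc_rot _ hrot]
      exact cc_mono (fun a b h => h.2) hcc
  by_cases hA : ∃ i : ZMod 5, ∀ m ∈ u, m.1 = i ∨ m.1 = i + 1
  · left
    obtain ⟨i, hi⟩ := hA
    have hone : ∃ j : ZMod 5, ∀ m ∈ u, m.1 = j := by
      rcases hAB (i + 1) with h1 | h1
      · refine ⟨i + 1, fun m hm => ?_⟩
        rcases hi m hm with h2 | h2
        · rcases h1 m hm with h3 | h3
          · exact h3
          · exfalso
            rw [h2] at h3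
            exact ne_succ2 i h3
        · exact h2
      · refine ⟨i, fun m hm => ?_⟩
        rcases hi m hm with h2 | h2
        · exact h2
        · exfalso
          have hno : ∀ m' ∈ u, m'.1 ≠ i + 1 + 1 := by
            intro m' hm' h4
            rcases hi m' hm' with h3 | h3
            · rw [h3] at h4
              exact ne_succ2 i h4
            · rw [h3] at h4
              exact ne_succ (i + 1) h4
          obtain ⟨⟨b, hb, hRb⟩, ⟨b', hb', hRb'⟩⟩ := cc_succ _ u h1 m hm
          obtain ⟨c, d⟩ := m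
          simp only at h2
          subst h2
          cases d with
          | true =>
            have h5 := hRb.1 rfl
            exact hno b hb (by rw [h5])
          | false =>
            have h5 := hRb'.2.2.2 rfl
            exact hno b' hb' (by rw [h5])
    obtain ⟨j, hj⟩ := hone
    obtain ⟨k, hk⟩ := one_letter j u hj
    exact ⟨j, k, by rw [← hk]; exact huw⟩
  · right
    have hB : ∀ i, CC (Ri i) u := by
      intro i
      rcases hAB i with h1 | h1
      · exact absurd ⟨i, h1⟩ hA
      · exact h1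
    have hne : u ≠ [] := by
      intro h0
      apply hA
      refine ⟨0, fun m hm => ?_⟩
      rw [h0] at hm
      exact absurd hm (List.not_mem_nil)
    obtain ⟨k, hk⟩ := all_case u hB hne
    refine ⟨k, huw.trans ?_⟩
    have hP : P5 0 = FreeGroup.of 0 * FreeGroup.of 1 * FreeGroup.of 2 * FreeGroup.of 3 *
      FreeGroup.of 4 := by
      unfold P5
      simp only [zero_add]
    rw [hP] at hk
    exact hk

end Pool.Agent.Helper328.MT
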