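import Mathlib
import Pool.Agent.Helper328.MT.Defs

set_option autoImplicit false
open scoped ContDiff Topology unitInterval
open Set Filter

namespace Pool.Agent.Helper328.MT
noncomputable section

/-- coordinates of `z` with respect to the direction `ctr i` -/
def cre (i : ZMod 5) (z : ℂ) : ℝ := (z * (starRingEnd ℂ) (ctr i)).re
def cim (i : ZMod 5) (z : ℂ) : ℝ := (z * (starRingEnd ℂ) (ctr i)).im

/-- the plane minus the five roots of unity -/
abbrev X : Type := {z : ℂ // ∀ i, z ≠ ctr i}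

/-- the complement of the five closed rays `{t * ctr i : t ≥ 1}` -/
def U0 : Set X := {z | ∀ i, cim i z = 0 → cre i z < 1}

/-- an open convex cone about the `i`-th open ray, with apex `ctr i` -/
def V (i : ZMod 5) : Set X := {z | 2 * |cim i z| < cre i z - 1}

abbrev G : Type := FreeGroup (ZMod 5)

/-- the universal covering of `X`, with its charts over `U0` and over `V i`; crossing the `i`-th
ray counterclockwise multiplies the coordinate `κ0` by the generator `i` on the right -/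
structure Cov where
  E : Type
  [top : TopologicalSpace E]
  [act : MulAction G E]
  π : E → X
  cov : IsCoveringMap π
  κ0 : E → G
  κ : ZMod 5 → E → G
  κ0_cont : ∀ e, π e ∈ U0 → ∀ᶠ e' in 𝓝 e, κ0 e' = κ0 e
  κ_cont : ∀ i e, π e ∈ V i → ∀ᶠ e' in 𝓝 e, κ i e' = κ i e
  rel_pos : ∀ i e, π e ∈ V i → 0 < cim i (π e) → κ i e = κ0 e
  rel_neg : ∀ i e, π e ∈ V i → cim i (π e) < 0 → κ i e = κ0 e * FreeGroup.of i
  ext0 : ∀ e e', π e ∈ U0 → π e = π e' → κ0 e = κ0 e' → e = e'
  exti : ∀ i e e', π e ∈ V i → π e = π e' → κ i e = κ i e' → e = e'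
  ex0 : ∀ z ∈ U0, ∀ g, ∃ e, π e = z ∧ κ0 e = g
  exi : ∀ i, ∀ z ∈ V i, ∀ g, ∃ e, π e = z ∧ κ i e = g
  smul_cont : ∀ h : G, Continuous fun e : E => h • e
  π_smul : ∀ (h : G) e, π (h • e) = π e
  κ0_smul : ∀ (h : G) e, π e ∈ U0 → κ0 (h • e) = h * κ0 e
  κ_smul : ∀ i (h : G) e, π e ∈ V i → κ i (h • e) = h * κ i e

attribute [instance] Cov.top Cov.act

/-- the periodic loop `γ` in `X` has code `w`: it has a lift `g` with `g (t+1) = w • g t` -/
def HasCode (C : Cov) (γ : ℝ → X) (w : G) : Prop :=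
  ∃ g : ℝ → C.E, Continuous g ∧ (∀ t, C.π (g t) = γ t) ∧ ∀ t, g (t + 1) = w • g t


/-- centre of the circle around the holes `i`, `i+1` -/
def cen (i : ZMod 5) : ℂ := (3 / 5) * (ctr i + ctr (i + 1))

/-- the circle on `Surf` around the holes `i`, `i+1` -/
def circ (i : ZMod 5) : Set Surf := {x | ‖(x : ℂ) - cen i‖ = 4 / 5}


end
end Pool.Agent.Helper328.MT
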