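import Mathlib
import Pool.Agent.Helper328.MT.Defs
set_option autoImplicit false

namespace Pool.Agent.Helper328.MT
noncomputable section

theorem s_pow (i : ZMod 5) : ctr i = Complex.exp (2 * Real.pi * Complex.I / 5) ^ i.val := by
  unfold ctr
  rw [← Complex.exp_nat_mul]
  congr 1
  ring

theorem s_prim : IsPrimitiveRoot (Complex.exp (2 * Real.pi * Complex.I / 5)) 5 := by
  have := Complex.isPrimitiveRoot_exp 5 (by norm_num)
  simpa using this

theorem ctr_zero : ctr 0 = 1 := by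
  simp [ctr]

theorem ctr_add (i j : ZMod 5) : ctr (i + j) = ctr i * ctr j := by
  rw [s_pow, s_pow, s_pow, ← pow_add, ZMod.val_add]
  exact (pow_eq_pow_mod _ s_prim.pow_eq_one).symm

theorem norm_ctr (i : ZMod 5) : ‖ctr i‖ = 1 := by
  have e : ctr i = Complex.exp (((2 * Real.pi * (i.val : ℝ) / 5 : ℝ) : ℂ) * Complex.I) := by
    unfold ctr
    congr 1
    push_cast
    ring
  rw [e, Complex.norm_exp_ofReal_mul_I]

theorem ctr_mul_conj (i : ZMod 5) : ctr i * (starRingEnd ℂ) (ctr i) = 1 := by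
  rw [Complex.mul_conj, Complex.normSq_eq_norm_sq, norm_ctr]
  norm_num

theorem ctr_neg (i : ZMod 5) : ctr (-i) = (starRingEnd ℂ) (ctr i) := by
  have h1 : ctr i * ctr (-i) = 1 := by
    rw [← ctr_add, add_neg_cancel, ctr_zero]
  have h2 := ctr_mul_conj i
  have h0 : ctr i ≠ 0 := by
    intro h
    rw [h] at h1
    simp at h1
  apply mul_left_cancel₀ h0
  rw [h1, h2]

theorem ctr_pow_five (i : ZMod 5) : ctr i ^ 5 = 1 := by
  rw [s_pow, ← pow_mul, Nat.mul_comm, pow_mul, s_prim.pow_eq_one, one_pow]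

theorem ctr_injective : Function.Injective ctr := by
  intro i j h
  rw [s_pow, s_pow] at h
  exact ZMod.val_injective 5 (s_prim.pow_inj (ZMod.val_lt i) (ZMod.val_lt j) h)

theorem s_cos : Real.cos (2 * Real.pi / 5) = (Real.sqrt 5 - 1) / 4 := by
  have h1 : Real.cos (2 * Real.pi / 5) = 2 * Real.cos (Real.pi / 5) ^ 2 - 1 := by
    rw [← Real.cos_two_mul]
    congr 1
    ring
  rw [h1, Real.cos_pi_div_five]
  have h5 : Real.sqrt 5 ^ 2 = 5 := Real.sq_sqrt (by norm_num)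
  ring_nf
  rw [h5]
  ring

theorem s_sqrt : (2.2360 : ℝ) < Real.sqrt 5 ∧ Real.sqrt 5 < 2.23607 := by
  constructor
  · rw [Real.lt_sqrt (by norm_num)]
    norm_num
  · rw [Real.sqrt_lt' (by norm_num)]
    norm_num

theorem s_one : ctr 1 = Complex.exp (((2 * Real.pi / 5 : ℝ) : ℂ) * Complex.I) := by
  unfold ctr
  have : (1 : ZMod 5).val = 1 := rfl
  rw [this]
  congr 1
  push_cast
  ring

theorem s_re1 : (ctr 1).re = (Real.sqrt 5 - 1) / 4 := by
  rw [s_one, Complex.exp_ofReal_mul_I_re, s_cos]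

theorem s_im1 : (ctr 1).im = Real.sin (2 * Real.pi / 5) := by
  rw [s_one, Complex.exp_ofReal_mul_I_im]

theorem s_two : ctr 2 = ctr 1 * ctr 1 := by
  rw [← ctr_add]
  rfl

theorem s_sq : (ctr 1).re ^ 2 + (ctr 1).im ^ 2 = 1 := by
  have h := ctr_mul_conj 1
  have h2 := congrArg Complex.re h
  simp only [Complex.mul_re, Complex.conj_re, Complex.conj_im, Complex.one_re] at h2
  linarith

theorem s_impos : 0 < (ctr 1).im := by
  rw [s_im1]
  apply Real.sin_pos_of_pos_of_lt_pi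
  · positivity
  · linarith [Real.pi_pos]

theorem s_re2 : (ctr 2).re = -(1 + Real.sqrt 5) / 4 := by
  have h5 : Real.sqrt 5 ^ 2 = 5 := Real.sq_sqrt (by norm_num)
  have h := s_sq
  rw [s_two, Complex.mul_re]
  rw [s_re1] at h ⊢
  nlinarith

theorem s_im2 : (ctr 2).im = 2 * (ctr 1).re * (ctr 1).im := by
  rw [s_two, Complex.mul_im]
  ring

theorem ctr_one_bounds : 309 / 1000 < (ctr 1).re ∧ (ctr 1).re < 3091 / 10000 ∧
    951 / 1000 < (ctr 1).im ∧ (ctr 1).im < 9511 / 10000 := by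
  obtain ⟨h1, h2⟩ := s_sqrt
  have a1 : 309 / 1000 < (ctr 1).re := by
    rw [s_re1]; linarith
  have a2 : (ctr 1).re < 3091 / 10000 := by
    rw [s_re1]; linarith
  have h := s_sq
  have hp := s_impos
  refine ⟨a1, a2, ?_, ?_⟩
  · nlinarith
  · nlinarith

theorem ctr_two_bounds : -8091 / 10000 < (ctr 2).re ∧ (ctr 2).re < -809 / 1000 ∧
    5877 / 10000 < (ctr 2).im ∧ (ctr 2).im < 5879 / 10000 := by
  obtain ⟨h1, h2⟩ := s_sqrt
  obtain ⟨b1, b2, b3, b4⟩ := ctr_one_bounds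
  have hre : (ctr 1).re < 3090175 / 10000000 := by
    rw [s_re1]; linarith
  refine ⟨?_, ?_, ?_, ?_⟩
  · rw [s_re2]; linarith
  · rw [s_re2]; linarith
  · rw [s_im2]; nlinarith
  · rw [s_im2]; nlinarith

/-- `re (ctr i * conj (ctr j))` for `i ≠ j` -/
theorem ctr_re_le (i j : ZMod 5) (h : i ≠ j) :
    (ctr i * (starRingEnd ℂ) (ctr j)).re < 3091 / 10000 := by
  rw [← ctr_neg, ← ctr_add]
  have hk : i + -j ≠ 0 := by
    intro h0
    apply h
    rw [← sub_eq_add_neg] at h0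
    exact sub_eq_zero.mp h0
  obtain ⟨b1, b2, b3, b4⟩ := ctr_one_bounds
  obtain ⟨c1, c2, c3, c4⟩ := ctr_two_bounds
  generalize i + -j = k at hk
  have h3 : (ctr 3).re = (ctr 2).re := by
    have : (3 : ZMod 5) = -2 := rfl
    rw [this, ctr_neg, Complex.conj_re]
  have h4 : (ctr 4).re = (ctr 1).re := by
    have : (4 : ZMod 5) = -1 := rfl
    rw [this, ctr_neg, Complex.conj_re]
  have hc : k = 0 ∨ k = 1 ∨ k = 2 ∨ k = 3 ∨ k = 4 := by
    revert k
    decide
  rcases hc with rfl | rfl | rfl | rfl | rfl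
  · exact absurd rfl hk
  · exact b2
  · linarith
  · rw [h3]; linarith
  · rw [h4]; exact b2

theorem ctr_one_two_re : (ctr 1).re + (ctr 2).re = -1 / 2 := by
  rw [s_re1, s_re2]
  ring

end
end Pool.Agent.Helper328.MT
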