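import Mathlib
import Pool.Agent.Helper328.MT.Geo1
import Pool.Agent.Helper328.MT.Cov0

/-! Mapping class groups of planar surfaces: the definitions. -/

set_option autoImplicit false
open scoped ContDiff Topology unitInterval
open Set Filter

namespace Pool.Agent.Helper328.MT
noncomputable section

/-! ### Diffeomorphisms and isotopies of a planar surface `S ⊆ ℂ` -/

instance (S : Set ℂ) : (Diff0 S).Normal := Subgroup.normalClosure_normal

/-! ### Circles -/

/-! ### Dehn twists and multi-twists -/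

/-! ### The Nielsen–Thurston trichotomy -/

/-! ### The question -/

/-! ### The surface of the counterexample -/

theorem hp_nsq (w : ℂ) : ‖w‖ ^ 2 = w.re ^ 2 + w.im ^ 2 := by
  rw [Complex.sq_norm, Complex.normSq_apply]; ring

theorem hp_one : (ctr 1).re ^ 2 + (ctr 1).im ^ 2 = 1 := by
  rw [← hp_nsq, norm_ctr]; norm_num

theorem hp_two : (ctr 2).re = (ctr 1).re ^ 2 - (ctr 1).im ^ 2 ∧
    (ctr 2).im = 2 * (ctr 1).re * (ctr 1).im := by
  have h : ctr 2 = ctr 1 * ctr 1 := by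
    rw [← ctr_add]; rfl
  rw [h, Complex.mul_re, Complex.mul_im]
  constructor <;> ring

theorem hp_three : ctr 3 = (starRingEnd ℂ) (ctr 2) := by
  rw [← ctr_neg]; rfl

theorem hp_four : ctr 4 = (starRingEnd ℂ) (ctr 1) := by
  rw [← ctr_neg]; rfl

theorem hp_re (w : ℂ) : ((3 / 5 : ℂ) * w).re = 3 / 5 * w.re := by
  have : (3 / 5 : ℂ) = ((3 / 5 : ℝ) : ℂ) := by push_cast; rfl
  rw [this, Complex.re_ofReal_mul]

theorem hp_im (w : ℂ) : ((3 / 5 : ℂ) * w).im = 3 / 5 * w.im := by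
  have : (3 / 5 : ℂ) = ((3 / 5 : ℝ) : ℂ) := by push_cast; rfl
  rw [this, Complex.im_ofReal_mul]

theorem hp_cen (i : ZMod 5) : cen i = ctr i * ((3 / 5) * (1 + ctr 1)) := by
  unfold cen
  rw [ctr_add]; ring

theorem hp_cen_norm (i : ZMod 5) : ‖cen i‖ ^ 2 = 9 / 25 * (2 + 2 * (ctr 1).re) := by
  rw [hp_cen, norm_mul, norm_ctr, one_mul, hp_nsq, hp_re, hp_im, Complex.add_re, Complex.add_im,
    Complex.one_re, Complex.one_im]
  have := hp_one
  nlinarith

theorem hp_sub (i k : ZMod 5) : ‖ctr (i + k) - cen i‖ ^ 2 =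
    ((ctr k).re - 3 / 5 * (1 + (ctr 1).re)) ^ 2 + ((ctr k).im - 3 / 5 * (ctr 1).im) ^ 2 := by
  have h : ctr (i + k) - cen i = ctr i * (ctr k - (3 / 5) * (1 + ctr 1)) := by
    rw [ctr_add, hp_cen]; ring
  rw [h, norm_mul, norm_ctr, one_mul, hp_nsq, Complex.sub_re, Complex.sub_im, hp_re, hp_im,
    Complex.add_re, Complex.add_im, Complex.one_re, Complex.one_im]
  ring

/-- the punctures `i`, `i+1` are inside -/
theorem ctr_sub_cen (i j : ZMod 5) (h : j = i ∨ j = i + 1) : ‖ctr j - cen i‖ < 62 / 100 := by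
  have h1 := hp_one
  obtain ⟨b1, b2, b3, b4⟩ := ctr_one_bounds
  have key : ‖ctr j - cen i‖ ^ 2 = 13 / 25 - 12 / 25 * (ctr 1).re := by
    rcases h with h | h
    · have := hp_sub i 0
      rw [add_zero, ctr_zero, Complex.one_re, Complex.one_im] at this
      rw [h, this]
      nlinarith
    · have := hp_sub i 1
      rw [h, this]
      nlinarith
  have hlt : ‖ctr j - cen i‖ ^ 2 < (62 / 100) ^ 2 := by
    rw [key]; norm_num; linarith
  exact lt_of_pow_lt_pow_left₀ 2 (by norm_num) hlt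

/-- the others are outside -/
theorem lt_ctr_sub_cen (i j : ZMod 5) (h : j ≠ i) (h' : j ≠ i + 1) : 1 < ‖ctr j - cen i‖ := by
  have h1 := hp_one
  obtain ⟨b1, b2, b3, b4⟩ := ctr_one_bounds
  have h12 := ctr_one_two_re
  obtain ⟨e1, e2⟩ := hp_two
  obtain ⟨k, rfl⟩ : ∃ k, j = i + k := ⟨j - i, by ring⟩
  have hk0 : k ≠ 0 := by rintro rfl; exact h (add_zero i)
  have hk1 : k ≠ 1 := by rintro rfl; exact h' rfl
  have hk : k = 2 ∨ k = 3 ∨ k = 4 := by
    have hall : ∀ k : ZMod 5, k ≠ 0 → k ≠ 1 → k = 2 ∨ k = 3 ∨ k = 4 := by decide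
    exact hall k hk0 hk1
  have hgt : (1:ℝ) ^ 2 < ‖ctr (i + k) - cen i‖ ^ 2 := by
    rw [hp_sub]
    have key : ∀ a b : ℝ, a ^ 2 + b ^ 2 = 1 → a + (a * (ctr 1).re + b * (ctr 1).im) ≤ 0 →
        (1:ℝ) ^ 2 < (a - 3 / 5 * (1 + (ctr 1).re)) ^ 2 + (b - 3 / 5 * (ctr 1).im) ^ 2 := by
      intro a b hab hle
      have : (a - 3 / 5 * (1 + (ctr 1).re)) ^ 2 + (b - 3 / 5 * (ctr 1).im) ^ 2 =
          (a ^ 2 + b ^ 2) - 6 / 5 * (a + (a * (ctr 1).re + b * (ctr 1).im)) +
          9 / 25 * (1 + 2 * (ctr 1).re + ((ctr 1).re ^ 2 + (ctr 1).im ^ 2)) := by ring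
      rw [this, hab, h1]
      linarith
    have hn2 : (ctr 2).re ^ 2 + (ctr 2).im ^ 2 = 1 := by rw [← hp_nsq, norm_ctr]; norm_num
    rcases hk with rfl | rfl | rfl
    · apply key _ _ hn2
      have : (ctr 2).re * (ctr 1).re + (ctr 2).im * (ctr 1).im =
          (ctr 1).re * ((ctr 1).re ^ 2 + (ctr 1).im ^ 2) := by
        rw [e1, e2]; ring
      rw [this, h1]
      linarith
    · rw [hp_three, Complex.conj_re, Complex.conj_im]
      apply key _ _ (by rw [neg_sq]; exact hn2)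
      have h4 := ctr_two_bounds
      have : (ctr 2).re * (ctr 1).re + -(ctr 2).im * (ctr 1).im ≤ 0 := by
        have p1 : (ctr 2).re * (ctr 1).re ≤ 0 :=
          mul_nonpos_of_nonpos_of_nonneg (by linarith) (by linarith)
        have p2 : 0 ≤ (ctr 2).im * (ctr 1).im := mul_nonneg (by linarith) (by linarith)
        linarith
      linarith
    · rw [hp_four, Complex.conj_re, Complex.conj_im]
      apply key _ _ (by rw [neg_sq]; exact h1)
      have : (ctr 1).re * (ctr 1).re + -(ctr 1).im * (ctr 1).im = (ctr 2).re := by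
        rw [e1]; ring
      rw [this]
      linarith
  exact lt_of_pow_lt_pow_left₀ 2 (norm_nonneg _) hgt

theorem cen_mul (i : ZMod 5) : ctr 2 * cen i = cen (i + 2) := by
  rw [hp_cen, hp_cen, ctr_add]; ring

theorem cen_sub_cen (i : ZMod 5) : 18 / 10 < ‖cen i - cen (i + 2)‖ := by
  obtain ⟨b1, b2, b3, b4⟩ := ctr_one_bounds
  obtain ⟨d1, d2, d3, d4⟩ := ctr_two_bounds
  have hn2 : (ctr 2).re ^ 2 + (ctr 2).im ^ 2 = 1 := by rw [← hp_nsq, norm_ctr]; norm_num
  have h : cen i - cen (i + 2) = (1 - ctr 2) * cen i := by rw [← cen_mul]; ring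
  have hsq : ‖cen i - cen (i + 2)‖ ^ 2 = (2 - 2 * (ctr 2).re) * (9 / 25 * (2 + 2 * (ctr 1).re)) := by
    rw [h, norm_mul, mul_pow, hp_cen_norm, hp_nsq, Complex.sub_re, Complex.sub_im, Complex.one_re,
      Complex.one_im]
    congr 1
    nlinarith
  have hgt : (18 / 10 : ℝ) ^ 2 < ‖cen i - cen (i + 2)‖ ^ 2 := by
    rw [hsq]
    have p1 : (3618 / 1000 : ℝ) < 2 - 2 * (ctr 2).re := by linarith
    have p2 : (942 / 1000 : ℝ) < 9 / 25 * (2 + 2 * (ctr 1).re) := by linarith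
    have := mul_lt_mul'' p1 p2 (by norm_num) (by norm_num)
    norm_num at this ⊢
    linarith
  exact lt_of_pow_lt_pow_left₀ 2 (norm_nonneg _) hgt

/-- the annulus `3/4 - 1/100 < ‖z - cen i‖ < 17/20 + 1/100` lies in the interior of the surface -/
theorem annulus_sub (i : ZMod 5) (z : ℂ) (h1 : 74 / 100 < ‖z - cen i‖) (h2 : ‖z - cen i‖ < 86 / 100) :
    ‖z‖ < 2 ∧ ∀ j, 1 / 10 < ‖z - ctr j‖ := by
  obtain ⟨b1, b2, b3, b4⟩ := ctr_one_bounds
  have hc : ‖cen i‖ < 98 / 100 := by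
    have : ‖cen i‖ ^ 2 < (98 / 100) ^ 2 := by
      rw [hp_cen_norm]; norm_num; linarith
    exact lt_of_pow_lt_pow_left₀ 2 (by norm_num) this
  constructor
  · have : ‖z‖ ≤ ‖z - cen i‖ + ‖cen i‖ := by
      calc ‖z‖ = ‖(z - cen i) + cen i‖ := by rw [sub_add_cancel]
        _ ≤ _ := norm_add_le _ _
    linarith
  · intro j
    by_cases hj : j = i ∨ j = i + 1
    · have h3 := ctr_sub_cen i j hj
      have : ‖z - cen i‖ ≤ ‖z - ctr j‖ + ‖ctr j - cen i‖ := by
        calc ‖z - cen i‖ = ‖(z - ctr j) + (ctr j - cen i)‖ := by congr 1; ring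
          _ ≤ _ := norm_add_le _ _
      linarith
    · push Not at hj
      have h3 := lt_ctr_sub_cen i j hj.1 hj.2
      have : ‖ctr j - cen i‖ ≤ ‖z - ctr j‖ + ‖z - cen i‖ := by
        calc ‖ctr j - cen i‖ = ‖(z - cen i) - (z - ctr j)‖ := by congr 1; ring
          _ ≤ ‖z - cen i‖ + ‖z - ctr j‖ := norm_sub_le _ _
          _ = _ := add_comm _ _
      linarith

end
end Pool.Agent.Helper328.MT
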