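import Mathlib
import Pool.Agent.Helper328.MT.Cov0
import Pool.Agent.Helper328.MT.Geo1
set_option autoImplicit false
open scoped ContDiff Topology unitInterval
open Set Filter

namespace Pool.Agent.Helper328.MT
noncomputable section

theorem normSq_eq (i : ZMod 5) (z : ℂ) : ‖z‖ ^ 2 = cre i z ^ 2 + cim i z ^ 2 := by
  have h1 : ‖z * (starRingEnd ℂ) (ctr i)‖ = ‖z‖ := by
    rw [norm_mul, RCLike.norm_conj, norm_ctr, mul_one]
  rw [← h1, ← Complex.normSq_eq_norm_sq, Complex.normSq_apply]
  unfold cre cim
  ring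
theorem V_disjoint (i j : ZMod 5) (h : i ≠ j) : Disjoint (V i) (V j) := by
  rw [Set.disjoint_left]
  intro z hi hj
  change 2 * |cim i z| < cre i z - 1 at hi
  change 2 * |cim j z| < cre j z - 1 at hj
  have hN1 := normSq_eq i z
  have hN2 := normSq_eq j z
  have hre := ctr_re_le j i (Ne.symm h)
  have key : cre i z * cre j z + cim i z * cim j z =
      ‖(z : ℂ)‖ ^ 2 * (ctr j * (starRingEnd ℂ) (ctr i)).re := by
    rw [← Complex.normSq_eq_norm_sq, Complex.normSq_apply]
    unfold cre cim
    simp only [Complex.mul_re, Complex.mul_im, Complex.conj_re, Complex.conj_im]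
    ring
  have hb0 := abs_nonneg (cim i z)
  have hd0 := abs_nonneg (cim j z)
  have hb1 := sq_abs (cim i z)
  have hd1 := sq_abs (cim j z)
  have hbd : -(|cim i z| * |cim j z|) ≤ cim i z * cim j z := by
    rw [← abs_mul]; exact neg_abs_le _
  set a := cre i z
  set b := |cim i z|
  set c := cre j z
  set d := |cim j z|
  set N := ‖(z : ℂ)‖ ^ 2
  have ha : 1 < a := by linarith
  have hc : 1 < c := by linarith
  have hb2 : b ≤ a / 2 := by linarith
  have hd2 : d ≤ c / 2 := by linarith
  have hbd2 : b * d ≤ (a / 2) * (c / 2) := mul_le_mul hb2 hd2 hd0 (by linarith)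
  have hbb : b * b ≤ (a / 2) * (a / 2) := mul_le_mul hb2 hb2 hb0 (by linarith)
  have hdd : d * d ≤ (c / 2) * (c / 2) := mul_le_mul hd2 hd2 hd0 (by linarith)
  have hNa : N ≤ 5 / 4 * (a * a) := by nlinarith
  have hNc : N ≤ 5 / 4 * (c * c) := by nlinarith
  have hNpos : 0 < N := by nlinarith
  have hNac : N ≤ 5 / 4 * (a * c) := by
    by_contra hcon
    push Not at hcon
    have hac : 0 < a * c := mul_pos (by linarith) (by linarith)
    have h1 : (5 / 4 * (a * c)) * (5 / 4 * (a * c)) < N * N :=
      mul_lt_mul'' hcon hcon (by positivity) (by positivity)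
    have h2 : N * N ≤ (5 / 4 * (a * a)) * (5 / 4 * (c * c)) :=
      mul_le_mul hNa hNc hNpos.le (by positivity)
    nlinarith
  have hlow : 3 / 5 * N ≤ N * (ctr j * (starRingEnd ℂ) (ctr i)).re := by
    rw [← key]
    nlinarith
  have hup : N * (ctr j * (starRingEnd ℂ) (ctr i)).re < N * (3091 / 10000) :=
    mul_lt_mul_of_pos_left hre hNpos
  nlinarith
theorem continuous_cre (i : ZMod 5) : Continuous (fun z : X => cre i z) := by
  unfold cre
  exact Complex.continuous_re.comp (continuous_subtype_val.mul continuous_const)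
theorem continuous_cim (i : ZMod 5) : Continuous (fun z : X => cim i z) := by
  unfold cim
  exact Complex.continuous_im.comp (continuous_subtype_val.mul continuous_const)
theorem isOpen_U0 : IsOpen U0 := by
  have h1 : U0 = ⋂ i, {z : X | cim i z = 0 ∧ 1 ≤ cre i z}ᶜ := by
    ext z
    simp only [U0, Set.mem_setOf_eq, Set.mem_iInter, Set.mem_compl_iff, not_and, not_le]
  rw [h1]
  refine isOpen_iInter_of_finite (fun i => ?_)
  rw [isOpen_compl_iff]
  have h2 : {z : X | cim i z = 0 ∧ 1 ≤ cre i z} = {z : X | cim i z = 0} ∩ {z : X | 1 ≤ cre i z} := rfl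
  rw [h2]
  exact (isClosed_eq (continuous_cim i) continuous_const).inter
    (isClosed_le continuous_const (continuous_cre i))
theorem isOpen_V (i : ZMod 5) : IsOpen (V i) := by
  exact isOpen_lt (continuous_const.mul (continuous_cim i).abs)
    ((continuous_cre i).sub continuous_const)
/-- the sets `U0`, `V i` cover `X` -/
theorem cover (z : X) : z ∈ U0 ∨ ∃ i, z ∈ V i ∧ cim i z = 0 := by
  by_cases hz : z ∈ U0
  · exact Or.inl hz
  · right
    have hz' : ∃ i, cim i z = 0 ∧ 1 ≤ cre i z := by
      by_contra hcon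
      apply hz
      intro i hi
      by_contra h1
      exact hcon ⟨i, hi, not_lt.mp h1⟩
    obtain ⟨i, h0, h1⟩ := hz'
    refine ⟨i, ?_, h0⟩
    change 2 * |cim i z| < cre i z - 1
    rw [h0, abs_zero, mul_zero]
    rcases lt_or_eq_of_le h1 with h2 | h2
    · linarith
    · exfalso
      apply z.2 i
      have h3 : (z : ℂ) * (starRingEnd ℂ) (ctr i) = 1 := by
        apply Complex.ext
        · rw [Complex.one_re]; exact h2.symm
        · rw [Complex.one_im]; exact h0
      calc (z : ℂ) = (z : ℂ) * (ctr i * (starRingEnd ℂ) (ctr i)) := by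
            rw [ctr_mul_conj, mul_one]
        _ = ((z : ℂ) * (starRingEnd ℂ) (ctr i)) * ctr i := by ring
        _ = ctr i := by rw [h3, one_mul]
/-- inside `V i`, the set `U0` is `cim i ≠ 0` -/
theorem mem_U0_of_mem_V (i : ZMod 5) (z : X) (h : z ∈ V i) : z ∈ U0 ↔ cim i z ≠ 0 := by
  constructor
  · intro hz h0
    have h1 := hz i h0
    change 2 * |cim i z| < cre i z - 1 at h
    rw [h0, abs_zero, mul_zero] at h
    linarith
  · intro h0
    rcases cover z with h1 | ⟨j, hj, hj0⟩
    · exact h1
    · exfalso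
      have hij : i ≠ j := by
        intro hij
        rw [hij] at h0
        exact h0 hj0
      exact (Set.disjoint_left.mp (V_disjoint i j hij)) h hj

end
end Pool.Agent.Helper328.MT
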