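import Mathlib
import Pool.Agent.Helper328.MT.Geo2
set_option autoImplicit false
open scoped ContDiff Topology unitInterval
open Set Filter

namespace Pool.Agent.Helper328.MT
noncomputable section

theorem trans_smul (C : Cov) (e e' : C.E) (h : C.π e = C.π e') : ∃ w : G, e' = w • e := by
  rcases cover (C.π e) with hU | ⟨i, hV, -⟩
  · refine ⟨C.κ0 e' * (C.κ0 e)⁻¹, C.ext0 _ _ (h ▸ hU) ?_ ?_⟩
    · rw [C.π_smul, h]
    · rw [C.κ0_smul _ _ hU, inv_mul_cancel_right]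
  · refine ⟨C.κ i e' * (C.κ i e)⁻¹, C.exti i _ _ (h ▸ hV) ?_ ?_⟩
    · rw [C.π_smul, h]
    · rw [C.κ_smul i _ _ hV, inv_mul_cancel_right]

theorem smul_right_cancel' (C : Cov) (e : C.E) (w w' : G) (h : w • e = w' • e) : w = w' := by
  rcases cover (C.π e) with hU | ⟨i, hV, -⟩
  · have h1 := congrArg C.κ0 h
    rw [C.κ0_smul _ _ hU, C.κ0_smul _ _ hU] at h1
    exact mul_right_cancel h1
  · have h1 := congrArg (C.κ i) h
    rw [C.κ_smul i _ _ hV, C.κ_smul i _ _ hV] at h1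
    exact mul_right_cancel h1

theorem crossing_const {Y : Type} (f : ℝ → Y) (a b : ℝ)
    (h : ∀ t ∈ Ioo a b, ∀ᶠ t' in 𝓝 t, f t' = f t) : ∀ s ∈ Ioo a b, ∀ t ∈ Ioo a b, f s = f t := by
  letI : TopologicalSpace Y := ⊥
  haveI : DiscreteTopology Y := ⟨rfl⟩
  intro s hs t ht
  refine (isPreconnected_Ioo : IsPreconnected (Ioo a b)).constant (f := f) ?_ hs ht
  intro u hu
  have h1 : ContinuousAt f u :=
    continuousAt_const.congr ((h u hu).mono fun t' ht' => ht'.symm)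
  exact h1.continuousWithinAt

/-- crossing the `i`-th ray counterclockwise between the times `a < t₀ < b` -/
theorem crossing (C : Cov) (i : ZMod 5) (g : ℝ → C.E) (hg : Continuous g) (a t₀ b : ℝ)
    (h1 : a < t₀) (h2 : t₀ < b) (hU : ∀ t, a < t → t < b → t ≠ t₀ → C.π (g t) ∈ U0)
    (hV : C.π (g t₀) ∈ V i) (hn : ∀ t, a < t → t < t₀ → C.π (g t) ∈ V i → cim i (C.π (g t)) < 0)
    (hp : ∀ t, t₀ < t → t < b → C.π (g t) ∈ V i → 0 < cim i (C.π (g t))) (s t : ℝ)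
    (hs : a < s) (hs' : s < t₀) (ht : t₀ < t) (ht' : t < b) :
    C.κ0 (g t) = C.κ0 (g s) * FreeGroup.of i := by
  have hloc : ∀ u, a < u → u < b → u ≠ t₀ → ∀ᶠ t' in 𝓝 u, C.κ0 (g t') = C.κ0 (g u) :=
    fun u h1 h2 h3 => (hg.tendsto u).eventually (C.κ0_cont (g u) (hU u h1 h2 h3))
  have hcs : ∀ u ∈ Ioo a t₀, ∀ v ∈ Ioo a t₀, C.κ0 (g u) = C.κ0 (g v) :=
    crossing_const (fun t => C.κ0 (g t)) a t₀
      (fun u hu => hloc u hu.1 (hu.2.trans h2) hu.2.ne)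
  have hct : ∀ u ∈ Ioo t₀ b, ∀ v ∈ Ioo t₀ b, C.κ0 (g u) = C.κ0 (g v) :=
    crossing_const (fun t => C.κ0 (g t)) t₀ b
      (fun u hu => hloc u (h1.trans hu.1) hu.2 hu.1.ne')
  have hκ : ∀ᶠ t' in 𝓝 t₀, C.κ i (g t') = C.κ i (g t₀) :=
    (hg.tendsto t₀).eventually (C.κ_cont i (g t₀) hV)
  have hπ : ∀ᶠ t' in 𝓝 t₀, C.π (g t') ∈ V i :=
    ((C.cov.continuous.comp hg).tendsto t₀).eventually ((isOpen_V i).mem_nhds hV)
  have hboth := hκ.and hπ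
  obtain ⟨s', ⟨hs1, hs2⟩, hs3⟩ := ((hboth.filter_mono (nhdsWithin_le_nhds (s := Iio t₀))).and
    (Ioo_mem_nhdsLT h1)).exists
  obtain ⟨t', ⟨ht1, ht2⟩, ht3⟩ := ((hboth.filter_mono (nhdsWithin_le_nhds (s := Ioi t₀))).and
    (Ioo_mem_nhdsGT h2)).exists
  have e1 := C.rel_neg i (g s') hs2 (hn s' hs3.1 hs3.2 hs2)
  have e2 := C.rel_pos i (g t') ht2 (hp t' ht3.1 ht3.2 ht2)
  rw [hct t ⟨ht, ht'⟩ t' ht3, hcs s ⟨hs, hs'⟩ s' hs3, ← e2, ← e1, ht1, hs1]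

end
end Pool.Agent.Helper328.MT
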