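import Mathlib
import Pool.Agent.Helper328.MT.TS
set_option autoImplicit false
open scoped ContDiff Topology unitInterval
open Set Filter

namespace Pool.Agent.Helper328.MT
noncomputable section

theorem mtcode_norm (i : ZMod 5) : ‖ctr i‖ = 1 := by
  unfold ctr
  have : (2 * Real.pi * Complex.I * (i.val : ℂ) / 5 : ℂ) = ((2 * Real.pi * (i.val : ℝ) / 5 : ℝ) : ℂ) * Complex.I := by
    push_cast; ring
  rw [this, Complex.norm_exp_ofReal_mul_I]

theorem mtcode_surj (C : Cov) (z : X) : ∃ e, C.π e = z := by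
  by_cases h : z ∈ U0
  · obtain ⟨e, he, _⟩ := C.ex0 z h 1
    exact ⟨e, he⟩
  · have h2 : ∃ i, cim i (z : ℂ) = 0 ∧ 1 ≤ cre i (z : ℂ) := by
      by_contra hc
      push Not at hc
      exact h hc
    obtain ⟨i, hi, hi2⟩ := h2
    have h3 : cre i (z : ℂ) ≠ 1 := by
      intro h4
      have h5 : (z : ℂ) * (starRingEnd ℂ) (ctr i) = 1 := by
        apply Complex.ext
        · exact h4
        · exact hi
      have h6 : (starRingEnd ℂ) (ctr i) * ctr i = 1 := by
        rw [← Complex.normSq_eq_conj_mul_self, Complex.normSq_eq_norm_sq, mtcode_norm]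
        simp
      apply z.2 i
      calc (z : ℂ) = z * ((starRingEnd ℂ) (ctr i) * ctr i) := by rw [h6, mul_one]
        _ = (z * (starRingEnd ℂ) (ctr i)) * ctr i := by ring
        _ = ctr i := by rw [h5, one_mul]
    have h7 : z ∈ V i := by
      change 2 * |cim i (z : ℂ)| < cre i (z : ℂ) - 1
      rw [hi, abs_zero]
      have := lt_of_le_of_ne hi2 (Ne.symm h3)
      linarith
    obtain ⟨e, he, _⟩ := C.exi i z h7 1
    exact ⟨e, he⟩

theorem exists_code (C : Cov) (γ : ℝ → X) (hc : Continuous γ) (hp : ∀ t, γ (t + 1) = γ t) :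
    ∃ w, HasCode C γ w := by
  obtain ⟨e₀, he₀⟩ := mtcode_surj C (γ 0)
  obtain ⟨g, ⟨hg0, hg⟩, _⟩ := C.cov.existsUnique_continuousMap_lifts (⟨γ, hc⟩ : C(ℝ, X)) 0 e₀ he₀
  have hgt : ∀ t, C.π (g t) = γ t := fun t => congr_fun hg t
  obtain ⟨w, hw⟩ := trans_smul C (g 0) (g 1) (by
    rw [hgt, hgt, ← hp 0, zero_add])
  refine ⟨w, g, g.continuous, hgt, ?_⟩
  have : (fun t : ℝ => g (t + 1)) = fun t => w • g t := by
    refine C.cov.eq_of_comp_eq (g.continuous.comp (continuous_add_const 1))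
      ((C.smul_cont w).comp g.continuous) ?_ 0 ?_
    · funext t
      simp only [Function.comp]
      rw [hgt, C.π_smul, hgt, hp]
    · simp only [zero_add]
      exact hw
  exact fun t => congr_fun this t

theorem code_isConj (C : Cov) (γ : ℝ → X) (w w' : G) (h : HasCode C γ w) (h' : HasCode C γ w') :
    IsConj w w' := by
  obtain ⟨g, gc, gπ, gw⟩ := h
  obtain ⟨g', gc', gπ', gw'⟩ := h'
  obtain ⟨u, hu⟩ := trans_smul C (g 0) (g' 0) (by rw [gπ, gπ'])
  have heq : g' = fun t => u • g t := by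
    refine C.cov.eq_of_comp_eq gc' ((C.smul_cont u).comp gc) ?_ 0 hu
    funext t
    simp only [Function.comp]
    rw [gπ', C.π_smul, gπ]
  have h1 := gw' 0
  rw [heq] at h1
  simp only at h1
  rw [gw 0, smul_smul, smul_smul] at h1
  have h2 := smul_right_cancel' C _ _ _ h1
  rw [isConj_iff]
  exact ⟨u, by rw [h2]; group⟩

theorem code_of_isConj (C : Cov) (γ : ℝ → X) (w w' : G) (h : HasCode C γ w) (h' : IsConj w w') :
    HasCode C γ w' := by
  obtain ⟨g, gc, gπ, gw⟩ := h
  rw [isConj_iff] at h'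
  obtain ⟨c, rfl⟩ := h'
  refine ⟨fun t => c • g t, (C.smul_cont c).comp gc, fun t => by rw [C.π_smul, gπ], fun t => ?_⟩
  simp only [gw t, smul_smul]
  group

theorem code_homotopy (C : Cov) (H : I × ℝ → X) (hc : Continuous H)
    (hp : ∀ s t, H (s, t + 1) = H (s, t)) (w : G) (h : HasCode C (fun t => H (0, t)) w) :
    HasCode C (fun t => H (1, t)) w := by
  obtain ⟨g, gc, gπ, gw⟩ := h
  let Hc : C(I × ℝ, X) := ⟨H, hc⟩
  let gC : C(ℝ, C.E) := ⟨g, gc⟩
  have H0 : ∀ a, Hc (0, a) = C.π (gC a) := fun a => (gπ a).symm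
  set K := C.cov.liftHomotopy Hc gC H0 with hK
  have hK1 : ∀ p, C.π (K p) = H p := fun p => congr_fun (C.cov.liftHomotopy_lifts Hc gC H0) p
  have hK0 : ∀ a, K (0, a) = g a := fun a => C.cov.liftHomotopy_zero Hc gC H0 a
  have heq : (fun p : I × ℝ => K (p.1, p.2 + 1)) = fun p => w • K p := by
    refine C.cov.eq_of_comp_eq (K.continuous.comp (by fun_prop))
      ((C.smul_cont w).comp K.continuous) ?_ (0, 0) ?_
    · funext p
      simp only [Function.comp]
      rw [hK1, C.π_smul, hK1, hp]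
    · simp only
      rw [hK0, hK0, gw]
  refine ⟨fun t => K (1, t), K.continuous.comp (by fun_prop), fun t => hK1 _, fun t => ?_⟩
  exact congr_fun heq (1, t)

/-- `k`-fold traversed loops -/
theorem code_zpow (C : Cov) (γ : ℝ → X) (hp : ∀ t, γ (t + 1) = γ t) (w : G)
    (h : HasCode C γ w) (k : ℤ) : HasCode C (fun t => γ (k * t)) (w ^ k) := by
  obtain ⟨g, gc, gπ, gw⟩ := h
  have key : ∀ (k : ℤ) (t : ℝ), g (t + k) = w ^ k • g t := by
    intro k
    induction k using Int.induction_on with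
    | zero => intro t; simp
    | succ i ih =>
      intro t
      have h1 : t + (((i : ℤ) + 1 : ℤ) : ℝ) = (t + ((i : ℤ) : ℝ)) + 1 := by push_cast; ring
      rw [h1, gw, ih, smul_smul]
      congr 1
      rw [add_comm, zpow_add, zpow_one]
    | pred i ih =>
      intro t
      have h1 : t + ((-(i : ℤ) : ℤ) : ℝ) = (t + ((-(i : ℤ) - 1 : ℤ) : ℝ)) + 1 := by push_cast; ring
      have h2 := ih t
      rw [h1, gw] at h2
      rw [← inv_smul_eq_iff] at h2
      have h3 : g (t + ((-(i : ℤ) - 1 : ℤ) : ℝ)) = w⁻¹ • (w ^ (-(i : ℤ)) • g t) := by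
        rw [← h2, smul_smul, smul_smul]
        rw [eq_comm, ← smul_smul, ← smul_smul]
        rw [smul_inv_smul, inv_smul_smul]
      rw [h3, smul_smul]
      congr 1
      rw [sub_eq_add_neg, add_comm, zpow_add, zpow_neg_one]
  refine ⟨fun t => g (k * t), gc.comp (by fun_prop), fun t => gπ _, fun t => ?_⟩
  have : (k : ℝ) * (t + 1) = k * t + k := by ring
  simp only [this]
  exact key k _

/-- the subset principle: if `F` is a locally constant equivariant function on the part of the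
covering over `Y` with values in `G ⧸ K` then the code of a loop in `Y` is conjugate into `K` -/
theorem code_mem_of_locConst (C : Cov) (Y : Set X) (K : Subgroup G) (F : C.E → G ⧸ K)
    (h1 : ∀ e, C.π e ∈ Y → ∀ᶠ e' in 𝓝 e, C.π e' ∈ Y → F e' = F e)
    (h2 : ∀ (h : G) (e : C.E), C.π e ∈ Y → F (h • e) = h • F e)
    (γ : ℝ → X) (hγ : ∀ t, γ t ∈ Y) (w : G) (h : HasCode C γ w) :
    ∃ u ∈ K, IsConj w u := by
  obtain ⟨g, gc, gπ, gw⟩ := h
  have hY : ∀ t, C.π (g t) ∈ Y := fun t => by rw [gπ]; exact hγ t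
  have hlc : IsLocallyConstant (fun t => F (g t)) := by
    rw [IsLocallyConstant.iff_eventually_eq]
    intro t
    have := (gc.tendsto t).eventually (h1 (g t) (hY t))
    exact this.mono (fun t' ht' => ht' (hY t'))
  have h3 : F (g 1) = F (g 0) := hlc.apply_eq_of_preconnectedSpace 1 0
  have h4 : g 1 = w • g 0 := by rw [← gw 0, zero_add]
  rw [h4, h2 _ _ (hY 0)] at h3
  obtain ⟨a, ha⟩ := QuotientGroup.mk_surjective (F (g 0))
  rw [← ha] at h3
  have h5 : ((w * a : G) : G ⧸ K) = (a : G ⧸ K) := h3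
  rw [eq_comm, QuotientGroup.eq] at h5
  refine ⟨a⁻¹ * (w * a), h5, ?_⟩
  rw [isConj_iff]
  exact ⟨a⁻¹, by group⟩

end
end Pool.Agent.Helper328.MT
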