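import Mathlib
import Pool.Agent.Helper328.MT.Code
set_option autoImplicit false
open scoped ContDiff Topology unitInterval
open Set Filter

namespace Pool.Agent.Helper328.MT
noncomputable section

theorem code_e_re (t : ℝ) :
    (Complex.exp (2 * Real.pi * Complex.I * t)).re = Real.cos (2 * Real.pi * t) := by
  have e : (2 * Real.pi * Complex.I * t : ℂ) = ((2 * Real.pi * t : ℝ) : ℂ) * Complex.I := by
    push_cast
    ring
  rw [e, Complex.exp_ofReal_mul_I_re]

theorem code_e_im (t : ℝ) :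
    (Complex.exp (2 * Real.pi * Complex.I * t)).im = Real.sin (2 * Real.pi * t) := by
  have e : (2 * Real.pi * Complex.I * t : ℂ) = ((2 * Real.pi * t : ℝ) : ℂ) * Complex.I := by
    push_cast
    ring
  rw [e, Complex.exp_ofReal_mul_I_im]

theorem code_e_norm (t : ℝ) : ‖Complex.exp (2 * Real.pi * Complex.I * t)‖ = 1 := by
  have e : (2 * Real.pi * Complex.I * t : ℂ) = ((2 * Real.pi * t : ℝ) : ℂ) * Complex.I := by
    push_cast
    ring
  rw [e, Complex.norm_exp_ofReal_mul_I]

theorem code_e_add_one (t : ℝ) : Complex.exp (2 * Real.pi * Complex.I * ((t + 1 : ℝ) : ℂ)) =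
    Complex.exp (2 * Real.pi * Complex.I * t) := by
  have e : (2 * Real.pi * Complex.I * ((t + 1 : ℝ) : ℂ) : ℂ) =
      2 * Real.pi * Complex.I * t + 2 * Real.pi * Complex.I := by
    push_cast
    ring
  rw [e, Complex.exp_add, Complex.exp_two_pi_mul_I, mul_one]

theorem code_e_cont : Continuous fun t : ℝ => Complex.exp (2 * Real.pi * Complex.I * t) :=
  Complex.continuous_exp.comp (continuous_const.mul Complex.continuous_ofReal)

/-- conclusion from the crossing computation -/
theorem code_concl (C : Cov) (γ : ℝ → X) (hc : Continuous γ) (hp : ∀ t, γ (t + 1) = γ t)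
    (t₀ : ℝ) (h0 : γ t₀ ∈ U0) (v : G)
    (hv : ∀ g : ℝ → C.E, Continuous g → (∀ t, C.π (g t) = γ t) →
      C.κ0 (g (t₀ + 1)) = C.κ0 (g t₀) * v) : HasCode C γ v := by
  obtain ⟨w, hw⟩ := exists_code C γ hc hp
  obtain ⟨g, hg, hg1, hg2⟩ := hw
  have h1 := hv g hg hg1
  rw [hg2, C.κ0_smul w (g t₀) (by rw [hg1]; exact h0)] at h1
  refine code_of_isConj C γ w v ⟨g, hg, hg1, hg2⟩ ?_
  rw [isConj_iff]
  refine ⟨(C.κ0 (g t₀))⁻¹, ?_⟩
  rw [inv_inv, mul_assoc, h1, inv_mul_cancel_left]

theorem code_inner_cre (i : ZMod 5) (t : ℝ) :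
    cre i (ctr i * (1 - Complex.exp (2 * Real.pi * Complex.I * t) / 10)) =
      1 - Real.cos (2 * Real.pi * t) / 10 := by
  unfold cre
  have e : ctr i * (1 - Complex.exp (2 * Real.pi * Complex.I * t) / 10) *
      (starRingEnd ℂ) (ctr i) = 1 - Complex.exp (2 * Real.pi * Complex.I * t) * ((1 / 10 : ℝ) : ℂ) := by
    have h := ctr_mul_conj i
    push_cast
    linear_combination (1 - Complex.exp (2 * Real.pi * Complex.I * t) / 10) * h
  rw [e, Complex.sub_re, Complex.re_mul_ofReal, code_e_re, Complex.one_re]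
  ring

theorem code_inner_cim (i : ZMod 5) (t : ℝ) :
    cim i (ctr i * (1 - Complex.exp (2 * Real.pi * Complex.I * t) / 10)) =
      -(Real.sin (2 * Real.pi * t) / 10) := by
  unfold cim
  have e : ctr i * (1 - Complex.exp (2 * Real.pi * Complex.I * t) / 10) *
      (starRingEnd ℂ) (ctr i) = 1 - Complex.exp (2 * Real.pi * Complex.I * t) * ((1 / 10 : ℝ) : ℂ) := by
    have h := ctr_mul_conj i
    push_cast
    linear_combination (1 - Complex.exp (2 * Real.pi * Complex.I * t) / 10) * h
  rw [e, Complex.sub_im, Complex.im_mul_ofReal, code_e_im, Complex.one_im]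
  ring

theorem code_inner_cre_ne (i j : ZMod 5) (hij : i ≠ j) (t : ℝ) :
    cre j (ctr i * (1 - Complex.exp (2 * Real.pi * Complex.I * t) / 10)) < 1 := by
  unfold cre
  have h1 := ctr_re_le i j hij
  have e : ctr i * (1 - Complex.exp (2 * Real.pi * Complex.I * t) / 10) *
      (starRingEnd ℂ) (ctr j) = ctr i * (starRingEnd ℂ) (ctr j) +
        (-(ctr i * (starRingEnd ℂ) (ctr j) * Complex.exp (2 * Real.pi * Complex.I * t))) *
          ((1 / 10 : ℝ) : ℂ) := by
    push_cast
    ring
  rw [e, Complex.add_re, Complex.re_mul_ofReal]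
  have h2 : (-(ctr i * (starRingEnd ℂ) (ctr j) *
      Complex.exp (2 * Real.pi * Complex.I * t))).re ≤ 1 := by
    refine (Complex.re_le_norm _).trans ?_
    rw [norm_neg, norm_mul, norm_mul, code_e_norm, norm_ctr, RCLike.norm_conj, norm_ctr]
    norm_num
  linarith

theorem code_cos_neg (t : ℝ) (h : Real.cos (2 * Real.pi * t) < 0) :
    ¬ (-(1 / 4) ≤ t ∧ t ≤ 1 / 4) := by
  rintro ⟨h1, h2⟩
  have hpi := Real.pi_pos
  have := Real.cos_nonneg_of_mem_Icc (x := 2 * Real.pi * t) ⟨by nlinarith, by nlinarith⟩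
  linarith

theorem code_shift_cos (t : ℝ) : Real.cos (2 * Real.pi * (t - 1)) = Real.cos (2 * Real.pi * t) := by
  have e : 2 * Real.pi * (t - 1) = 2 * Real.pi * t - 2 * Real.pi := by ring
  rw [e, Real.cos_sub_two_pi]

theorem code_shift_sin (t : ℝ) : Real.sin (2 * Real.pi * (t - 1)) = Real.sin (2 * Real.pi * t) := by
  have e : 2 * Real.pi * (t - 1) = 2 * Real.pi * t - 2 * Real.pi := by ring
  rw [e, Real.sin_sub_two_pi]

theorem code_sin_pos (t : ℝ) (h1 : 0 < t) (h2 : t < 1 / 2) : 0 < Real.sin (2 * Real.pi * t) := by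
  have hpi := Real.pi_pos
  exact Real.sin_pos_of_pos_of_lt_pi (by positivity) (by nlinarith)

theorem code_sin_neg (t : ℝ) (h1 : -(1 / 2) < t) (h2 : t < 0) :
    Real.sin (2 * Real.pi * t) < 0 := by
  have hpi := Real.pi_pos
  exact Real.sin_neg_of_neg_of_neg_pi_lt (by nlinarith) (by nlinarith)

theorem code_inner (C : Cov) (i : ZMod 5) (γ : ℝ → X)
    (h : ∀ t : ℝ, (γ t : ℂ) = ctr i * (1 - Complex.exp (2 * Real.pi * Complex.I * t) / 10)) :
    HasCode C γ (FreeGroup.of i) := by
  have hc : Continuous γ := by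
    rw [continuous_induced_rng]
    have e : (Subtype.val ∘ γ) = fun t : ℝ =>
        ctr i * (1 - Complex.exp (2 * Real.pi * Complex.I * t) / 10) := by
      funext t
      exact h t
    rw [e]
    exact continuous_const.mul (continuous_const.sub (code_e_cont.div_const _))
  have hp : ∀ t, γ (t + 1) = γ t := by
    intro t
    apply Subtype.ext
    rw [h, h, code_e_add_one]
  have hU : ∀ t : ℝ, (Real.sin (2 * Real.pi * t) = 0 → 0 < Real.cos (2 * Real.pi * t)) →
      γ t ∈ U0 := by
    intro t ht j hj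
    rw [h] at hj ⊢
    by_cases hij : i = j
    · subst hij
      rw [code_inner_cim] at hj
      rw [code_inner_cre]
      have := ht (by linarith)
      linarith
    · exact code_inner_cre_ne i j hij t
  have hU0 : γ 0 ∈ U0 := hU 0 (by simp)
  refine code_concl C γ hc hp 0 hU0 _ fun g hg hg1 => ?_
  have hVc : ∀ t, C.π (g t) ∈ V i → Real.cos (2 * Real.pi * t) < 0 := by
    intro t ht
    rw [hg1] at ht
    have h2 : 2 * |cim i (γ t)| < cre i (γ t) - 1 := ht
    rw [h, code_inner_cre] at h2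
    have := abs_nonneg (cim i (ctr i * (1 - Complex.exp (2 * Real.pi * Complex.I * t) / 10)))
    linarith
  have hcim : ∀ t, cim i (C.π (g t)) = -(Real.sin (2 * Real.pi * t) / 10) := by
    intro t
    rw [hg1, h, code_inner_cim]
  refine crossing C i g hg (-(1 / 4)) (1 / 2) (5 / 4) (by norm_num) (by norm_num) ?_ ?_ ?_ ?_
    0 (0 + 1) (by norm_num) (by norm_num) (by norm_num) (by norm_num)
  · intro t ha hb hne
    rw [hg1]
    refine hU t fun hs => ?_
    rcases lt_or_ge t 0 with h0 | h0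
    · have := code_sin_neg t (by linarith) h0
      linarith
    rcases eq_or_lt_of_le h0 with h0 | h0
    · rw [← h0]
      simp
    rcases lt_or_gt_of_ne hne with h1 | h1
    · have := code_sin_pos t h0 h1
      linarith
    rw [← code_shift_sin] at hs
    rw [← code_shift_cos]
    rcases lt_trichotomy t 1 with h2 | h2 | h2
    · have := code_sin_neg (t - 1) (by linarith) (by linarith)
      linarith
    · rw [h2]
      simp
    · have := code_sin_pos (t - 1) (by linarith) (by linarith)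
      linarith
  · rw [hg1]
    change 2 * |cim i (γ (1 / 2))| < cre i (γ (1 / 2)) - 1
    rw [h, code_inner_cre, code_inner_cim]
    have e : 2 * Real.pi * (1 / 2) = Real.pi := by ring
    rw [e, Real.sin_pi, Real.cos_pi]
    norm_num
  · intro t ha hb hV
    rw [hcim]
    have h1 := code_cos_neg t (hVc t hV)
    have h2 : 1 / 4 < t := by
      by_contra hcon
      exact h1 ⟨ha.le, not_lt.1 hcon⟩
    have := code_sin_pos t (by linarith) hb
    linarith
  · intro t ha hb hV
    rw [hcim]
    have h1 := hVc t hV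
    rw [← code_shift_cos] at h1
    have h2 := code_cos_neg (t - 1) h1
    have h3 : t < 3 / 4 := by
      by_contra hcon
      exact h2 ⟨by linarith [not_lt.1 hcon], by linarith⟩
    have h4 := code_sin_neg (t - 1) (by linarith) (by linarith)
    rw [code_shift_sin] at h4
    linarith

theorem code_outer_mul (j : ZMod 5) (t : ℝ) :
    2 * Complex.exp (2 * Real.pi * Complex.I * t) * (starRingEnd ℂ) (ctr j) =
      Complex.exp (2 * Real.pi * Complex.I * ((t - (j.val : ℝ) / 5 : ℝ) : ℂ)) * ((2 : ℝ) : ℂ) := by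
  have e1 : (starRingEnd ℂ) (ctr j) = Complex.exp (-(2 * Real.pi * Complex.I * (j.val : ℂ) / 5)) := by
    unfold ctr
    rw [← Complex.exp_conj]
    congr 1
    simp only [map_div₀, map_mul, map_ofNat, map_natCast, Complex.conj_ofReal, Complex.conj_I]
    ring
  have e2 : (2 * Real.pi * Complex.I * ((t - (j.val : ℝ) / 5 : ℝ) : ℂ) : ℂ) =
      2 * Real.pi * Complex.I * t + -(2 * Real.pi * Complex.I * (j.val : ℂ) / 5) := by
    push_cast
    ring
  rw [e1, e2, Complex.exp_add]
  push_cast
  ring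

theorem code_outer_cre (j : ZMod 5) (t : ℝ) :
    cre j (2 * Complex.exp (2 * Real.pi * Complex.I * t)) =
      2 * Real.cos (2 * Real.pi * (t - (j.val : ℝ) / 5)) := by
  unfold cre
  rw [code_outer_mul, Complex.re_mul_ofReal, code_e_re, mul_comm]

theorem code_outer_cim (j : ZMod 5) (t : ℝ) :
    cim j (2 * Complex.exp (2 * Real.pi * Complex.I * t)) =
      2 * Real.sin (2 * Real.pi * (t - (j.val : ℝ) / 5)) := by
  unfold cim
  rw [code_outer_mul, Complex.im_mul_ofReal, code_e_im, mul_comm]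

theorem code_outer (C : Cov) (γ : ℝ → X)
    (h : ∀ t : ℝ, (γ t : ℂ) = 2 * Complex.exp (2 * Real.pi * Complex.I * t)) :
    HasCode C γ (FreeGroup.of 0 * FreeGroup.of 1 * FreeGroup.of 2 * FreeGroup.of 3 *
      FreeGroup.of 4) := by
  have hc : Continuous γ := by
    rw [continuous_induced_rng]
    have e : (Subtype.val ∘ γ) = fun t : ℝ => 2 * Complex.exp (2 * Real.pi * Complex.I * t) := by
      funext t
      exact h t
    rw [e]
    exact continuous_const.mul code_e_cont
  have hp : ∀ t, γ (t + 1) = γ t := by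
    intro t
    apply Subtype.ext
    rw [h, h, code_e_add_one]
  have hU : ∀ t : ℝ, (∀ k : ℤ, 5 * t ≠ k) → γ t ∈ U0 := by
    intro t ht j hj
    rw [h, code_outer_cim] at hj
    rw [h, code_outer_cre]
    have h1 : Real.sin (2 * Real.pi * (t - (j.val : ℝ) / 5)) = 0 := by linarith
    obtain ⟨n, hn⟩ := Real.sin_eq_zero_iff.1 h1
    have hpi := Real.pi_pos
    have hn' : (n : ℝ) = 2 * (t - (j.val : ℝ) / 5) := by
      have : (n : ℝ) * Real.pi = 2 * (t - (j.val : ℝ) / 5) * Real.pi := by linarith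
      exact mul_right_cancel₀ hpi.ne' this
    rcases Int.even_or_odd' n with ⟨k, hk | hk⟩
    · exfalso
      apply ht (5 * k + j.val)
      rw [hk] at hn'
      push_cast at hn' ⊢
      linarith
    · rw [← hn, hk]
      have e : ((2 * k + 1 : ℤ) : ℝ) * Real.pi = Real.pi + k * (2 * Real.pi) := by
        push_cast
        ring
      rw [e, Real.cos_add_int_mul_two_pi, Real.cos_pi]
      norm_num
  have hnot : ∀ (t : ℝ) (m : ℤ), (m : ℝ) < 5 * t → 5 * t < m + 1 → γ t ∈ U0 := by
    intro t m h1 h2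
    refine hU t fun k hk => ?_
    rw [hk] at h1 h2
    have h3 : m < k := by exact_mod_cast h1
    have h4 : k < m + 1 := by exact_mod_cast h2
    omega
  have hU0 : γ (-(1 / 10)) ∈ U0 := hnot _ (-1) (by norm_num) (by norm_num)
  refine code_concl C γ hc hp (-(1 / 10)) hU0 _ fun g hg hg1 => ?_
  have key : ∀ j : ZMod 5, C.κ0 (g ((j.val : ℝ) / 5 + 1 / 10)) =
      C.κ0 (g ((j.val : ℝ) / 5 - 1 / 10)) * FreeGroup.of j := by
    intro j
    have hcim : ∀ t, cim j (C.π (g t)) = 2 * Real.sin (2 * Real.pi * (t - (j.val : ℝ) / 5)) := by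
      intro t
      rw [hg1, h, code_outer_cim]
    refine crossing C j g hg ((j.val : ℝ) / 5 - 1 / 5) ((j.val : ℝ) / 5) ((j.val : ℝ) / 5 + 1 / 5)
      (by linarith) (by linarith) ?_ ?_ ?_ ?_ _ _ (by linarith) (by linarith) (by linarith)
      (by linarith)
    · intro t ha hb hne
      rw [hg1]
      rcases lt_or_gt_of_ne hne with h1 | h1
      · exact hnot t ((j.val : ℤ) - 1) (by push_cast; linarith) (by push_cast; linarith)
      · exact hnot t (j.val : ℤ) (by push_cast; linarith) (by push_cast; linarith)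
    · rw [hg1]
      change 2 * |cim j (γ ((j.val : ℝ) / 5))| < cre j (γ ((j.val : ℝ) / 5)) - 1
      rw [h, code_outer_cre, code_outer_cim, sub_self, mul_zero, Real.sin_zero, Real.cos_zero]
      norm_num
    · intro t ha hb _
      rw [hcim]
      have := code_sin_neg (t - (j.val : ℝ) / 5) (by linarith) (by linarith)
      linarith
    · intro t ha hb _
      rw [hcim]
      have := code_sin_pos (t - (j.val : ℝ) / 5) (by linarith) (by linarith)
      linarith
  have k0 := key 0
  have k1 := key 1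
  have k2 := key 2
  have k3 := key 3
  have k4 := key 4
  have v0 : (((0 : ZMod 5).val : ℕ) : ℝ) = 0 := by
    have : (0 : ZMod 5).val = 0 := rfl
    rw [this]
    norm_num
  have v1 : (((1 : ZMod 5).val : ℕ) : ℝ) = 1 := by
    have : (1 : ZMod 5).val = 1 := rfl
    rw [this]
    norm_num
  have v2 : (((2 : ZMod 5).val : ℕ) : ℝ) = 2 := by
    have : (2 : ZMod 5).val = 2 := rfl
    rw [this]
    norm_num
  have v3 : (((3 : ZMod 5).val : ℕ) : ℝ) = 3 := by
    have : (3 : ZMod 5).val = 3 := rfl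
    rw [this]
    norm_num
  have v4 : (((4 : ZMod 5).val : ℕ) : ℝ) = 4 := by
    have : (4 : ZMod 5).val = 4 := rfl
    rw [this]
    norm_num
  rw [v0] at k0
  rw [v1] at k1
  rw [v2] at k2
  rw [v3] at k3
  rw [v4] at k4
  have w0 : (0 : ℝ) / 5 - 1 / 10 = -(1 / 10) := by norm_num
  have w1 : (1 : ℝ) / 5 - 1 / 10 = 0 / 5 + 1 / 10 := by norm_num
  have w2 : (2 : ℝ) / 5 - 1 / 10 = 1 / 5 + 1 / 10 := by norm_num
  have w3 : (3 : ℝ) / 5 - 1 / 10 = 2 / 5 + 1 / 10 := by norm_num
  have w4 : (4 : ℝ) / 5 - 1 / 10 = 3 / 5 + 1 / 10 := by norm_num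
  have w5 : -(1 / 10) + 1 = (4 : ℝ) / 5 + 1 / 10 := by norm_num
  rw [w0] at k0
  rw [w1] at k1
  rw [w2] at k2
  rw [w3] at k3
  rw [w4] at k4
  rw [w5, k4, k3, k2, k1, k0]
  simp only [mul_assoc]

end
end Pool.Agent.Helper328.MT
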