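import Mathlib
import Pool.Agent.Helper328.MT.Geo2
set_option autoImplicit false
open scoped ContDiff Topology unitInterval
open Set Filter

namespace Pool.Agent.Helper328.MT
noncomputable section

theorem covcore {ι : Type} {X : Type} [TopologicalSpace X] {G : Type} [Group G] (U : ι → Set X)
    (hU : ∀ i, IsOpen (U i)) (idx : X → ι) (hidx : ∀ x, x ∈ U (idx x)) (s : ι → X → G)
    (hs : ∀ i j, ∀ x ∈ U i ∩ U j, ∀ᶠ x' in 𝓝 x, (s i x')⁻¹ * s j x' = (s i x)⁻¹ * s j x) :
    ∃ (E : Type) (_ : TopologicalSpace E) (_ : MulAction G E) (π : E → X) (κ : ι → E → G),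
      IsCoveringMap π ∧
      (∀ i e, π e ∈ U i → ∀ᶠ e' in 𝓝 e, κ i e' = κ i e) ∧
      (∀ i j e, π e ∈ U i → π e ∈ U j → κ j e = κ i e * (s i (π e))⁻¹ * s j (π e)) ∧
      (∀ i e e', π e ∈ U i → π e = π e' → κ i e = κ i e' → e = e') ∧
      (∀ i z g, z ∈ U i → ∃ e, π e = z ∧ κ i e = g) ∧
      (∀ h : G, Continuous fun e : E => h • e) ∧
      (∀ (h : G) e, π (h • e) = π e) ∧
      (∀ i (h : G) e, π e ∈ U i → κ i (h • e) = h * κ i e) := by
  let _ : TopologicalSpace G := ⊥
  have : DiscreteTopology G := ⟨rfl⟩
  let Z : FiberBundleCore ι X G :=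
    { baseSet := U
      isOpen_baseSet := hU
      indexAt := idx
      mem_baseSet_at := hidx
      coordChange := fun i j x g => g * (s i x)⁻¹ * s j x
      coordChange_self := by
        intro i x _ v
        simp
      continuousOn_coordChange := by
        rintro i j ⟨x, g⟩ ⟨hx, _⟩
        apply ContinuousAt.continuousWithinAt
        have h1 : ∀ᶠ p : X × G in 𝓝 (x, g), (s i p.1)⁻¹ * s j p.1 = (s i x)⁻¹ * s j x :=
          (continuous_fst.tendsto (x, g)).eventually (hs i j x hx)
        have h2 : (fun p : X × G => p.2 * (s i p.1)⁻¹ * s j p.1) =ᶠ[𝓝 (x, g)]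
            (fun p => p.2 * ((s i x)⁻¹ * s j x)) := by
          filter_upwards [h1] with p hp
          rw [mul_assoc, hp]
        have h3 : Continuous (fun p : X × G => p.2 * ((s i x)⁻¹ * s j x)) :=
          (continuous_of_discreteTopology (f := fun g : G => g * ((s i x)⁻¹ * s j x))).comp
            continuous_snd
        exact h3.continuousAt.congr h2.symm
      coordChange_comp := by
        intro i j k x _ v
        group }
  let E : Type := Z.TotalSpace
  let mk' : X → G → Z.TotalSpace := fun x g => ⟨x, g⟩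
  let fb : Z.TotalSpace → G := fun e => e.2
  let act : MulAction G E :=
    { smul := fun h e => mk' e.1 (h * fb e)
      one_smul := fun e => by
        show mk' e.1 (1 * fb e) = e
        rw [one_mul]
      mul_smul := fun h h' e => by
        show mk' e.1 ((h * h') * fb e) = mk' e.1 (h * (h' * fb e))
        rw [mul_assoc] }
  let π : E → X := Z.proj
  let κ : ι → E → G := fun i e => (Z.localTriv i e).2
  have hsrc : ∀ i (e : E), π e ∈ U i → e ∈ (Z.localTriv i).source := fun i e h => h
  have hκ : ∀ i (e : E), κ i e = fb e * (s (idx e.1) e.1)⁻¹ * s i e.1 := fun i e => rfl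
  have hT : ∀ i (e : E), (Z.localTriv i) e = (π e, κ i e) := fun i e => rfl
  have hπs : ∀ (h : G) (e : E), π (h • e) = π e := fun h e => rfl
  have hκs : ∀ i (h : G) (e : E), κ i (h • e) = h * κ i e := by
    intro i h e
    show (h * fb e) * (s (idx e.1) e.1)⁻¹ * s i e.1 = h * (fb e * (s (idx e.1) e.1)⁻¹ * s i e.1)
    group
  refine ⟨E, inferInstanceAs (TopologicalSpace Z.TotalSpace), act, π, κ, ?_, ?_, ?_, ?_, ?_, ?_,
    hπs, fun i h e _ => hκs i h e⟩
  · exact FiberBundle.isCoveringMap (F := G) (E := Z.Fiber)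
  · intro i e he
    have h1 : ContinuousAt (Z.localTriv i) e :=
      (Z.localTriv i).toOpenPartialHomeomorph.continuousAt (hsrc i e he)
    have h2 : ContinuousAt (κ i) e := continuous_snd.continuousAt.comp h1
    exact h2.eventually ((isOpen_discrete {κ i e}).mem_nhds rfl)
  · intro i j e _ _
    rw [hκ, hκ]
    show _ = fb e * (s (idx e.1) e.1)⁻¹ * s i e.1 * (s i e.1)⁻¹ * s j e.1
    group
  · intro i e e' he hπ hκe
    have he' : π e' ∈ U i := hπ ▸ he
    apply (Z.localTriv i).toOpenPartialHomeomorph.injOn (hsrc i e he) (hsrc i e' he')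
    show (π e, κ i e) = (π e', κ i e')
    rw [hπ, hκe]
  · intro i z g hz
    have htar : (z, g) ∈ (Z.localTriv i).target := by
      rw [Z.mem_localTriv_target]
      exact hz
    refine ⟨(Z.localTriv i).toOpenPartialHomeomorph.symm (z, g), ?_, ?_⟩
    · rfl
    · have := (Z.localTriv i).toOpenPartialHomeomorph.right_inv htar
      exact congrArg Prod.snd this
  · intro h
    rw [continuous_iff_continuousAt]
    intro e
    have hi : π e ∈ U (idx (π e)) := hidx _
    set i := idx (π e)
    have hopen : IsOpen (Z.localTriv i).source := (Z.localTriv i).open_source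
    rw [(Z.localTriv i).toOpenPartialHomeomorph.continuousAt_iff_continuousAt_comp_left
      (f := fun e : E => h • e) (x := e) (hopen.mem_nhds hi)]
    have h1 : ContinuousAt (Z.localTriv i) e :=
      (Z.localTriv i).toOpenPartialHomeomorph.continuousAt (hsrc i e hi)
    have h2 : Continuous (fun p : X × G => (p.1, h * p.2)) :=
      continuous_fst.prodMk
        ((continuous_of_discreteTopology (f := fun g : G => h * g)).comp continuous_snd)
    have h3 := h2.continuousAt.comp h1
    refine h3.congr (Eventually.of_forall fun e' => ?_)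
    show (π e', h * κ i e') = (π (h • e'), κ i (h • e'))
    rw [hκs, hπs]

theorem covEx_continuous_cim (i : ZMod 5) : Continuous (fun z : X => cim i (z : ℂ)) := by
  unfold cim
  fun_prop

theorem exists_cov : Nonempty Cov := by
  classical
  let U : Option (ZMod 5) → Set X := fun o => Option.elim o U0 V
  let s : Option (ZMod 5) → X → G := fun o z =>
    Option.elim o 1 (fun i => if 0 < cim i (z : ℂ) then 1 else FreeGroup.of i)
  have hidx : ∀ x : X, ∃ o, x ∈ U o := by
    intro x
    rcases cover x with h | ⟨i, h, _⟩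
    · exact ⟨none, h⟩
    · exact ⟨some i, h⟩
  choose idx hidx using hidx
  have hloc : ∀ i, ∀ x : X, x ∈ U0 → x ∈ V i → ∀ᶠ x' in 𝓝 x, s (some i) x' = s (some i) x := by
    intro i x hx0 hxi
    have hne := (mem_U0_of_mem_V i x hxi).mp hx0
    rcases lt_or_gt_of_ne hne with h | h
    · have h1 : ∀ᶠ x' : X in 𝓝 x, cim i (x' : ℂ) < 0 :=
        (isOpen_lt (covEx_continuous_cim i) continuous_const).mem_nhds h
      filter_upwards [h1] with x' hx'
      show (if 0 < cim i (x' : ℂ) then (1 : G) else FreeGroup.of i) =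
        (if 0 < cim i (x : ℂ) then 1 else FreeGroup.of i)
      rw [if_neg (not_lt.mpr hx'.le), if_neg (not_lt.mpr h.le)]
    · have h1 : ∀ᶠ x' : X in 𝓝 x, 0 < cim i (x' : ℂ) :=
        (isOpen_lt continuous_const (covEx_continuous_cim i)).mem_nhds h
      filter_upwards [h1] with x' hx'
      show (if 0 < cim i (x' : ℂ) then (1 : G) else FreeGroup.of i) =
        (if 0 < cim i (x : ℂ) then 1 else FreeGroup.of i)
      rw [if_pos hx', if_pos h]
  have hs : ∀ i j, ∀ x ∈ U i ∩ U j, ∀ᶠ x' in 𝓝 x, (s i x')⁻¹ * s j x' = (s i x)⁻¹ * s j x := by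
    rintro (_ | i) (_ | j) x ⟨hx1, hx2⟩
    · exact Eventually.of_forall fun x' => rfl
    · filter_upwards [hloc j x hx1 hx2] with x' hx'
      rw [hx']
      rfl
    · filter_upwards [hloc i x hx2 hx1] with x' hx'
      rw [hx']
      rfl
    · by_cases hij : i = j
      · subst hij
        exact Eventually.of_forall fun x' => by rw [inv_mul_cancel, inv_mul_cancel]
      · exact absurd hx2 ((Set.disjoint_left.mp (V_disjoint i j hij)) hx1)
  have hUo : ∀ o, IsOpen (U o) := by
    rintro (_ | i)
    · exact isOpen_U0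
    · exact isOpen_V i
  obtain ⟨E, top, act, π, κ, h1, h2, h3, h4, h5, h6, h7, h8⟩ := covcore U hUo idx hidx s hs
  have hU0 : ∀ i (z : X), z ∈ V i → cim i (z : ℂ) ≠ 0 → z ∈ U0 := fun i z hz h =>
    (mem_U0_of_mem_V i z hz).mpr h
  refine ⟨{
    E := E
    top := top
    act := act
    π := π
    cov := h1
    κ0 := κ none
    κ := fun i => κ (some i)
    κ0_cont := fun e he => h2 none e he
    κ_cont := fun i e he => h2 (some i) e he
    rel_pos := fun i e he hp => by
      have := h3 none (some i) e (hU0 i _ he hp.ne') he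
      have e1 : s none (π e) = 1 := rfl
      have e2 : s (some i) (π e) = 1 := if_pos hp
      rw [e1, e2] at this
      simpa using this
    rel_neg := fun i e he hp => by
      have := h3 none (some i) e (hU0 i _ he hp.ne) he
      have e1 : s none (π e) = 1 := rfl
      have e2 : s (some i) (π e) = FreeGroup.of i := if_neg (not_lt.mpr hp.le)
      rw [e1, e2] at this
      simpa using this
    ext0 := fun e e' he => h4 none e e' he
    exti := fun i e e' he => h4 (some i) e e' he
    ex0 := fun z hz g => h5 none z g hz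
    exi := fun i z hz g => h5 (some i) z g hz
    smul_cont := h6
    π_smul := h7
    κ0_smul := fun h e he => h8 none h e he
    κ_smul := fun i h e he => h8 (some i) h e he }⟩


end
end Pool.Agent.Helper328.MT
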