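import Mathlib
import Pool.Agent.Helper328.MT.Defs
set_option autoImplicit false
open scoped unitInterval

namespace Pool.Agent.Helper328.MT

theorem trans_left_aux {X : Type} [TopologicalSpace X] {x y z : X} (γ : Path x y) (γ' : Path y z)
    (t w : I) (hw : (w : ℝ) = t / 2) : (γ.trans γ') w = γ t := by
  rw [Path.trans_apply, dif_pos (by rw [hw]; linarith [t.2.2])]
  congr 1
  apply Subtype.ext
  show 2 * (w : ℝ) = t
  rw [hw]; ring

theorem trans_right_aux {X : Type} [TopologicalSpace X] {x y z : X} (γ : Path x y) (γ' : Path y z)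
    (t w : I) (hw : (w : ℝ) = (1 + t) / 2) : (γ.trans γ') w = γ' t := by
  rw [Path.trans_apply]
  split_ifs with h
  · have ht : (t : ℝ) = 0 := by
      have := t.2.1
      linarith
    have h0 : t = 0 := Subtype.ext ht
    rw [h0, γ'.source]
    have h1 : (⟨2 * (w : ℝ), (unitInterval.mul_pos_mem_iff zero_lt_two).2 ⟨w.2.1, h⟩⟩ : I) = 1 := by
      apply Subtype.ext
      show 2 * (w : ℝ) = 1
      rw [hw, ht]; ring
    rw [h1, γ.target]
  · congr 1
    apply Subtype.ext
    show 2 * (w : ℝ) - 1 = t
    rw [hw]; ring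

/-- from a homotopy `p·c ≃ c·q` (rel endpoints) to a free homotopy between the loops `p`, `q` -/
theorem free_homotopy {X : Type} [TopologicalSpace X] {x y : X} (p : Path x x) (q : Path y y)
    (c : Path x y) (h : (p.trans c).Homotopic (c.trans q)) :
    ∃ H : C(I × I, X), (∀ t, H (0, t) = p t) ∧ (∀ t, H (1, t) = q t) ∧
      ∀ s, H (s, 0) = H (s, 1) := by
  obtain ⟨F⟩ := h
  let u : I × I → ℝ := fun z => (z.1 : ℝ) * (1 - z.2) / ((z.1 : ℝ) * (1 - z.2) + z.2 * (1 - z.1))
  let v : I × I → ℝ := fun z => ((z.1 : ℝ) + z.2) / 2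
  let P : ℝ → I := Set.projIcc 0 1 zero_le_one
  have hPc : Continuous P := continuous_projIcc
  have hP0 : P 0 = 0 := Set.projIcc_left _
  have hP1 : P 1 = 1 := Set.projIcc_right _
  have hPv : ∀ z : I × I, ((P (v z) : I) : ℝ) = ((z.1 : ℝ) + z.2) / 2 := by
    intro z
    have h1 := z.1.2
    have h2 := z.2.2
    have : v z ∈ Set.Icc (0 : ℝ) 1 := by
      constructor
      · show 0 ≤ ((z.1 : ℝ) + z.2) / 2
        linarith [h1.1, h2.1]
      · show ((z.1 : ℝ) + z.2) / 2 ≤ 1
        linarith [h1.2, h2.2]
    show ((Set.projIcc 0 1 zero_le_one (v z) : I) : ℝ) = _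
    rw [Set.projIcc_of_mem _ this]
  have hvc : Continuous fun z => P (v z) := by
    apply hPc.comp
    show Continuous fun z : I × I => ((z.1 : ℝ) + z.2) / 2
    fun_prop
  have hcont : Continuous (fun z : I × I => F (P (u z), P (v z))) := by
    rw [continuous_iff_continuousAt]
    intro z
    by_cases hz : (z.1 : ℝ) * (1 - z.2) + z.2 * (1 - z.1) = 0
    · -- corner
      have h1 := z.1.2
      have h2 := z.2.2
      have hn1 : 0 ≤ (z.1 : ℝ) * (1 - z.2) := mul_nonneg h1.1 (by linarith [h2.2])
      have hn2 : 0 ≤ (z.2 : ℝ) * (1 - z.1) := mul_nonneg h2.1 (by linarith [h1.2])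
      have e1 : (z.1 : ℝ) * (1 - z.2) = 0 := by linarith
      have e2 : (z.2 : ℝ) * (1 - z.1) = 0 := by linarith
      have hcorner : P (v z) = 0 ∨ P (v z) = 1 := by
        rcases mul_eq_zero.mp e1 with ha | ha
        · left
          apply Subtype.ext
          rw [hPv, ha]
          rw [ha] at e2
          show (0 + (z.2 : ℝ)) / 2 = 0
          linarith
        · right
          apply Subtype.ext
          rw [hPv]
          have hb : (z.2 : ℝ) = 1 := by linarith
          rw [hb] at e2 ⊢
          show ((z.1 : ℝ) + 1) / 2 = 1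
          linarith
      have hconst : ∀ w : I, F (w, P (v z)) = F (P (u z), P (v z)) := by
        intro w
        rcases hcorner with hc | hc
        · rw [hc, F.source, F.source]
        · rw [hc, F.target, F.target]
      intro U hU
      rw [Filter.mem_map]
      have htube : ∀ᶠ b in nhds (P (v z)), ∀ a ∈ (Set.univ : Set I), F (a, b) ∈ U := by
        apply isCompact_univ.eventually_forall_of_forall_eventually
        intro a _
        have hFc : Continuous (fun w : I × I => F (w.2, w.1)) := by fun_prop
        have := hFc.tendsto (P (v z), a)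
        apply this.eventually
        rw [hconst a]
        exact hU
      have := (hvc.tendsto z).eventually htube
      filter_upwards [this] with w hw
      exact hw _ (Set.mem_univ _)
    · have hu : ContinuousAt u z := by
        have g1 : ContinuousAt (fun z : I × I => (z.1 : ℝ) * (1 - z.2)) z := by fun_prop
        have g2 : ContinuousAt (fun z : I × I => (z.1 : ℝ) * (1 - z.2) + z.2 * (1 - z.1)) z := by
          fun_prop
        exact g1.div g2 hz
      have h1 : ContinuousAt (fun z => (P (u z), P (v z))) z :=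
        (hPc.continuousAt.comp hu).prodMk hvc.continuousAt
      exact F.continuous.continuousAt.comp h1
  refine ⟨⟨_, hcont⟩, ?_, ?_, ?_⟩
  · intro t
    show F (P (u (0, t)), P (v (0, t))) = p t
    have hu : u (0, t) = 0 := by simp [u]
    rw [hu, hP0, F.apply_zero]
    apply trans_left_aux
    rw [hPv]; simp
  · intro t
    show F (P (u (1, t)), P (v (1, t))) = q t
    by_cases ht : (t : ℝ) = 1
    · have ht' : t = 1 := Subtype.ext ht
      have hv : P (v (1, t)) = 1 := by
        apply Subtype.ext; rw [hPv, ht']; simp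
      rw [hv, F.target, ht', q.target]
    · have hu : u (1, t) = 1 := by
        show ((1 : I) : ℝ) * (1 - t) / (((1 : I) : ℝ) * (1 - t) + t * (1 - ((1 : I) : ℝ))) = 1
        have : (1 : ℝ) - t ≠ 0 := fun h => ht (by linarith)
        simp [this]
      rw [hu, hP1, F.apply_one]
      apply trans_right_aux
      rw [hPv]; simp
  · intro s
    show F (P (u (s, 0)), P (v (s, 0))) = F (P (u (s, 1)), P (v (s, 1)))
    have h2 : F (P (u (s, 1)), P (v (s, 1))) = c s := by
      have hu : u (s, 1) = 0 := by simp [u]
      rw [hu, hP0, F.apply_zero]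
      apply trans_right_aux
      rw [hPv]; simp [add_comm]
    have h1 : F (P (u (s, 0)), P (v (s, 0))) = c s := by
      by_cases hs : (s : ℝ) = 0
      · have hs' : s = 0 := Subtype.ext hs
        have hv : P (v (s, 0)) = 0 := by
          apply Subtype.ext; rw [hPv, hs']; simp
        rw [hv, F.source, hs', c.source]
      · have hu : u (s, 0) = 1 := by
          show (s : ℝ) * (1 - ((0 : I) : ℝ)) / ((s : ℝ) * (1 - ((0 : I) : ℝ)) +
            ((0 : I) : ℝ) * (1 - s)) = 1
          simp [hs]
        rw [hu, hP1, F.apply_one]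
        apply trans_left_aux
        rw [hPv]; simp
    rw [h1, h2]

end Pool.Agent.Helper328.MT
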