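import Mathlib
import Pool.Agent.Helper328.MT.Geo2
set_option autoImplicit false
open scoped ContDiff Topology unitInterval
open Set Filter

namespace Pool.Agent.Helper328.MT
noncomputable section

/-! ### auxiliary lemmas for simple connectivity -/

def zU : Set ℂ := {z | ∀ i, cim i z = 0 → cre i z < 1}
def zV (i : ZMod 5) : Set ℂ := {z | 2 * |cim i z| < cre i z - 1}
def zVp (i : ZMod 5) : Set ℂ := {z | 2 * |cim i z| < cre i z - 1 ∧ 0 < cim i z}
def zVm (i : ZMod 5) : Set ℂ := {z | 2 * |cim i z| < cre i z - 1 ∧ cim i z < 0}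

theorem zcre_lin (i : ZMod 5) (a b : ℝ) (z w : ℂ) :
    cre i (a • z + b • w) = a * cre i z + b * cre i w := by
  unfold cre
  simp only [Complex.real_smul, add_mul, mul_assoc, Complex.add_re, Complex.re_ofReal_mul]

theorem zcim_lin (i : ZMod 5) (a b : ℝ) (z w : ℂ) :
    cim i (a • z + b • w) = a * cim i z + b * cim i w := by
  unfold cim
  simp only [Complex.real_smul, add_mul, mul_assoc, Complex.add_im, Complex.im_ofReal_mul]

theorem zcre_zero (i : ZMod 5) : cre i 0 = 0 := by unfold cre; simp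
theorem zcim_zero (i : ZMod 5) : cim i 0 = 0 := by unfold cim; simp

theorem zU_ne {z : ℂ} (hz : z ∈ zU) (i : ZMod 5) : z ≠ ctr i := by
  rintro rfl
  have h := hz i
  have h1 : cim i (ctr i) = 0 := by unfold cim; rw [ctr_mul_conj]; simp
  have h2 : cre i (ctr i) = 1 := by unfold cre; rw [ctr_mul_conj]; simp
  have := h h1
  rw [h2] at this
  exact lt_irrefl _ this

theorem zV_ne {i : ZMod 5} {z : ℂ} (hz : z ∈ zV i) (j : ZMod 5) : z ≠ ctr j := by
  rintro rfl
  have h : 2 * |cim i (ctr j)| < cre i (ctr j) - 1 := hz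
  have h1 : cre i (ctr j) ≤ 1 := by
    unfold cre
    refine (Complex.re_le_norm _).trans ?_
    rw [norm_mul, RCLike.norm_conj, norm_ctr, norm_ctr, mul_one]
  have := abs_nonneg (cim i (ctr j))
  linarith

theorem zVp_sub (i : ZMod 5) : zVp i ⊆ zV i := fun _ h => h.1
theorem zVm_sub (i : ZMod 5) : zVm i ⊆ zV i := fun _ h => h.1

theorem zVp_subU (i : ZMod 5) : zVp i ⊆ zU := by
  intro z h
  have h' : z ∈ zV i := h.1
  have := (mem_U0_of_mem_V i ⟨z, zV_ne h'⟩ h').2 h.2.ne'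
  exact this

theorem zVm_subU (i : ZMod 5) : zVm i ⊆ zU := by
  intro z h
  have h' : z ∈ zV i := h.1
  have := (mem_U0_of_mem_V i ⟨z, zV_ne h'⟩ h').2 h.2.ne
  exact this

theorem zU_star : StarConvex ℝ (0:ℂ) zU := by
  intro y hy a b ha hb hab i
  rw [smul_zero, zero_add]
  have h1 : cim i (b • y) = b * cim i y := by
    have := zcim_lin i 0 b 0 y
    simpa [zcim_zero] using this
  have h2 : cre i (b • y) = b * cre i y := by
    have := zcre_lin i 0 b 0 y
    simpa [zcre_zero] using this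
  rw [h1, h2]
  intro h
  rcases mul_eq_zero.1 h with h | h
  · rw [h]; simp
  · have := hy i h
    have hb1 : b ≤ 1 := by linarith
    by_cases h0 : cre i y ≤ 0
    · have : b * cre i y ≤ 0 := mul_nonpos_of_nonneg_of_nonpos hb h0
      linarith
    · push Not at h0
      have : b * cre i y ≤ 1 * cre i y := mul_le_mul_of_nonneg_right hb1 h0.le
      linarith

theorem zV_conv (i : ZMod 5) : Convex ℝ (zV i) := by
  intro x hx y hy a b ha hb hab
  have hx' : 2 * |cim i x| < cre i x - 1 := hx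
  have hy' : 2 * |cim i y| < cre i y - 1 := hy
  change 2 * |cim i (a • x + b • y)| < cre i (a • x + b • y) - 1
  rw [zcim_lin, zcre_lin]
  have h1 : |a * cim i x + b * cim i y| ≤ a * |cim i x| + b * |cim i y| := by
    refine (abs_add_le _ _).trans ?_
    rw [abs_mul, abs_mul, abs_of_nonneg ha, abs_of_nonneg hb]
  have h2 : a * (cre i x - 1 - 2 * |cim i x|) + b * (cre i y - 1 - 2 * |cim i y|) > 0 := by
    rcases ha.eq_or_lt with h | h
    · have hb1 : b = 1 := by linarith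
      rw [← h, hb1]; linarith
    · have h3 : 0 < a * (cre i x - 1 - 2 * |cim i x|) := mul_pos h (by linarith)
      have h4 : 0 ≤ b * (cre i y - 1 - 2 * |cim i y|) := mul_nonneg hb (by linarith)
      linarith
  have h5 : a * (cre i x - 1 - 2 * |cim i x|) + b * (cre i y - 1 - 2 * |cim i y|)
      = (a * cre i x + b * cre i y) - (a + b) - 2 * (a * |cim i x| + b * |cim i y|) := by ring
  rw [h5, hab] at h2
  linarith

theorem zVp_conv (i : ZMod 5) : Convex ℝ (zVp i) := by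
  intro x hx y hy a b ha hb hab
  refine ⟨zV_conv i hx.1 hy.1 ha hb hab, ?_⟩
  rw [zcim_lin]
  have h1 := hx.2
  have h2 := hy.2
  rcases ha.eq_or_lt with h | h
  · have hb1 : b = 1 := by linarith
    rw [← h, hb1]; linarith
  · have h3 : 0 < a * cim i x := mul_pos h h1
    have h4 : 0 ≤ b * cim i y := mul_nonneg hb h2.le
    linarith

theorem zVm_conv (i : ZMod 5) : Convex ℝ (zVm i) := by
  intro x hx y hy a b ha hb hab
  refine ⟨zV_conv i hx.1 hy.1 ha hb hab, ?_⟩
  rw [zcim_lin]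
  have h1 := hx.2
  have h2 := hy.2
  rcases ha.eq_or_lt with h | h
  · have hb1 : b = 1 := by linarith
    rw [← h, hb1]; linarith
  · have h3 : a * cim i x < 0 := mul_neg_of_pos_of_neg h h1
    have h4 : b * cim i y ≤ 0 := mul_nonpos_of_nonneg_of_nonpos hb h2.le
    linarith

/-- base point -/
def zx0 : X := ⟨0, fun i => zU_ne (by intro i _; rw [zcre_zero]; norm_num) i⟩

theorem zx0_mem : (zx0 : ℂ) ∈ zU := by
  intro i _
  change cre i 0 < 1
  rw [zcre_zero]; norm_num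

theorem zp_aux (i : ZMod 5) (c : ℂ) : cre i (c * ctr i) = c.re ∧ cim i (c * ctr i) = c.im := by
  unfold cre cim
  rw [mul_assoc, ctr_mul_conj, mul_one]
  exact ⟨rfl, rfl⟩

theorem zap_mem (i : ZMod 5) : (⟨3, 1/2⟩ : ℂ) * ctr i ∈ zVp i := by
  obtain ⟨h1, h2⟩ := zp_aux i ⟨3, 1/2⟩
  change 2 * |cim i _| < cre i _ - 1 ∧ 0 < cim i _
  rw [h1, h2]
  norm_num [abs_of_pos]

theorem zam_mem (i : ZMod 5) : (⟨3, -1/2⟩ : ℂ) * ctr i ∈ zVm i := by
  obtain ⟨h1, h2⟩ := zp_aux i ⟨3, -1/2⟩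
  change 2 * |cim i _| < cre i _ - 1 ∧ cim i _ < 0
  rw [h1, h2]
  norm_num [abs_of_neg, abs_of_pos]

def zap (i : ZMod 5) : X := ⟨(⟨3, 1/2⟩ : ℂ) * ctr i, zV_ne (zVp_sub i (zap_mem i))⟩
def zam (i : ZMod 5) : X := ⟨(⟨3, -1/2⟩ : ℂ) * ctr i, zV_ne (zVm_sub i (zam_mem i))⟩

theorem zap_p (i : ZMod 5) : (zap i : ℂ) ∈ zVp i := zap_mem i
theorem zam_m (i : ZMod 5) : (zam i : ℂ) ∈ zVm i := zam_mem i

/-- the arrow `q` of the fundamental groupoid is represented by a path inside `S` -/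
def zIn (S : Set ℂ) {x y : X} (q : Path.Homotopic.Quotient x y) : Prop :=
  ∃ p : Path x y, (∀ t, ((p t : X) : ℂ) ∈ S) ∧ Path.Homotopic.Quotient.mk p = q

theorem zIn.trans {S : Set ℂ} {x y z : X} {q : Path.Homotopic.Quotient x y}
    {q' : Path.Homotopic.Quotient y z} (h : zIn S q) (h' : zIn S q') : zIn S (q.trans q') := by
  obtain ⟨p, hp, rfl⟩ := h
  obtain ⟨p', hp', rfl⟩ := h'
  refine ⟨p.trans p', fun t => ?_, by rw [Path.Homotopic.Quotient.mk_trans]⟩
  have : (p.trans p') t ∈ Set.range (p.trans p') := ⟨t, rfl⟩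
  rw [Path.trans_range] at this
  rcases this with ⟨s, hs⟩ | ⟨s, hs⟩
  · rw [← hs]; exact hp s
  · rw [← hs]; exact hp' s

theorem zIn.symm {S : Set ℂ} {x y : X} {q : Path.Homotopic.Quotient x y} (h : zIn S q) :
    zIn S q.symm := by
  obtain ⟨p, hp, rfl⟩ := h
  exact ⟨p.symm, fun t => hp _, by rw [Path.Homotopic.Quotient.mk_symm]⟩

theorem zIn.mono {S T : Set ℂ} (hST : S ⊆ T) {x y : X} {q : Path.Homotopic.Quotient x y}
    (h : zIn S q) : zIn T q := by
  obtain ⟨p, hp, rfl⟩ := h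
  exact ⟨p, fun t => hST (hp t), rfl⟩

theorem zIn.uniq {S : Set ℂ} [hc : ContractibleSpace S] (hS : ∀ z ∈ S, ∀ i, z ≠ ctr i) {x y : X}
    {q q' : Path.Homotopic.Quotient x y} (h : zIn S q) (h' : zIn S q') : q = q' := by
  obtain ⟨p, hp, rfl⟩ := h
  obtain ⟨p', hp', rfl⟩ := h'
  have hx : (x : ℂ) ∈ S := by have := hp 0; rwa [p.source] at this
  have hy : (y : ℂ) ∈ S := by have := hp 1; rwa [p.target] at this
  let incl : C(S, X) := ⟨fun z => ⟨z.1, hS z.1 z.2⟩, by fun_prop⟩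
  let P : Path (⟨(x:ℂ), hx⟩ : S) ⟨(y:ℂ), hy⟩ :=
    ⟨⟨fun t => ⟨(p t : X), hp t⟩, by fun_prop⟩, by simp, by simp⟩
  let P' : Path (⟨(x:ℂ), hx⟩ : S) ⟨(y:ℂ), hy⟩ :=
    ⟨⟨fun t => ⟨(p' t : X), hp' t⟩, by fun_prop⟩, by simp, by simp⟩
  have h1 : P.Homotopic P' := SimplyConnectedSpace.paths_homotopic P P'
  have h2 := h1.map incl
  rw [Path.Homotopic.Quotient.eq]
  have e1 : (P.map incl.continuous : Path x y) = p := by ext t; rfl
  have e2 : (P'.map incl.continuous : Path x y) = p' := by ext t; rfl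
  have h3 : (P.map incl.continuous : Path x y).Homotopic (P'.map incl.continuous : Path x y) := h2
  rwa [e1, e2] at h3

theorem zIn.ex {S : Set ℂ} [hc : ContractibleSpace S] (hS : ∀ z ∈ S, ∀ i, z ≠ ctr i) (x y : X)
    (hx : (x : ℂ) ∈ S) (hy : (y : ℂ) ∈ S) : ∃ q : Path.Homotopic.Quotient x y, zIn S q := by
  let incl : C(S, X) := ⟨fun z => ⟨z.1, hS z.1 z.2⟩, by fun_prop⟩
  obtain ⟨P⟩ := PathConnectedSpace.joined (⟨(x:ℂ), hx⟩ : S) ⟨(y:ℂ), hy⟩
  exact ⟨Path.Homotopic.Quotient.mk (P.map incl.continuous : Path x y), _,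
    fun t => (P t).2, rfl⟩

instance zUc : ContractibleSpace zU := zU_star.contractibleSpace ⟨_, zx0_mem⟩
instance zVc (i : ZMod 5) : ContractibleSpace (zV i) :=
  (zV_conv i).contractibleSpace ⟨_, zVp_sub i (zap_p i)⟩
instance zVpc (i : ZMod 5) : ContractibleSpace (zVp i) :=
  (zVp_conv i).contractibleSpace ⟨_, zap_p i⟩
instance zVmc (i : ZMod 5) : ContractibleSpace (zVm i) :=
  (zVm_conv i).contractibleSpace ⟨_, zam_m i⟩

theorem zU_uniq {x y : X} {q q' : Path.Homotopic.Quotient x y} (h : zIn zU q) (h' : zIn zU q') :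
    q = q' := zIn.uniq (fun _ hz => zU_ne hz) h h'
theorem zV_uniq {i : ZMod 5} {x y : X} {q q' : Path.Homotopic.Quotient x y} (h : zIn (zV i) q)
    (h' : zIn (zV i) q') : q = q' := zIn.uniq (fun _ hz => zV_ne hz) h h'

theorem zsp_ex (i : ZMod 5) : ∃ q : Path.Homotopic.Quotient zx0 (zap i), zIn zU q :=
  zIn.ex (fun _ hz => zU_ne hz) _ _ zx0_mem (zVp_subU i (zap_p i))
theorem zsm_ex (i : ZMod 5) : ∃ q : Path.Homotopic.Quotient zx0 (zam i), zIn zU q :=
  zIn.ex (fun _ hz => zU_ne hz) _ _ zx0_mem (zVm_subU i (zam_m i))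
theorem zm_ex (i : ZMod 5) : ∃ q : Path.Homotopic.Quotient (zam i) (zap i), zIn (zV i) q :=
  zIn.ex (fun _ hz => zV_ne hz) _ _ (zVm_sub i (zam_m i)) (zVp_sub i (zap_p i))

def zsp (i : ZMod 5) : Path.Homotopic.Quotient zx0 (zap i) := (zsp_ex i).choose
def zsm (i : ZMod 5) : Path.Homotopic.Quotient zx0 (zam i) := (zsm_ex i).choose
def zm (i : ZMod 5) : Path.Homotopic.Quotient (zam i) (zap i) := (zm_ex i).choose
theorem zsp_in (i : ZMod 5) : zIn zU (zsp i) := (zsp_ex i).choose_spec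
theorem zsm_in (i : ZMod 5) : zIn zU (zsm i) := (zsm_ex i).choose_spec
theorem zm_in (i : ZMod 5) : zIn (zV i) (zm i) := (zm_ex i).choose_spec

/-- the fundamental group, with the multiplication `trans` -/
def zL : Type := Path.Homotopic.Quotient zx0 zx0

instance : Mul zL := ⟨fun a b => Path.Homotopic.Quotient.trans (x₀ := zx0) (x₁ := zx0) a b⟩
instance : One zL := ⟨Path.Homotopic.Quotient.refl zx0⟩
instance : Inv zL := ⟨fun a => Path.Homotopic.Quotient.symm (x₀ := zx0) (x₁ := zx0) a⟩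
instance : Group zL := Group.ofLeftAxioms
  (fun a b c => Path.Homotopic.Quotient.trans_assoc (x₀ := zx0) (x₁ := zx0) a b c)
  (fun a => Path.Homotopic.Quotient.refl_trans (x₀ := zx0) (x₁ := zx0) a)
  (fun a => Path.Homotopic.Quotient.symm_trans (x₀ := zx0) (x₁ := zx0) a)

def zloop (i : ZMod 5) : zL := (zsm i).trans ((zm i).trans (zsp i).symm)

def zphiH : G →* zL := FreeGroup.lift zloop

def zphi (g : G) : Path.Homotopic.Quotient zx0 zx0 := zphiH g

theorem zphi_mul (g h : G) : zphi (g * h) = (zphi g).trans (zphi h) := by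
  have := map_mul zphiH g h
  exact this
theorem zphi_of (i : ZMod 5) : zphi (FreeGroup.of i)
    = (zsm i).trans ((zm i).trans (zsp i).symm) := by
  have : zphiH (FreeGroup.of i) = zloop i := FreeGroup.lift_apply_of
  exact this

def zR0 (k : G) {x : X} (q : Path.Homotopic.Quotient zx0 x) : Prop :=
  ∃ r : Path.Homotopic.Quotient zx0 x, zIn zU r ∧ q = (zphi k).trans r
def zRi (i : ZMod 5) (k : G) {x : X} (q : Path.Homotopic.Quotient zx0 x) : Prop :=
  ∃ r : Path.Homotopic.Quotient (zap i) x, zIn (zV i) r ∧ q = (zphi k).trans ((zsp i).trans r)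

theorem zR0_uniq {k : G} {x : X} {q q' : Path.Homotopic.Quotient zx0 x} (h : zR0 k q)
    (h' : zR0 k q') : q = q' := by
  obtain ⟨r, hr, rfl⟩ := h
  obtain ⟨r', hr', rfl⟩ := h'
  rw [zU_uniq hr hr']

theorem zRi_uniq {i : ZMod 5} {k : G} {x : X} {q q' : Path.Homotopic.Quotient zx0 x}
    (h : zRi i k q) (h' : zRi i k q') : q = q' := by
  obtain ⟨r, hr, rfl⟩ := h
  obtain ⟨r', hr', rfl⟩ := h'
  rw [zV_uniq hr hr']

theorem zR0_ex (k : G) (x : X) (hx : x ∈ U0) : ∃ q : Path.Homotopic.Quotient zx0 x, zR0 k q := by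
  obtain ⟨r, hr⟩ := zIn.ex (S := zU) (fun _ hz => zU_ne hz) zx0 x zx0_mem hx
  exact ⟨_, r, hr, rfl⟩

theorem zRi_ex (i : ZMod 5) (k : G) (x : X) (hx : x ∈ V i) :
    ∃ q : Path.Homotopic.Quotient zx0 x, zRi i k q := by
  obtain ⟨r, hr⟩ := zIn.ex (S := zV i) (fun _ hz => zV_ne hz) (zap i) x (zVp_sub i (zap_p i)) hx
  exact ⟨_, r, hr, rfl⟩

variable (C : Cov)

/-- both forms agree on the overlap: there is a common `q` -/
theorem zoverlap (i : ZMod 5) (e : C.E) (h0 : C.π e ∈ U0) (hi : C.π e ∈ V i) :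
    ∃ q : Path.Homotopic.Quotient zx0 (C.π e), zR0 (C.κ0 e) q ∧ zRi i (C.κ i e) q := by
  have hne := (mem_U0_of_mem_V i _ hi).1 h0
  rcases lt_or_gt_of_ne hne with h | h
  · -- negative side
    obtain ⟨r, hr⟩ := zIn.ex (S := zVm i) (fun _ hz => zV_ne (zVm_sub i hz)) (zam i) (C.π e)
      (zam_m i) ⟨hi, h⟩
    refine ⟨(zphi (C.κ0 e)).trans ((zsm i).trans r), ⟨_, (zsm_in i).trans (hr.mono (zVm_subU i)),
      rfl⟩, ?_⟩
    refine ⟨(zm i).symm.trans r, (zm_in i).symm.trans (hr.mono (zVm_sub i)), ?_⟩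
    rw [C.rel_neg i e hi h, zphi_mul, zphi_of]
    simp only [Path.Homotopic.Quotient.trans_assoc]
    congr 2
    rw [← Path.Homotopic.Quotient.trans_assoc (zsp i).symm, Path.Homotopic.Quotient.symm_trans,
      Path.Homotopic.Quotient.refl_trans, ← Path.Homotopic.Quotient.trans_assoc (zm i),
      Path.Homotopic.Quotient.trans_symm, Path.Homotopic.Quotient.refl_trans]
  · obtain ⟨r, hr⟩ := zIn.ex (S := zVp i) (fun _ hz => zV_ne (zVp_sub i hz)) (zap i) (C.π e)
      (zap_p i) ⟨hi, h⟩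
    refine ⟨(zphi (C.κ0 e)).trans ((zsp i).trans r), ⟨_, (zsp_in i).trans (hr.mono (zVp_subU i)),
      rfl⟩, ?_⟩
    refine ⟨r, hr.mono (zVp_sub i), ?_⟩
    rw [C.rel_pos i e hi h]

def zR (e : C.E) (q : Path.Homotopic.Quotient zx0 (C.π e)) : Prop :=
  (C.π e ∈ U0 → zR0 (C.κ0 e) q) ∧ ∀ i, C.π e ∈ V i → zRi i (C.κ i e) q

theorem zR_of0 {e : C.E} (h0 : C.π e ∈ U0) {q : Path.Homotopic.Quotient zx0 (C.π e)}
    (h : zR0 (C.κ0 e) q) : zR C e q := by
  refine ⟨fun _ => h, fun i hi => ?_⟩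
  obtain ⟨q', h1, h2⟩ := zoverlap C i e h0 hi
  rw [zR0_uniq h h1]
  exact h2

theorem zR_ofi {e : C.E} {i : ZMod 5} (hi : C.π e ∈ V i)
    {q : Path.Homotopic.Quotient zx0 (C.π e)} (h : zRi i (C.κ i e) q) : zR C e q := by
  refine ⟨fun h0 => ?_, fun j hj => ?_⟩
  · obtain ⟨q', h1, h2⟩ := zoverlap C i e h0 hi
    rw [zRi_uniq h h2]
    exact h1
  · by_cases hij : i = j
    · subst hij; exact h
    · exact absurd hj (Set.disjoint_left.1 (V_disjoint i j hij) hi)

theorem zR_ex (e : C.E) : ∃ q, zR C e q := by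
  rcases cover (C.π e) with h | ⟨i, h, -⟩
  · obtain ⟨q, hq⟩ := zR0_ex (C.κ0 e) _ h
    exact ⟨q, zR_of0 C h hq⟩
  · obtain ⟨q, hq⟩ := zRi_ex i (C.κ i e) _ h
    exact ⟨q, zR_ofi C h hq⟩

theorem zR_uniq {e : C.E} {q q' : Path.Homotopic.Quotient zx0 (C.π e)} (h : zR C e q)
    (h' : zR C e q') : q = q' := by
  rcases cover (C.π e) with h0 | ⟨i, hi, -⟩
  · exact zR0_uniq (h.1 h0) (h'.1 h0)
  · exact zRi_uniq (h.2 i hi) (h'.2 i hi)

/-- the class of the projection of a path -/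
def zcl {a b : C.E} (γ : Path a b) : Path.Homotopic.Quotient (C.π a) (C.π b) :=
  Path.Homotopic.Quotient.mk (γ.map C.cov.continuous)

theorem zcl_trans {a b c : C.E} (γ : Path a b) (γ' : Path b c) :
    zcl C (γ.trans γ') = (zcl C γ).trans (zcl C γ') := by
  unfold zcl
  rw [Path.map_trans, Path.Homotopic.Quotient.mk_trans]

theorem zcl_homotopic {a b : C.E} {γ γ' : Path a b} (h : γ.Homotopic γ') :
    zcl C γ = zcl C γ' := by
  unfold zcl
  rw [Path.Homotopic.Quotient.eq]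
  exact h.map ⟨C.π, C.cov.continuous⟩

def zS {a b : C.E} (γ : Path a b) : Prop :=
  ∀ q, zR C a q → zR C b (q.trans (zcl C γ))

theorem zS_trans {a b c : C.E} {γ : Path a b} {γ' : Path b c} (h : zS C γ) (h' : zS C γ') :
    zS C (γ.trans γ') := by
  intro q hq
  rw [zcl_trans, ← Path.Homotopic.Quotient.trans_assoc]
  exact h' _ (h _ hq)

theorem zS_homotopic {a b : C.E} {γ γ' : Path a b} (hh : γ.Homotopic γ') (h : zS C γ) :
    zS C γ' := by
  intro q hq
  rw [← zcl_homotopic C hh]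
  exact h q hq

theorem zkconst {T : Type} [TopologicalSpace T] [PreconnectedSpace T] {f : T → C.E}
    (hf : Continuous f) {k : C.E → G} (hk : ∀ t, ∀ᶠ e' in 𝓝 (f t), k e' = k (f t)) (s t : T) :
    k (f s) = k (f t) := by
  have : IsLocallyConstant (fun t => k (f t)) := by
    rw [IsLocallyConstant.iff_eventually_eq]
    intro t
    exact hf.continuousAt.eventually (hk t)
  exact this.apply_eq_of_preconnectedSpace s t

theorem zS_U {a b : C.E} (γ : Path a b) (h : ∀ t, C.π (γ t) ∈ U0) : zS C γ := by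
  intro q hq
  have ha : C.π a ∈ U0 := by have := h 0; rwa [γ.source] at this
  have hb : C.π b ∈ U0 := by have := h 1; rwa [γ.target] at this
  have hk : C.κ0 a = C.κ0 b := by
    have := zkconst C γ.continuous (k := C.κ0) (fun t => C.κ0_cont _ (h t)) 0 1
    rwa [γ.source, γ.target] at this
  obtain ⟨r, hr, hr'⟩ := hq.1 ha
  refine zR_of0 C hb ⟨r.trans (zcl C γ), hr.trans ⟨γ.map C.cov.continuous, fun t => h t, rfl⟩, ?_⟩
  rw [hr', Path.Homotopic.Quotient.trans_assoc, hk]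

theorem zS_V {i : ZMod 5} {a b : C.E} (γ : Path a b) (h : ∀ t, C.π (γ t) ∈ V i) : zS C γ := by
  intro q hq
  have ha : C.π a ∈ V i := by have := h 0; rwa [γ.source] at this
  have hb : C.π b ∈ V i := by have := h 1; rwa [γ.target] at this
  have hk : C.κ i a = C.κ i b := by
    have := zkconst C γ.continuous (k := C.κ i) (fun t => C.κ_cont _ _ (h t)) 0 1
    rwa [γ.source, γ.target] at this
  obtain ⟨r, hr, hr'⟩ := hq.2 i ha
  refine zR_ofi C hb ⟨r.trans (zcl C γ), hr.trans ⟨γ.map C.cov.continuous, fun t => h t, rfl⟩, ?_⟩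
  rw [hr', hk]
  simp only [Path.Homotopic.Quotient.trans_assoc]

theorem zS_all {a b : C.E} (γ : Path a b) : zS C γ := by
  have key : ∀ s t : I, zS C (γ.subpath s t) := by
    apply PreconnectedSpace.induction₂'
    · intro s
      -- an open set around `s` on which the path stays in one chart
      have hO : ∃ O : Set I, IsOpen O ∧ s ∈ O ∧ ∀ x y, uIcc x y ⊆ O → zS C (γ.subpath x y) := by
        have hc : Continuous (fun t => C.π (γ t)) := C.cov.continuous.comp γ.continuous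
        rcases cover (C.π (γ s)) with h | ⟨i, h, -⟩
        · refine ⟨(fun t => C.π (γ t)) ⁻¹' U0, isOpen_U0.preimage hc, h, fun x y hxy => ?_⟩
          refine zS_U C _ fun t => ?_
          have : (γ.subpath x y) t ∈ Set.range (γ.subpath x y) := ⟨t, rfl⟩
          rw [Path.range_subpath] at this
          obtain ⟨u, hu, hu'⟩ := this
          rw [← hu']
          exact hxy hu
        · refine ⟨(fun t => C.π (γ t)) ⁻¹' V i, (isOpen_V i).preimage hc, h, fun x y hxy => ?_⟩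
          refine zS_V C (i := i) _ fun t => ?_
          have : (γ.subpath x y) t ∈ Set.range (γ.subpath x y) := ⟨t, rfl⟩
          rw [Path.range_subpath] at this
          obtain ⟨u, hu, hu'⟩ := this
          rw [← hu']
          exact hxy hu
      obtain ⟨O, hO, hs, hO'⟩ := hO
      obtain ⟨ε, hε, hb⟩ := Metric.isOpen_iff.1 hO s hs
      filter_upwards [Metric.ball_mem_nhds s hε] with t ht
      have hsub : uIcc s t ⊆ O := by
        intro u hu
        apply hb
        rw [Metric.mem_ball] at ht ⊢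
        rw [Subtype.dist_eq, Real.dist_eq] at ht ⊢
        have hu1 : (u : ℝ) ∈ uIcc (s : ℝ) (t : ℝ) := by
          rcases Set.mem_uIcc.1 hu with ⟨h1, h2⟩ | ⟨h1, h2⟩
          · exact Set.mem_uIcc.2 (Or.inl ⟨h1, h2⟩)
          · exact Set.mem_uIcc.2 (Or.inr ⟨h1, h2⟩)
        rcases Set.mem_uIcc.1 hu1 with ⟨h1, h2⟩ | ⟨h1, h2⟩
        · rw [abs_lt] at ht ⊢
          constructor <;> linarith [ht.1, ht.2]
        · rw [abs_lt] at ht ⊢
          constructor <;> linarith [ht.1, ht.2]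
      exact ⟨hO' s t hsub, hO' t s (by rw [uIcc_comm]; exact hsub)⟩
    · exact ⟨fun x y z h h' => zS_homotopic C ⟨Path.Homotopy.subpathTransSubpath γ x y z⟩
        (zS_trans C h h')⟩
  have h01 := key 0 1
  rw [Path.subpath_zero_one] at h01
  have cast_aux : ∀ {a b a' b' : C.E} (ha : a' = a) (hb : b' = b) (γ : Path a b),
      zS C (γ.cast ha hb) → zS C γ := by
    intro a b a' b' ha hb γ h
    subst ha
    subst hb
    exact h
  exact cast_aux _ _ γ h01

theorem zpaths {a b : C.E} (γ γ' : Path a b) : γ.Homotopic γ' := by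
  obtain ⟨q, hq⟩ := zR_ex C a
  have h1 := zS_all C γ q hq
  have h2 := zS_all C γ' q hq
  have h3 := zR_uniq C h1 h2
  have h4 : zcl C γ = zcl C γ' := by
    have := congrArg (fun r => q.symm.trans r) h3
    simpa only [← Path.Homotopic.Quotient.trans_assoc, Path.Homotopic.Quotient.symm_trans,
      Path.Homotopic.Quotient.refl_trans] using this
  rw [← Path.Homotopic.Quotient.eq]
  apply C.cov.injective_path_homotopic_map a b
  exact h4

/-! path connectedness -/

theorem zlift {a : C.E} {x : X} (p : Path (C.π a) x) :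
    ∃ (b : C.E) (γ : Path a b), ∀ t, C.π (γ t) = p t := by
  refine ⟨_, ⟨C.cov.liftPath p a p.source, C.cov.liftPath_zero _ _ _, rfl⟩, fun t => ?_⟩
  exact congrFun (C.cov.liftPath_lifts p a p.source) t

theorem zJ0 {a b : C.E} (ha : C.π a ∈ U0) (hb : C.π b ∈ U0) (hk : C.κ0 a = C.κ0 b) :
    Joined a b := by
  obtain ⟨r, p, hp, -⟩ := zIn.ex (S := zU) (fun _ hz => zU_ne hz) (C.π a) (C.π b) ha hb
  obtain ⟨b', γ, hγ⟩ := zlift C p
  have hU : ∀ t, C.π (γ t) ∈ U0 := fun t => by rw [hγ]; exact hp t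
  have hk' : C.κ0 a = C.κ0 b' := by
    have := zkconst C γ.continuous (k := C.κ0) (fun t => C.κ0_cont _ (hU t)) 0 1
    rwa [γ.source, γ.target] at this
  have hb' : C.π b' = C.π b := by have := hγ 1; rwa [γ.target, p.target] at this
  have : b' = b := C.ext0 _ _ (by rw [hb']; exact hb) hb' (hk'.symm.trans hk)
  subst this
  exact ⟨γ⟩

theorem zJi {i : ZMod 5} {a b : C.E} (ha : C.π a ∈ V i) (hb : C.π b ∈ V i)
    (hk : C.κ i a = C.κ i b) : Joined a b := by
  obtain ⟨r, p, hp, -⟩ := zIn.ex (S := zV i) (fun _ hz => zV_ne hz) (C.π a) (C.π b) ha hb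
  obtain ⟨b', γ, hγ⟩ := zlift C p
  have hU : ∀ t, C.π (γ t) ∈ V i := fun t => by rw [hγ]; exact hp t
  have hk' : C.κ i a = C.κ i b' := by
    have := zkconst C γ.continuous (k := C.κ i) (fun t => C.κ_cont _ _ (hU t)) 0 1
    rwa [γ.source, γ.target] at this
  have hb' : C.π b' = C.π b := by have := hγ 1; rwa [γ.target, p.target] at this
  have : b' = b := C.exti i _ _ (by rw [hb']; exact hb) hb' (hk'.symm.trans hk)
  subst this
  exact ⟨γ⟩

def zJG (g h : G) : Prop := ∀ a b : C.E, C.π a ∈ U0 → C.π b ∈ U0 → C.κ0 a = g → C.κ0 b = h →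
  Joined a b

theorem zJG_refl (g : G) : zJG C g g := fun a b ha hb h1 h2 => zJ0 C ha hb (h1.trans h2.symm)

theorem zJG_symm {g h : G} (H : zJG C g h) : zJG C h g := fun a b ha hb h1 h2 =>
  (H b a hb ha h2 h1).symm

theorem zJG_trans {g h k : G} (H : zJG C g h) (H' : zJG C h k) : zJG C g k := by
  intro a b ha hb h1 h2
  obtain ⟨e, he, he'⟩ := C.ex0 zx0 zx0_mem h
  have heU : C.π e ∈ U0 := by rw [he]; exact zx0_mem
  exact (H a e ha heU h1 he').trans (H' e b heU hb he' h2)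

theorem zJG_gen (g : G) (i : ZMod 5) : zJG C g (g * FreeGroup.of i) := by
  intro a b ha hb h1 h2
  have hmU : zam i ∈ U0 := zVm_subU i (zam_m i)
  have hpU : zap i ∈ U0 := zVp_subU i (zap_p i)
  have hmV : zam i ∈ V i := zVm_sub i (zam_m i)
  have hpV : zap i ∈ V i := zVp_sub i (zap_p i)
  obtain ⟨e, he, he'⟩ := C.ex0 (zam i) hmU g
  obtain ⟨f, hf, hf'⟩ := C.exi i (zap i) hpV (g * FreeGroup.of i)
  have heU : C.π e ∈ U0 := by rw [he]; exact hmU
  have heV : C.π e ∈ V i := by rw [he]; exact hmV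
  have hfU : C.π f ∈ U0 := by rw [hf]; exact hpU
  have hfV : C.π f ∈ V i := by rw [hf]; exact hpV
  have k1 : C.κ i e = g * FreeGroup.of i := by
    rw [C.rel_neg i e heV (by rw [he]; exact (zam_m i).2), he']
  have k2 : C.κ i f = C.κ0 f := C.rel_pos i f hfV (by rw [hf]; exact (zap_p i).2)
  have j1 : Joined a e := zJ0 C ha heU (h1.trans he'.symm)
  have j2 : Joined e f := zJi C heV hfV (k1.trans hf'.symm)
  have j3 : Joined f b := zJ0 C hfU hb (by rw [← k2, hf', h2])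
  exact (j1.trans j2).trans j3

theorem zJG_all (h : G) : ∀ g, zJG C g (g * h) := by
  refine FreeGroup.induction_on h ?_ ?_ ?_ ?_
  · intro g; rw [mul_one]; exact zJG_refl C g
  · intro i g; exact zJG_gen C g i
  · intro i _ g
    have := zJG_gen C (g * (FreeGroup.of i)⁻¹) i
    rw [inv_mul_cancel_right] at this
    exact zJG_symm C this
  · intro x y hx hy g
    rw [← mul_assoc]
    exact zJG_trans C (hx g) (hy _)

theorem zpc : PathConnectedSpace C.E := by
  obtain ⟨e0, he0, -⟩ := C.ex0 zx0 zx0_mem 1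
  refine ⟨⟨e0⟩, fun a b => ?_⟩
  have hU : ∀ a : C.E, ∃ a' : C.E, C.π a' ∈ U0 ∧ Joined a a' := by
    intro a
    rcases cover (C.π a) with h | ⟨i, h, -⟩
    · exact ⟨a, h, Joined.refl a⟩
    · have hpU : zap i ∈ U0 := zVp_subU i (zap_p i)
      have hpV : zap i ∈ V i := zVp_sub i (zap_p i)
      obtain ⟨f, hf, hf'⟩ := C.exi i (zap i) hpV (C.κ i a)
      exact ⟨f, by rw [hf]; exact hpU, zJi C h (by rw [hf]; exact hpV) hf'.symm⟩
  obtain ⟨a', ha', ja⟩ := hU a
  obtain ⟨b', hb', jb⟩ := hU b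
  have := zJG_all C ((C.κ0 a')⁻¹ * C.κ0 b') (C.κ0 a')
  rw [mul_inv_cancel_left] at this
  exact (ja.trans (this a' b' ha' hb' rfl rfl)).trans jb.symm

theorem simplyConnected (C : Cov) : SimplyConnectedSpace C.E := by
  haveI := zpc C
  rw [simply_connected_iff_paths_homotopic']
  exact ⟨zpc C, fun _ _ => zpaths C _ _⟩

end
end Pool.Agent.Helper328.MT
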