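import Mathlib
import Pool.Agent.Helper328.MT.Code
import Pool.Agent.Helper328.MT.FH
import Pool.Agent.Helper328.MT.SC
set_option autoImplicit false
open scoped ContDiff Topology unitInterval
open Set Filter

namespace Pool.Agent.Helper328.MT
noncomputable section

theorem hc_cast {Y : Type} [TopologicalSpace Y] {x y y' : Y} (h : y' = y) (p q : Path x y)
    (hpq : p.Homotopic q) : (p.cast rfl h).Homotopic (q.cast rfl h) := by
  subst h
  exact hpq

/-- loops with the same code are freely homotopic -/
theorem homotopy_of_code (C : Cov) (γ δ : ℝ → X) (w : G) (h : HasCode C γ w)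
    (h' : HasCode C δ w) :
    ∃ H : C(I × I, X), (∀ t : I, H (0, t) = γ t) ∧ (∀ t : I, H (1, t) = δ t) ∧
      ∀ s, H (s, 0) = H (s, 1) := by
  obtain ⟨g, hg, hgπ, hgw⟩ := h
  obtain ⟨k, hk, hkπ, hkw⟩ := h'
  have hsc : SimplyConnectedSpace C.E := simplyConnected C
  have hπ : Continuous C.π := C.cov.continuous
  have c : Path (g 0) (k 0) := PathConnectedSpace.somePath (g 0) (k 0)
  let a : Path (g 0) (g 1) :=
    { toFun := fun t : I => g t
      continuous_toFun := hg.comp continuous_subtype_val
      source' := by simp
      target' := by simp }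
  let b : Path (k 0) (k 1) :=
    { toFun := fun t : I => k t
      continuous_toFun := hk.comp continuous_subtype_val
      source' := by simp
      target' := by simp }
  have hg1 : g 1 = w • g 0 := by
    have := hgw 0
    rw [zero_add] at this
    exact this
  have hk1 : k 1 = w • k 0 := by
    have := hkw 0
    rw [zero_add] at this
    exact this
  let cw : Path (g 1) (k 1) :=
    { toFun := fun t : I => w • c t
      continuous_toFun := (C.smul_cont w).comp c.continuous
      source' := by
        show w • c 0 = g 1
        rw [c.source, hg1]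
      target' := by
        show w • c 1 = k 1
        rw [c.target, hk1] }
  have hhom : (a.trans cw).Homotopic (c.trans b) := SimplyConnectedSpace.paths_homotopic _ _
  have e1 : C.π (g 0) = C.π (g 1) := by rw [hg1, C.π_smul]
  have e2 : C.π (k 0) = C.π (k 1) := by rw [hk1, C.π_smul]
  have hmap : ((a.trans cw).map hπ).Homotopic ((c.trans b).map hπ) := hhom.map ⟨C.π, hπ⟩
  have hmap2 := hc_cast e2 _ _ hmap
  have f1 : ((a.trans cw).map hπ).cast rfl e2 =
      (((a.map hπ).cast rfl e1).trans (c.map hπ)) := by
    apply Path.ext
    funext t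
    rw [Path.map_trans]
    show ((a.map hπ).trans (cw.map hπ)) t = _
    rw [Path.trans_apply, Path.trans_apply]
    split_ifs with ht
    · rfl
    · exact C.π_smul w _
  have f2 : ((c.trans b).map hπ).cast rfl e2 =
      ((c.map hπ).trans ((b.map hπ).cast rfl e2)) := by
    apply Path.ext
    funext t
    rw [Path.map_trans]
    show ((c.map hπ).trans (b.map hπ)) t = _
    rw [Path.trans_apply, Path.trans_apply]
    split_ifs with ht
    · rfl
    · rfl
  rw [f1, f2] at hmap2
  obtain ⟨H, H0, H1, H2⟩ := free_homotopy _ _ _ hmap2
  refine ⟨H, ?_, ?_, H2⟩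
  · intro t
    rw [H0]
    exact hgπ t
  · intro t
    rw [H1]
    exact hkπ t

end
end Pool.Agent.Helper328.MT
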