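import Mathlib
import Pool.Agent.Helper328.MT.Defs

/-! Mapping class groups of planar surfaces: the definitions. -/

set_option autoImplicit false
open scoped ContDiff Topology unitInterval
open Set Filter

namespace Pool.Agent.Helper328.MT
noncomputable section

/-! ### Diffeomorphisms and isotopies of a planar surface `S ⊆ ℂ` -/

instance (S : Set ℂ) : (Diff0 S).Normal := Subgroup.normalClosure_normal

/-! ### Circles -/

/-! ### Dehn twists and multi-twists -/

/-! ### The Nielsen–Thurston trichotomy -/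

/-! ### The question -/

/-! ### The surface of the counterexample -/

/-- a diffeomorphism as a continuous map -/
def cmD {S : Set ℂ} (d : Diff S) : C(S, S) where
  toFun := fun x => (d : Equiv.Perm S) x
  continuous_toFun := by
    obtain ⟨U, F, hU, hS, hF, hFe⟩ := d.2.1
    have h1 : Continuous (fun x : S => F x) :=
      (hF.continuousOn.mono hS).comp_continuous continuous_subtype_val (fun x => x.2)
    refine Continuous.subtype_mk (f := fun x : S => ((d : Equiv.Perm S) x : ℂ)) ?_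
      (fun x => ((d : Equiv.Perm S) x).2)
    have h2 : (fun x : S => ((d : Equiv.Perm S) x : ℂ)) = fun x : S => F x := by
      funext x
      exact (hFe x).symm
    rw [h2]
    exact h1

theorem cmD_mul {S : Set ℂ} (a b : Diff S) : cmD (a * b) = (cmD a).comp (cmD b) := rfl

theorem cmD_one {S : Set ℂ} : cmD (1 : Diff S) = ContinuousMap.id S := rfl

theorem cmD_inv_mul {S : Set ℂ} (a : Diff S) : (cmD a⁻¹).comp (cmD a) = ContinuousMap.id S := by
  rw [← cmD_mul, inv_mul_cancel, cmD_one]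

/-- diffeomorphisms homotopic to the identity -/
def hidD (S : Set ℂ) : Subgroup (Diff S) where
  carrier := {d | ContinuousMap.Homotopic (ContinuousMap.id S) (cmD d)}
  mul_mem' := by
    intro a b ha hb
    show ContinuousMap.Homotopic (ContinuousMap.id S) (cmD (a * b))
    rw [cmD_mul]
    exact ContinuousMap.Homotopic.comp ha hb
  one_mem' := by
    show ContinuousMap.Homotopic (ContinuousMap.id S) (cmD 1)
    rw [cmD_one]
  inv_mem' := by
    intro a ha
    have h1 : ContinuousMap.Homotopic ((cmD a⁻¹).comp (ContinuousMap.id S))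
        ((cmD a⁻¹).comp (cmD a)) :=
      ContinuousMap.Homotopic.comp (ContinuousMap.Homotopic.refl _) ha
    rw [cmD_inv_mul] at h1
    exact h1.symm

instance (S : Set ℂ) : (hidD S).Normal where
  conj_mem := by
    intro n hn g
    show ContinuousMap.Homotopic (ContinuousMap.id S) (cmD (g * n * g⁻¹))
    have h1 : ContinuousMap.Homotopic (((cmD g).comp (ContinuousMap.id S)).comp (cmD g⁻¹))
        (((cmD g).comp (cmD n)).comp (cmD g⁻¹)) :=
      ContinuousMap.Homotopic.comp
        (ContinuousMap.Homotopic.comp (ContinuousMap.Homotopic.refl _) hn)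
        (ContinuousMap.Homotopic.refl _)
    have h2 : ((cmD g).comp (ContinuousMap.id S)).comp (cmD g⁻¹) = ContinuousMap.id S := by
      rw [ContinuousMap.comp_id, ← cmD_mul, mul_inv_cancel, cmD_one]
    rw [h2] at h1
    exact h1

theorem isotopic_hidD (S : Set ℂ) (e : Diff S) (he : IsotopicToId S e) : e ∈ hidD S := by
  obtain ⟨U, H, hU, hsub, hH, hd, h0, h1⟩ := he
  have hmem : ∀ (t : I) (x : S), H ((t : ℝ), (x : ℂ)) ∈ S := by
    intro t x
    obtain ⟨d, hd'⟩ := hd t t.2
    rw [hd' x]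
    exact ((d : Equiv.Perm S) x).2
  have hc : Continuous (fun p : I × S => H ((p.1 : ℝ), (p.2 : ℂ))) :=
    (hH.continuousOn.mono hsub).comp_continuous (by fun_prop) (fun p => ⟨p.1.2, p.2.2⟩)
  exact ⟨{
    toFun := fun p => ⟨H ((p.1 : ℝ), (p.2 : ℂ)), hmem p.1 p.2⟩
    continuous_toFun := hc.subtype_mk _
    map_zero_left := fun x => Subtype.ext (h0 x)
    map_one_left := fun x => Subtype.ext (h1 x) }⟩

/-- diffeomorphisms in the identity component are homotopic to the identity -/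
theorem diff0_homotopy (S : Set ℂ) (d : Diff S) (hd : d ∈ Diff0 S) :
    ∃ H : C(I × S, S), (∀ x, H (0, x) = x) ∧ ∀ x, H (1, x) = (d : Equiv.Perm S) x := by
  have h1 : Diff0 S ≤ hidD S :=
    Subgroup.normalClosure_le_normal (fun e he => isotopic_hidD S e he)
  obtain ⟨F⟩ := h1 hd
  exact ⟨F.toContinuousMap, fun x => F.apply_zero x, fun x => F.apply_one x⟩

theorem exists_disjoint_of_geomInt (S : Set ℂ) (C D : Set S) (h : geomInt S C D = 0) :
    ∃ d ∈ Diff0 S, Disjoint (img d C) D := by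
  unfold geomInt at h
  rw [ENat.iInf_eq_zero] at h
  obtain ⟨⟨C', a, ha, hC'⟩, h⟩ := h
  rw [ENat.iInf_eq_zero] at h
  obtain ⟨⟨D', b, hb, hD'⟩, h⟩ := h
  rw [Set.encard_eq_zero] at h
  refine ⟨b⁻¹ * a, (Diff0 S).mul_mem ((Diff0 S).inv_mem hb) ha, ?_⟩
  rw [Set.disjoint_left]
  rintro x ⟨c, hc, hcx⟩ hx
  have h1 : (b : Equiv.Perm S) x = (a : Equiv.Perm S) c := by
    rw [← hcx]
    show (b : Equiv.Perm S) ((b : Equiv.Perm S)⁻¹ ((a : Equiv.Perm S) c)) = _
    exact (b : Equiv.Perm S).apply_symm_apply _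
  have h2 : (a : Equiv.Perm S) c ∈ C' ∩ D' := by
    constructor
    · rw [hC']
      exact ⟨c, hc, rfl⟩
    · rw [hD', ← h1]
      exact ⟨x, hx, rfl⟩
  rw [h] at h2
  exact h2

/-- a free homotopy of a parametrisation descends to the circle -/
theorem deforms_of_homotopy (S : Set ℂ) (C : Set S) (γ : ℝ → ℂ) (hc : Continuous γ)
    (hγ : ∀ s t, γ s = γ t ↔ ∃ n : ℤ, t = s + n) (hr : range γ = Subtype.val '' C)
    (K : I × I → ℂ) (hK : Continuous K) (hKS : ∀ p, K p ∈ S) (h0 : ∀ t : I, K (0, t) = γ t)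
    (h1 : ∀ t : I, K (1, t) ∈ frontier S) (hper : ∀ s, K (s, 0) = K (s, 1)) :
    DeformsIntoBoundary S C := by
  classical
  set C₀ : Set ℂ := Subtype.val '' C with hC₀
  have hex : ∀ z ∈ C₀, ∃ t : I, γ t = z := by
    intro z hz
    rw [← hr] at hz
    obtain ⟨s, rfl⟩ := hz
    refine ⟨⟨Int.fract s, Int.fract_nonneg s, (Int.fract_lt_one s).le⟩, ?_⟩
    rw [hγ]
    exact ⟨⌊s⌋, (Int.fract_add_floor s).symm⟩
  have hfib : ∀ (s t t' : I), γ t = γ t' → K (s, t) = K (s, t') := by
    intro s t t' htt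
    obtain ⟨n, hn⟩ := (hγ _ _).1 htt
    have a1 := t.2.1
    have a2 := t.2.2
    have b1 := t'.2.1
    have b2 := t'.2.2
    have hn1 : n ≤ 1 := by
      have : (n : ℝ) ≤ 1 := by linarith
      exact_mod_cast this
    have hn2 : -1 ≤ n := by
      have : (-1 : ℝ) ≤ n := by linarith
      exact_mod_cast this
    have hcases : n = -1 ∨ n = 0 ∨ n = 1 := by omega
    rcases hcases with rfl | rfl | rfl
    · push_cast at hn
      have e1 : t = 1 := Subtype.ext (by show (t : ℝ) = 1; linarith)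
      have e2 : t' = 0 := Subtype.ext (by show (t' : ℝ) = 0; linarith)
      rw [e1, e2, hper]
    · push_cast at hn
      have e1 : t' = t := Subtype.ext (by linarith)
      rw [e1]
    · push_cast at hn
      have e1 : t = 0 := Subtype.ext (by show (t : ℝ) = 0; linarith)
      have e2 : t' = 1 := Subtype.ext (by show (t' : ℝ) = 1; linarith)
      rw [e1, e2, hper]
  let H : ℝ × ℂ → ℂ := fun p =>
    if h : p.1 ∈ Icc (0 : ℝ) 1 ∧ ∃ t : I, γ t = p.2 then K (⟨p.1, h.1⟩, h.2.choose) else 0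
  have hHK : ∀ (s t : I), H ((s : ℝ), γ t) = K (s, t) := by
    intro s t
    have hh : ((s : ℝ), γ t).1 ∈ Icc (0 : ℝ) 1 ∧ ∃ t' : I, γ t' = ((s : ℝ), γ t).2 :=
      ⟨s.2, t, rfl⟩
    show (if h : ((s : ℝ), γ t).1 ∈ Icc (0 : ℝ) 1 ∧ ∃ t' : I, γ t' = ((s : ℝ), γ t).2 then
      K (⟨((s : ℝ), γ t).1, h.1⟩, h.2.choose) else 0) = K (s, t)
    rw [dif_pos hh]
    exact hfib s _ _ hh.2.choose_spec
  refine ⟨H, ?_, ?_, ?_, ?_⟩
  · rw [continuousOn_iff_continuous_domRestrict]
    have hmem : ∀ p : I × I, ((p.1 : ℝ), γ p.2) ∈ Icc (0 : ℝ) 1 ×ˢ C₀ := by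
      intro p
      refine ⟨p.1.2, ?_⟩
      show γ p.2 ∈ C₀
      rw [← hr]
      exact ⟨_, rfl⟩
    let q : I × I → (Icc (0 : ℝ) 1 ×ˢ C₀ : Set (ℝ × ℂ)) := fun p => ⟨((p.1 : ℝ), γ p.2), hmem p⟩
    have hq : Continuous q := by
      refine Continuous.subtype_mk ?_ _
      exact (continuous_subtype_val.comp continuous_fst).prodMk
        (hc.comp (continuous_subtype_val.comp continuous_snd))
    have hsurj : Function.Surjective q := by
      rintro ⟨⟨s, z⟩, hs, hz⟩
      obtain ⟨t, ht⟩ := hex z hz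
      exact ⟨(⟨s, hs⟩, t), Subtype.ext (Prod.ext rfl ht)⟩
    have hquot : Topology.IsQuotientMap q := hq.isClosedMap.isQuotientMap hq hsurj
    rw [hquot.continuous_iff]
    change Continuous (fun p : I × I => H ((p.1 : ℝ), γ p.2))
    rw [show (fun p : I × I => H ((p.1 : ℝ), γ p.2)) = K from funext fun p => hHK p.1 p.2]
    exact hK
  · intro s hs x hx
    obtain ⟨t, ht⟩ := hex (x : ℂ) ⟨x, hx, rfl⟩
    rw [← ht]
    have := hHK ⟨s, hs⟩ t
    rw [show H (s, γ t) = K (⟨s, hs⟩, t) from this]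
    exact hKS _
  · intro x hx
    obtain ⟨t, ht⟩ := hex (x : ℂ) ⟨x, hx, rfl⟩
    rw [← ht]
    have := hHK 0 t
    rw [show H (0, γ t) = K (0, t) from this]
    exact h0 t
  · intro x hx
    obtain ⟨t, ht⟩ := hex (x : ℂ) ⟨x, hx, rfl⟩
    rw [← ht]
    have := hHK 1 t
    rw [show H (1, γ t) = K (1, t) from this]
    exact h1 t

end
end Pool.Agent.Helper328.MT
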