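import Mathlib
import Pool.Agent.Helper328.MT.Code
set_option autoImplicit false
open scoped ContDiff Topology unitInterval
open Set Filter

namespace Pool.Agent.Helper328.MT
noncomputable section

theorem rnm_re_lt (d : ZMod 5) (h0 : d ≠ 0) (h1 : d ≠ 1) :
    (ctr (-d)).re + (ctr (1 - d)).re < 0 := by
  have hd : ∀ d : ZMod 5, d = 0 ∨ d = 1 ∨ d = 2 ∨ d = 3 ∨ d = 4 := by decide
  have b12 := ctr_one_two_re
  have b2 := ctr_two_bounds
  rcases hd d with rfl | rfl | rfl | rfl | rfl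
  · exact absurd rfl h0
  · exact absurd rfl h1
  · have e1 : (1 - 2 : ZMod 5) = -1 := by decide
    rw [e1, ctr_neg, ctr_neg, Complex.conj_re, Complex.conj_re]
    linarith
  · have e1 : (-3 : ZMod 5) = 2 := by decide
    have e2 : (1 - 3 : ZMod 5) = -2 := by decide
    rw [e1, e2, ctr_neg, Complex.conj_re]
    linarith [b2.2.1]
  · have e1 : (-4 : ZMod 5) = 1 := by decide
    have e2 : (1 - 4 : ZMod 5) = 2 := by decide
    rw [e1, e2]
    linarith

/-- the disc of radius `4/5` about `cen i` meets only the rays `i` and `i+1` -/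
theorem ray_not_mem (i j : ZMod 5) (z : ℂ) (h : ‖z - cen i‖ < 4 / 5) (hj : j ≠ i)
    (hj' : j ≠ i + 1) : ¬ (cim j z = 0 ∧ 1 ≤ cre j z) := by
  rintro ⟨hc, hr⟩
  have hd0 : j - i ≠ 0 := sub_ne_zero.mpr hj
  have hd1 : j - i ≠ 1 := by
    intro e
    apply hj'
    rw [← e]
    ring
  have hlt := rnm_re_lt (j - i) hd0 hd1
  -- `ctr i * conj (ctr j) = ctr (-(j-i))`
  have e1 : ctr i * (starRingEnd ℂ) (ctr j) = ctr (-(j - i)) := by
    rw [← ctr_neg, ← ctr_add]
    congr 1
    ring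
  have e2 : ctr (i + 1) * (starRingEnd ℂ) (ctr j) = ctr (1 - (j - i)) := by
    rw [← ctr_neg, ← ctr_add]
    congr 1
    ring
  -- coordinates of `z - cen i` in direction `j`
  have e3 : cre j (z - cen i) = cre j z -
      3 / 5 * ((ctr (-(j - i))).re + (ctr (1 - (j - i))).re) := by
    unfold cre cen
    have : (z - 3 / 5 * (ctr i + ctr (i + 1))) * (starRingEnd ℂ) (ctr j) =
        z * (starRingEnd ℂ) (ctr j) - (3 / 5 : ℂ) * (ctr (-(j - i)) + ctr (1 - (j - i))) := by
      rw [← e1, ← e2]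
      ring
    rw [this, Complex.sub_re]
    have h35 : (3 / 5 : ℂ) = ((3 / 5 : ℝ) : ℂ) := by push_cast; rfl
    rw [h35, Complex.re_ofReal_mul, Complex.add_re]
  have e4 := normSq_eq j (z - cen i)
  have e5 : (1 : ℝ) ≤ cre j (z - cen i) := by
    rw [e3]
    linarith
  have e6 : ‖z - cen i‖ ^ 2 < (4 / 5) ^ 2 := by
    apply pow_lt_pow_left₀ h (norm_nonneg _) (by norm_num)
  nlinarith [sq_nonneg (cim j (z - cen i))]

theorem code_in (C : Cov) (i : ZMod 5) (γ : ℝ → X) (hγ : ∀ t, ‖(γ t : ℂ) - cen i‖ < 4 / 5)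
    (w : G) (h : HasCode C γ w) :
    ∃ u ∈ Subgroup.closure ({FreeGroup.of i, FreeGroup.of (i + 1)} : Set G), IsConj w u := by
  classical
  obtain ⟨K, hK⟩ : ∃ K : Subgroup G,
      K = Subgroup.closure ({FreeGroup.of i, FreeGroup.of (i + 1)} : Set G) := ⟨_, rfl⟩
  rw [← hK]
  have hKi : FreeGroup.of i ∈ K := by
    rw [hK]; exact Subgroup.subset_closure (by simp)
  have hKi' : FreeGroup.of (i + 1) ∈ K := by
    rw [hK]; exact Subgroup.subset_closure (by simp)
  have hne : i ≠ i + 1 := by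
    intro e
    have : (0 : ZMod 5) = 1 := by
      have := congrArg (fun x => x - i) e
      simpa using this
    exact absurd this (by decide)
  let Y : Set X := {z | ‖(z : ℂ) - cen i‖ < 4 / 5}
  let F : C.E → G ⧸ K := fun e =>
    if C.π e ∈ U0 then ((C.κ0 e : G) : G ⧸ K)
    else if C.π e ∈ V i then ((C.κ i e : G) : G ⧸ K) else ((C.κ (i + 1) e : G) : G ⧸ K)
  -- outside `U0` we are on the ray `i` or `i+1`
  have hcov : ∀ z : X, z ∈ Y → z ∉ U0 → z ∈ V i ∨ z ∈ V (i + 1) := by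
    intro z hz hz0
    rcases cover z with h0 | ⟨j, hj, hj0⟩
    · exact absurd h0 hz0
    · by_cases h1 : j = i
      · left; rw [← h1]; exact hj
      · by_cases h2 : j = i + 1
        · right; rw [← h2]; exact hj
        · exfalso
          apply ray_not_mem i j z hz h1 h2
          refine ⟨hj0, ?_⟩
          have h3 : 2 * |cim j z| < cre j z - 1 := hj
          have h4 := abs_nonneg (cim j z)
          linarith
  -- near the ray `j`
  have hnear : ∀ (j : ZMod 5), FreeGroup.of j ∈ K → ∀ e', C.π e' ∈ V j → C.π e' ∈ U0 →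
      ((C.κ0 e' : G) : G ⧸ K) = ((C.κ j e' : G) : G ⧸ K) := by
    intro j hj e' h1 h2
    have h3 := (mem_U0_of_mem_V j (C.π e') h1).mp h2
    rcases lt_or_gt_of_ne h3 with h4 | h4
    · rw [C.rel_neg j e' h1 h4, QuotientGroup.eq]
      rw [inv_mul_cancel_left]
      exact hj
    · rw [C.rel_pos j e' h1 h4]
  have hcont : Continuous C.π := C.cov.continuous
  apply code_mem_of_locConst C Y K F ?_ ?_ γ hγ w h
  · intro e he
    suffices hsuff : ∀ᶠ e' in 𝓝 e, F e' = F e from hsuff.mono (fun e' h _ => h)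
    by_cases h0 : C.π e ∈ U0
    · have hU : ∀ᶠ e' in 𝓝 e, C.π e' ∈ U0 :=
        hcont.continuousAt.eventually (isOpen_U0.mem_nhds h0)
      filter_upwards [hU, C.κ0_cont e h0] with e' h1 h2
      show (if C.π e' ∈ U0 then ((C.κ0 e' : G) : G ⧸ K)
        else if C.π e' ∈ V i then ((C.κ i e' : G) : G ⧸ K) else ((C.κ (i + 1) e' : G) : G ⧸ K))
        = (if C.π e ∈ U0 then ((C.κ0 e : G) : G ⧸ K)
        else if C.π e ∈ V i then ((C.κ i e : G) : G ⧸ K) else ((C.κ (i + 1) e : G) : G ⧸ K))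
      rw [if_pos h1, if_pos h0, h2]
    · rcases hcov _ he h0 with h1 | h1
      · have hV : ∀ᶠ e' in 𝓝 e, C.π e' ∈ V i :=
          hcont.continuousAt.eventually ((isOpen_V i).mem_nhds h1)
        filter_upwards [hV, C.κ_cont i e h1] with e' h2 h3
        show (if C.π e' ∈ U0 then ((C.κ0 e' : G) : G ⧸ K)
          else if C.π e' ∈ V i then ((C.κ i e' : G) : G ⧸ K) else ((C.κ (i + 1) e' : G) : G ⧸ K))
          = (if C.π e ∈ U0 then ((C.κ0 e : G) : G ⧸ K)
          else if C.π e ∈ V i then ((C.κ i e : G) : G ⧸ K) else ((C.κ (i + 1) e : G) : G ⧸ K))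
        rw [if_neg h0, if_pos h1, if_pos h2]
        by_cases h4 : C.π e' ∈ U0
        · rw [if_pos h4, hnear i hKi e' h2 h4, h3]
        · rw [if_neg h4, h3]
      · have h1' : C.π e ∉ V i := fun h5 =>
          Set.disjoint_left.mp (V_disjoint i (i + 1) hne) h5 h1
        have hV : ∀ᶠ e' in 𝓝 e, C.π e' ∈ V (i + 1) :=
          hcont.continuousAt.eventually ((isOpen_V (i + 1)).mem_nhds h1)
        filter_upwards [hV, C.κ_cont (i + 1) e h1] with e' h2 h3
        have h2' : C.π e' ∉ V i := fun h5 =>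
          Set.disjoint_left.mp (V_disjoint i (i + 1) hne) h5 h2
        show (if C.π e' ∈ U0 then ((C.κ0 e' : G) : G ⧸ K)
          else if C.π e' ∈ V i then ((C.κ i e' : G) : G ⧸ K) else ((C.κ (i + 1) e' : G) : G ⧸ K))
          = (if C.π e ∈ U0 then ((C.κ0 e : G) : G ⧸ K)
          else if C.π e ∈ V i then ((C.κ i e : G) : G ⧸ K) else ((C.κ (i + 1) e : G) : G ⧸ K))
        rw [if_neg h0, if_neg h1', if_neg h2']
        by_cases h4 : C.π e' ∈ U0
        · rw [if_pos h4, hnear (i + 1) hKi' e' h2 h4, h3]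
        · rw [if_neg h4, h3]
  · intro g e he
    show (if C.π (g • e) ∈ U0 then ((C.κ0 (g • e) : G) : G ⧸ K)
      else if C.π (g • e) ∈ V i then ((C.κ i (g • e) : G) : G ⧸ K)
        else ((C.κ (i + 1) (g • e) : G) : G ⧸ K))
      = g • (if C.π e ∈ U0 then ((C.κ0 e : G) : G ⧸ K)
      else if C.π e ∈ V i then ((C.κ i e : G) : G ⧸ K) else ((C.κ (i + 1) e : G) : G ⧸ K))
    rw [C.π_smul]
    by_cases h0 : C.π e ∈ U0
    · rw [if_pos h0, if_pos h0, C.κ0_smul g e h0]
      rfl
    · rw [if_neg h0, if_neg h0]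
      by_cases h1 : C.π e ∈ V i
      · rw [if_pos h1, if_pos h1, C.κ_smul i g e h1]
        rfl
      · have h2 : C.π e ∈ V (i + 1) := by
          rcases hcov _ he h0 with h3 | h3
          · exact absurd h3 h1
          · exact h3
        rw [if_neg h1, if_neg h1, C.κ_smul (i + 1) g e h2]
        rfl

end
end Pool.Agent.Helper328.MT
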