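import Mathlib
import Pool.Agent.Helper328.MT.Code
set_option autoImplicit false
open scoped ContDiff Topology unitInterval
open Set Filter

namespace Pool.Agent.Helper328.MT
noncomputable section

/-- the open region beyond the chord between the rays `i` and `i+1`:
`{a * ctr i + b * ctr (i+1) : a, b > 0, a + b > 1}` -/
def W (i : ZMod 5) : Set ℂ :=
  {z | 0 < cim i z ∧ cim (i + 1) z < 0 ∧ (ctr 1).im < cim i z - cim (i + 1) z}



theorem cc_mul (i k : ZMod 5) (z : ℂ) :
    z * (starRingEnd ℂ) (ctr i) = (z * (starRingEnd ℂ) (ctr (i + k))) * ctr k := by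
  rw [ctr_add, map_mul]
  have h := ctr_mul_conj k
  calc z * (starRingEnd ℂ) (ctr i) = z * (starRingEnd ℂ) (ctr i) * 1 := by ring
    _ = z * (starRingEnd ℂ) (ctr i) * (ctr k * (starRingEnd ℂ) (ctr k)) := by rw [h]
    _ = _ := by ring

theorem cc_im (i k : ZMod 5) (z : ℂ) :
    cim i z = cre (i + k) z * (ctr k).im + cim (i + k) z * (ctr k).re := by
  unfold cim cre
  rw [cc_mul i k z, Complex.mul_im]

theorem cc_re (i k : ZMod 5) (z : ℂ) :
    cre i z = cre (i + k) z * (ctr k).re - cim (i + k) z * (ctr k).im := by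
  unfold cim cre
  rw [cc_mul i k z, Complex.mul_re]

theorem cc_sq : (ctr 1).re ^ 2 + (ctr 1).im ^ 2 = 1 := by
  have h := norm_ctr 1
  have h2 := Complex.sq_norm (ctr 1)
  rw [h, Complex.normSq_apply] at h2
  nlinarith

/-- coordinates with respect to `i+1` in terms of those with respect to `i` -/
theorem cc_im' (i : ZMod 5) (z : ℂ) :
    cim (i + 1) z = cim i z * (ctr 1).re - cre i z * (ctr 1).im := by
  have h1 := cc_im i 1 z
  have h2 := cc_re i 1 z
  have h3 := cc_sq
  rw [h1, h2]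
  linear_combination (-cim (i+1) z) * h3

theorem W_of_mem_V_left (i : ZMod 5) (z : X) (h : z ∈ V i) : (z : ℂ) ∈ W i ↔ 0 < cim i z := by
  constructor
  · intro hw
    exact hw.1
  · intro hy
    have hV : 2 * |cim i z| < cre i z - 1 := h
    rw [abs_of_pos hy] at hV
    obtain ⟨c1, c2, s1, s2⟩ := ctr_one_bounds
    refine ⟨hy, ?_, ?_⟩
    · rw [cc_im']
      nlinarith
    · rw [cc_im']
      nlinarith

theorem W_of_mem_V_right (i : ZMod 5) (z : X) (h : z ∈ V (i + 1)) :
    (z : ℂ) ∈ W i ↔ cim (i + 1) z < 0 := by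
  constructor
  · intro hw
    exact hw.2.1
  · intro hy
    have hV : 2 * |cim (i + 1) z| < cre (i + 1) z - 1 := h
    rw [abs_of_neg hy] at hV
    obtain ⟨c1, c2, s1, s2⟩ := ctr_one_bounds
    refine ⟨?_, hy, ?_⟩
    · rw [cc_im i 1]
      nlinarith
    · rw [cc_im i 1]
      nlinarith

theorem W_of_mem_V_other (i j : ZMod 5) (z : X) (hj : j ≠ i) (hj' : j ≠ i + 1) (h : z ∈ V j) :
    (z : ℂ) ∉ W i := by
  rintro ⟨w1, w2, w3⟩
  have hV : 2 * |cim j z| < cre j z - 1 := h
  have h1 := le_abs_self (cim j z)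
  have h2 := neg_abs_le (cim j z)
  have h0 := abs_nonneg (cim j z)
  obtain ⟨c1, c2, s1, s2⟩ := ctr_one_bounds
  obtain ⟨d1, d2, t1, t2⟩ := ctr_two_bounds
  have key : ∀ i j : ZMod 5, j ≠ i → j ≠ i + 1 → j = i + 1 + 1 ∨ j = i + (-2) ∨ j = i + (-1) := by decide
  rcases key i j hj hj' with rfl | rfl | rfl
  · rw [cc_im (i + 1) 1] at w2
    have a1 : 0 ≤ |cim (i + 1 + 1) z| := abs_nonneg _
    have e1 : -(|cim (i + 1 + 1) z| * (ctr 1).re) ≤ cim (i + 1 + 1) z * (ctr 1).re := by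
      have := mul_le_mul_of_nonneg_right h2 (by linarith : (0:ℝ) ≤ (ctr 1).re)
      linarith
    have e2 : (1 + 2 * |cim (i + 1 + 1) z|) * (ctr 1).im ≤ cre (i + 1 + 1) z * (ctr 1).im :=
      mul_le_mul_of_nonneg_right (by linarith) (by linarith)
    nlinarith
  · rw [cc_im i (-2)] at w1
    rw [ctr_neg, Complex.conj_re, Complex.conj_im] at w1
    have a1 : 0 ≤ |cim (i + -2) z| := abs_nonneg _
    have e1 : cim (i + -2) z * (ctr 2).re ≤ |cim (i + -2) z| * (-(ctr 2).re) := by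
      have := mul_le_mul_of_nonneg_right h2 (by linarith : (0:ℝ) ≤ -(ctr 2).re)
      linarith
    have e2 : (1 + 2 * |cim (i + -2) z|) * (ctr 2).im ≤ cre (i + -2) z * (ctr 2).im :=
      mul_le_mul_of_nonneg_right (by linarith) (by linarith)
    nlinarith
  · rw [cc_im i (-1)] at w1
    rw [ctr_neg, Complex.conj_re, Complex.conj_im] at w1
    have a1 : 0 ≤ |cim (i + -1) z| := abs_nonneg _
    have e1 : cim (i + -1) z * (ctr 1).re ≤ |cim (i + -1) z| * (ctr 1).re :=
      mul_le_mul_of_nonneg_right h1 (by linarith)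
    have e2 : (1 + 2 * |cim (i + -1) z|) * (ctr 1).im ≤ cre (i + -1) z * (ctr 1).im :=
      mul_le_mul_of_nonneg_right (by linarith) (by linarith)
    nlinarith

theorem cim_cont (i : ZMod 5) : Continuous (fun z : X => cim i z) := by
  unfold cim
  exact Complex.continuous_im.comp (continuous_subtype_val.mul continuous_const)

theorem cre_sub' (i : ZMod 5) (z w : ℂ) : cre i (z - w) = cre i z - cre i w := by
  unfold cre; rw [sub_mul, Complex.sub_re]

theorem cim_sub' (i : ZMod 5) (z w : ℂ) : cim i (z - w) = cim i z - cim i w := by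
  unfold cim; rw [sub_mul, Complex.sub_im]

theorem cen_coord (i : ZMod 5) : cre i (cen i) = 3 / 5 * (1 + (ctr 1).re) ∧ cim i (cen i) = 3 / 5 * (ctr 1).im := by
  have h : cen i * (starRingEnd ℂ) (ctr i) = ((3 / 5 : ℝ) : ℂ) * (1 + ctr 1) := by
    unfold cen
    rw [ctr_add]
    have := ctr_mul_conj i
    push_cast
    linear_combination (3 / 5 * (1 + ctr 1)) * this
  unfold cre cim
  rw [h, Complex.re_ofReal_mul, Complex.im_ofReal_mul]
  simp

theorem W_aux (c s x y : ℝ) (hsq : c ^ 2 + s ^ 2 = 1) (c1 : 309 / 1000 < c) (c2 : c < 3091 / 10000)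
    (s1 : 951 / 1000 < s) (h1 : s = y - (y * c - x * s)) (a1 : 0 ≤ y) (a2 : y * c - x * s ≤ 0)
    (hlt : (4 / 5 : ℝ) ^ 2 < (x - 3 / 5 * (1 + c)) ^ 2 + (y - 3 / 5 * s) ^ 2) : False := by
  obtain ⟨b, hb⟩ : ∃ b, b = y / s := ⟨_, rfl⟩
  have hs0 : 0 < s := by linarith
  have hyb : y = b * s := by rw [hb]; field_simp
  have hb0 : 0 ≤ b := by rw [hb]; positivity
  have hxb : x = 1 - b * (1 - c) := by
    have e1 : (x - (1 - b * (1 - c))) * s = 0 := by
      rw [hyb] at h1
      linear_combination -h1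
    have := (mul_eq_zero.1 e1).resolve_right hs0.ne'
    linarith
  have hb1 : b ≤ 1 := by
    rw [hyb, hxb] at a2
    have e1 : (b - 1) * s ≤ 0 := by nlinarith
    by_contra hcon
    push Not at hcon
    have := mul_pos (sub_pos.2 hcon) hs0
    linarith
  rw [hxb, hyb] at hlt
  have hs2 : s ^ 2 = 1 - c ^ 2 := by linarith
  have e3 : (1 - b * (1 - c) - 3 / 5 * (1 + c)) ^ 2 + (b * s - 3 / 5 * s) ^ 2 =
      (1 - b * (1 - c) - 3 / 5 * (1 + c)) ^ 2 + (b - 3 / 5) ^ 2 * (1 - c ^ 2) := by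
    rw [← hs2]; ring
  rw [e3] at hlt
  have e4 : (1 - b * (1 - c) - 3 / 5 * (1 + c)) ^ 2 + (b - 3 / 5) ^ 2 * (1 - c ^ 2) =
      (13 / 25 - 12 / 25 * c) - 2 * (b * (1 - b)) * (1 - c) := by ring
  rw [e4] at hlt
  have e5 : 0 ≤ b * (1 - b) := mul_nonneg hb0 (by linarith)
  have e6 : 0 ≤ 2 * (b * (1 - b)) * (1 - c) := by
    apply mul_nonneg (by linarith)
    linarith
  norm_num at hlt
  linarith

/-- `W i` is relatively clopen in `U0` outside of the disc -/
theorem W_clopen (i : ZMod 5) (z : X) (h : z ∈ U0) (hz : 4 / 5 < ‖(z : ℂ) - cen i‖) :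
    ∀ᶠ z' : X in 𝓝 z, ((z' : ℂ) ∈ W i ↔ (z : ℂ) ∈ W i) := by
  by_cases hw : (z : ℂ) ∈ W i
  · have hopen : IsOpen {z' : X | (z' : ℂ) ∈ W i} := by
      have : {z' : X | (z' : ℂ) ∈ W i} = {z' : X | 0 < cim i z'} ∩ ({z' : X | cim (i + 1) z' < 0} ∩
          {z' : X | (ctr 1).im < cim i z' - cim (i + 1) z'}) := by
        ext z'
        rfl
      rw [this]
      exact (isOpen_lt continuous_const (cim_cont i)).inter
        ((isOpen_lt (cim_cont (i + 1)) continuous_const).inter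
          (isOpen_lt continuous_const ((cim_cont i).sub (cim_cont (i + 1)))))
    filter_upwards [hopen.mem_nhds hw] with z' hz'
    exact ⟨fun _ => hw, fun _ => hz'⟩
  · have hcl : IsClosed {z' : X | 0 ≤ cim i z' ∧ cim (i + 1) z' ≤ 0 ∧
        (ctr 1).im ≤ cim i z' - cim (i + 1) z'} := by
      exact (isClosed_le continuous_const (cim_cont i)).inter
        ((isClosed_le (cim_cont (i + 1)) continuous_const).inter
          (isClosed_le continuous_const ((cim_cont i).sub (cim_cont (i + 1)))))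
    have hnot : z ∉ {z' : X | 0 ≤ cim i z' ∧ cim (i + 1) z' ≤ 0 ∧
        (ctr 1).im ≤ cim i z' - cim (i + 1) z'} := by
      rintro ⟨a1, a2, a3⟩
      obtain ⟨c1, c2, s1, s2⟩ := ctr_one_bounds
      apply hw
      refine ⟨?_, ?_, ?_⟩
      · rcases a1.lt_or_eq with h1 | h1
        · exact h1
        · exfalso
          have h2 := h i h1.symm
          rw [cc_im', ← h1] at a3
          nlinarith
      · rcases a2.lt_or_eq with h1 | h1
        · exact h1
        · exfalso
          have h2 := h (i + 1) h1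
          rw [cc_im i 1, h1] at a3
          nlinarith
      · rcases a3.lt_or_eq with h1 | h1
        · exact h1
        · exfalso
          have hn := normSq_eq i ((z : ℂ) - cen i)
          rw [cre_sub', cim_sub', (cen_coord i).1, (cen_coord i).2] at hn
          have hlt : (4 / 5 : ℝ) ^ 2 < ‖(z : ℂ) - cen i‖ ^ 2 :=
            pow_lt_pow_left₀ hz (by norm_num) (by norm_num)
          rw [hn] at hlt
          rw [cc_im'] at h1 a2
          have hsq := cc_sq
          exact W_aux _ _ _ _ hsq c1 c2 s1 h1 a1 a2 hlt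
    filter_upwards [hcl.isOpen_compl.mem_nhds hnot] with z' hz'
    constructor
    · rintro ⟨h1, h2, h3⟩
      exact absurd ⟨h1.le, h2.le, h3.le⟩ hz'
    · intro h1
      exact absurd h1 hw

theorem code_out (C : Cov) (i : ZMod 5) (γ : ℝ → X) (hγ : ∀ t, 4 / 5 < ‖(γ t : ℂ) - cen i‖)
    (w : G) (h : HasCode C γ w) :
    ∃ u ∈ Subgroup.closure ({x | x = FreeGroup.of i * FreeGroup.of (i + 1) ∨
          ∃ j, j ≠ i ∧ j ≠ i + 1 ∧ x = FreeGroup.of j} : Set G), IsConj w u := by
  classical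
  obtain ⟨K, hK⟩ : ∃ K : Subgroup G, K = Subgroup.closure ({x | x = FreeGroup.of i * FreeGroup.of (i + 1) ∨
          ∃ j, j ≠ i ∧ j ≠ i + 1 ∧ x = FreeGroup.of j} : Set G) := ⟨_, rfl⟩
  rw [← hK]
  have hK1 : FreeGroup.of i * FreeGroup.of (i + 1) ∈ K := by
    rw [hK]; exact Subgroup.subset_closure (Or.inl rfl)
  have hK2 : ∀ j, j ≠ i → j ≠ i + 1 → FreeGroup.of j ∈ K := by
    intro j h1 h2
    rw [hK]; exact Subgroup.subset_closure (Or.inr ⟨j, h1, h2, rfl⟩)
  obtain ⟨F0, hF0⟩ : ∃ F0 : C.E → G ⧸ K, F0 = fun e =>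
    if (C.π e : ℂ) ∈ W i then ((C.κ0 e * (FreeGroup.of i)⁻¹ : G) : G ⧸ K) else ((C.κ0 e : G) : G ⧸ K) := ⟨_, rfl⟩
  obtain ⟨Fj, hFj⟩ : ∃ Fj : ZMod 5 → C.E → G ⧸ K, Fj = fun j e =>
    if j = i then ((C.κ i e * (FreeGroup.of i)⁻¹ : G) : G ⧸ K) else ((C.κ j e : G) : G ⧸ K) := ⟨_, rfl⟩
  have hii : i + 1 ≠ i := by
    have : ∀ i : ZMod 5, i + 1 ≠ i := by decide
    exact this i
  -- claim A
  have hA : ∀ j e, C.π e ∈ V j → C.π e ∈ U0 → F0 e = Fj j e := by
    intro j e hV hU
    have hne := (mem_U0_of_mem_V j (C.π e) hV).1 hU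
    rw [hF0, hFj]
    simp only []
    by_cases hji : j = i
    · subst hji
      rw [if_pos rfl]
      rcases lt_or_gt_of_ne hne with h1 | h1
      · rw [if_neg (by rw [W_of_mem_V_left j _ hV]; exact not_lt.2 h1.le), C.rel_neg j e hV h1]
        rw [mul_inv_cancel_right]
      · rw [if_pos ((W_of_mem_V_left j _ hV).2 h1), C.rel_pos j e hV h1]
    · rw [if_neg hji]
      by_cases hji1 : j = i + 1
      · subst hji1
        rcases lt_or_gt_of_ne hne with h1 | h1
        · rw [if_pos ((W_of_mem_V_right i _ hV).2 h1), C.rel_neg (i + 1) e hV h1, QuotientGroup.eq]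
          have : (C.κ0 e * (FreeGroup.of i)⁻¹)⁻¹ * (C.κ0 e * FreeGroup.of (i + 1)) =
            FreeGroup.of i * FreeGroup.of (i + 1) := by group
          rw [this]
          exact hK1
        · rw [if_neg (by rw [W_of_mem_V_right i _ hV]; exact not_lt.2 h1.le), C.rel_pos (i + 1) e hV h1]
      · rw [if_neg (W_of_mem_V_other i j _ hji hji1 hV)]
        rcases lt_or_gt_of_ne hne with h1 | h1
        · rw [C.rel_neg j e hV h1, QuotientGroup.eq]
          have : (C.κ0 e)⁻¹ * (C.κ0 e * FreeGroup.of j) = FreeGroup.of j := by group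
          rw [this]
          exact hK2 j hji hji1
        · rw [C.rel_pos j e hV h1]
  have hπc : Continuous C.π := C.cov.continuous
  -- claim B
  have hB : ∀ e, C.π e ∈ U0 → 4 / 5 < ‖(C.π e : ℂ) - cen i‖ → ∀ᶠ e' in 𝓝 e, F0 e' = F0 e := by
    intro e hU hY
    have h1 := hπc.continuousAt.eventually (W_clopen i (C.π e) hU hY)
    filter_upwards [h1, C.κ0_cont e hU] with e' h2 h3
    rw [hF0]
    simp only [h2, h3]
  -- claim C
  have hCc : ∀ j e, C.π e ∈ V j → ∀ᶠ e' in 𝓝 e, Fj j e' = Fj j e := by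
    intro j e hV
    have h2 := C.κ_cont j e hV
    by_cases hji : j = i
    · subst hji
      filter_upwards [h2] with e' h3
      rw [hFj]
      simp only [h3]
    · filter_upwards [h2] with e' h3
      rw [hFj]
      simp only [h3, if_neg hji]
  have hF0s : ∀ (h : G) e, C.π e ∈ U0 → F0 (h • e) = h • F0 e := by
    intro h e hU
    rw [hF0]
    simp only [C.π_smul, C.κ0_smul h e hU]
    split_ifs
    · rw [mul_assoc]; rfl
    · rfl
  have hFjs : ∀ j (h : G) e, C.π e ∈ V j → Fj j (h • e) = h • Fj j e := by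
    intro j h e hV
    rw [hFj]
    simp only [C.κ_smul j h e hV]
    by_cases hji : j = i
    · subst hji
      simp only [if_true, C.κ_smul j h e hV]
      rw [mul_assoc]; rfl
    · simp only [if_neg hji]
      rfl
  obtain ⟨F, hF⟩ : ∃ F : C.E → G ⧸ K, F = fun e =>
    if C.π e ∈ U0 then F0 e else if hj : ∃ j, C.π e ∈ V j then Fj hj.choose e else ((1 : G) : G ⧸ K) := ⟨_, rfl⟩
  have hFU : ∀ e, C.π e ∈ U0 → F e = F0 e := by
    intro e hU
    rw [hF]; exact if_pos hU
  have hFV : ∀ j e, C.π e ∈ V j → F e = Fj j e := by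
    intro j e hV
    by_cases hU : C.π e ∈ U0
    · rw [hFU e hU, hA j e hV hU]
    · have hex : ∃ j, C.π e ∈ V j := ⟨j, hV⟩
      have huniq : hex.choose = j := by
        by_contra hne
        exact Set.disjoint_left.1 (V_disjoint _ _ hne) hex.choose_spec hV
      rw [hF]
      simp only [if_neg hU, dif_pos hex]
      rw [huniq]
  refine code_mem_of_locConst C {z : X | 4 / 5 < ‖(z : ℂ) - cen i‖} K F ?_ ?_ γ hγ w h
  · intro e hY
    rcases cover (C.π e) with hU | ⟨j, hV, -⟩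
    · filter_upwards [hB e hU hY, (isOpen_U0.preimage hπc).mem_nhds hU] with e' h1 h2 _
      rw [hFU e' h2, hFU e hU, h1]
    · filter_upwards [hCc j e hV, ((isOpen_V j).preimage hπc).mem_nhds hV] with e' h1 h2 _
      rw [hFV j e' h2, hFV j e hV, h1]
  · intro g e hY
    rcases cover (C.π e) with hU | ⟨j, hV, -⟩
    · rw [hFU e hU, hFU (g • e) (by rw [C.π_smul]; exact hU), hF0s g e hU]
    · rw [hFV j e hV, hFV j (g • e) (by rw [C.π_smul]; exact hV), hFjs j g e hV]

end
end Pool.Agent.Helper328.MT
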