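import Mathlib
import Pool.Agent.Helper328.MT.Geo1

/-! Mapping class groups of planar surfaces: the definitions. -/

set_option autoImplicit false
open scoped ContDiff Topology unitInterval
open Set Filter

namespace Pool.Agent.Helper328.MT
noncomputable section

/-! ### Diffeomorphisms and isotopies of a planar surface `S ⊆ ℂ` -/

instance (S : Set ℂ) : (Diff0 S).Normal := Subgroup.normalClosure_normal

/-! ### Circles -/

/-! ### Dehn twists and multi-twists -/

/-! ### The Nielsen–Thurston trichotomy -/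

/-! ### The question -/

/-! ### The surface of the counterexample -/

theorem ms_dist {i j : ZMod 5} (h : i ≠ j) : 1 < ‖ctr i - ctr j‖ := by
  have h1 := ctr_re_le i j h
  have h2 : ‖ctr i - ctr j‖ ^ 2 = 2 - 2 * (ctr i * (starRingEnd ℂ) (ctr j)).re := by
    rw [← Complex.normSq_eq_norm_sq, Complex.normSq_sub, Complex.normSq_eq_norm_sq,
      Complex.normSq_eq_norm_sq, norm_ctr, norm_ctr]
    ring
  nlinarith [norm_nonneg (ctr i - ctr j)]

theorem ms_far {i j : ZMod 5} (h : i ≠ j) {z : ℂ} (hz : ‖z - ctr i‖ ≤ 1 / 10) :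
    9 / 10 < ‖z - ctr j‖ := by
  have h1 := ms_dist h
  have h2 : ‖ctr i - ctr j‖ ≤ ‖ctr i - z‖ + ‖z - ctr j‖ := by
    have : ctr i - ctr j = (ctr i - z) + (z - ctr j) := by ring
    rw [this]; exact norm_add_le _ _
  rw [norm_sub_rev (ctr i) z] at h2
  linarith

theorem ms_out {z : ℂ} (hz : 2 ≤ ‖z‖) (i : ZMod 5) : 1 ≤ ‖z - ctr i‖ := by
  have h1 := norm_sub_norm_le z (ctr i)
  rw [norm_ctr] at h1
  linarith

theorem ms_in {z : ℂ} {i : ZMod 5} (hz : ‖z - ctr i‖ ≤ 1 / 10) : ‖z‖ ≤ 11 / 10 := by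
  have h1 : ‖z‖ ≤ ‖z - ctr i‖ + ‖ctr i‖ := by
    have : z = (z - ctr i) + ctr i := by ring
    conv_lhs => rw [this]
    exact norm_add_le _ _
  rw [norm_ctr] at h1
  linarith

/-- outer retraction -/
def msO (z : ℂ) : ℂ := ((2 / max 2 ‖z‖ : ℝ) : ℂ) * z

/-- retraction at the `i`-th hole -/
def msI (i : ZMod 5) (z : ℂ) : ℂ :=
  ctr i + ((max 1 ((1 / 10) / ‖z - ctr i‖) : ℝ) : ℂ) * (z - ctr i)

theorem msO_eq {z : ℂ} (hz : ‖z‖ ≤ 2) : msO z = z := by
  unfold msO
  rw [max_eq_left hz]
  norm_num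

theorem msI_eq {z : ℂ} {i : ZMod 5} (hz : 1 / 10 ≤ ‖z - ctr i‖) : msI i z = z := by
  unfold msI
  have hp : 0 < ‖z - ctr i‖ := by linarith
  rw [max_eq_left (by rw [div_le_one hp]; exact hz)]
  simp

theorem msI_dist {z : ℂ} {i : ZMod 5} (h0 : z ≠ ctr i) (hz : ‖z - ctr i‖ ≤ 1 / 10) :
    ‖msI i z - ctr i‖ = 1 / 10 := by
  unfold msI
  have hp : 0 < ‖z - ctr i‖ := norm_pos_iff.mpr (sub_ne_zero.mpr h0)
  rw [max_eq_right (by rw [one_le_div hp]; exact hz), add_sub_cancel_left, norm_mul,
    Complex.norm_real, Real.norm_eq_abs, abs_of_pos (by positivity)]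
  field_simp

theorem exists_retraction : ∃ r : ℂ → ℂ, ContinuousOn r {z | ∀ i, z ≠ ctr i} ∧
    (∀ z, (∀ i, z ≠ ctr i) → r z ∈ Surf) ∧ ∀ z ∈ Surf, r z = z := by
  have hS : ∀ z ∈ Surf, z + (msO z - z) + ∑ i, (msI i z - z) = z := by
    rintro z ⟨h1, h2⟩
    rw [msO_eq h1, Finset.sum_eq_zero (fun i _ => by rw [msI_eq (h2 i), sub_self])]
    ring
  refine ⟨fun z => z + (msO z - z) + ∑ i, (msI i z - z), ?_, ?_, hS⟩
  · have hO : Continuous msO := by
      unfold msO
      refine (Complex.continuous_ofReal.comp ?_).mul continuous_id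
      refine continuous_const.div (continuous_const.max continuous_norm) (fun z => ?_)
      have : (0 : ℝ) < max 2 ‖z‖ := lt_of_lt_of_le (by norm_num) (le_max_left _ _)
      exact this.ne'
    refine (continuousOn_id.add (hO.continuousOn.sub continuousOn_id)).add ?_
    refine continuousOn_finsetSum _ (fun i _ => ContinuousOn.sub ?_ continuousOn_id)
    unfold msI
    refine continuousOn_const.add (ContinuousOn.mul ?_ (by fun_prop))
    refine Complex.continuous_ofReal.comp_continuousOn ?_
    refine ContinuousOn.sup continuousOn_const (continuousOn_const.div (by fun_prop) (fun z hz => ?_))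
    exact norm_ne_zero_iff.mpr (sub_ne_zero.mpr (hz i))
  · intro z hz
    by_cases h2 : 2 < ‖z‖
    · have hsum : ∑ i, (msI i z - z) = 0 :=
        Finset.sum_eq_zero (fun i _ => by
          rw [msI_eq (by have := ms_out h2.le i; linarith), sub_self])
      have hn : ‖msO z‖ = 2 := by
        unfold msO
        have hp : 0 < ‖z‖ := by linarith
        rw [max_eq_right h2.le, norm_mul, Complex.norm_real, Real.norm_eq_abs,
          abs_of_pos (by positivity)]
        field_simp
      have he : z + (msO z - z) + ∑ i, (msI i z - z) = msO z := by rw [hsum]; ring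
      show z + (msO z - z) + ∑ i, (msI i z - z) ∈ Surf
      rw [he]
      exact ⟨hn.le, fun i => by have := ms_out hn.ge i; linarith⟩
    · rw [not_lt] at h2
      by_cases h3 : ∃ i, ‖z - ctr i‖ < 1 / 10
      · obtain ⟨i, hi⟩ := h3
        have hsum : ∑ j, (msI j z - z) = msI i z - z := by
          refine Finset.sum_eq_single i (fun j _ hj => ?_) (fun h => absurd (Finset.mem_univ i) h)
          rw [msI_eq (by have := ms_far (Ne.symm hj) hi.le; linarith), sub_self]
        have he : z + (msO z - z) + ∑ i, (msI i z - z) = msI i z := by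
          rw [hsum, msO_eq h2]; ring
        show z + (msO z - z) + ∑ i, (msI i z - z) ∈ Surf
        rw [he]
        have hd := msI_dist (hz i) hi.le
        refine ⟨by have := ms_in hd.le; linarith, fun j => ?_⟩
        by_cases hj : i = j
        · subst hj; exact hd.ge
        · have := ms_far hj hd.le; linarith
      · push Not at h3
        have hzS : z ∈ Surf := ⟨h2, h3⟩
        show z + (msO z - z) + ∑ i, (msI i z - z) ∈ Surf
        rw [hS z hzS]
        exact hzS

theorem ms_eq : Surf = Metric.closedBall (0 : ℂ) 2 ∩ ⋂ i, (Metric.ball (ctr i) (1 / 10))ᶜ := by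
  ext z
  simp only [Set.mem_inter_iff, Metric.mem_closedBall, Set.mem_iInter,
    Set.mem_compl_iff, Metric.mem_ball, not_lt, dist_eq_norm, sub_zero]
  exact Iff.rfl

theorem interior_Surf : interior Surf = {z | ‖z‖ < 2 ∧ ∀ i, 1 / 10 < ‖z - ctr i‖} := by
  rw [ms_eq, interior_inter, interior_iInter_of_finite, interior_closedBall _ (by norm_num)]
  ext z
  simp only [interior_compl, Set.mem_inter_iff, Metric.mem_ball, dist_zero_right, Set.mem_iInter,
    Set.mem_compl_iff]
  have : ∀ i : ZMod 5, closure (Metric.ball (ctr i) (1 / 10 : ℝ)) = Metric.closedBall (ctr i) (1 / 10) :=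
    fun i => closure_ball _ (by norm_num)
  simp only [this, Metric.mem_closedBall, not_le, dist_eq_norm]
  exact Iff.rfl

theorem ms_closed : IsClosed Surf := by
  rw [ms_eq]
  exact Metric.isClosed_closedBall.inter (isClosed_iInter fun i => Metric.isOpen_ball.isClosed_compl)

theorem frontier_Surf : frontier Surf = {z | ‖z‖ = 2 ∨ ∃ i, ‖z - ctr i‖ = 1 / 10} := by
  rw [ms_closed.frontier_eq, interior_Surf]
  ext z
  constructor
  · rintro ⟨⟨h1, h2⟩, h3⟩
    by_contra hc
    apply h3
    have hc1 : ¬ ‖z‖ = 2 := fun h => hc (Or.inl h)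
    have hc2 : ∀ i, ¬ ‖z - ctr i‖ = 1 / 10 := fun i h => hc (Or.inr ⟨i, h⟩)
    exact ⟨lt_of_le_of_ne h1 hc1, fun i => lt_of_le_of_ne (h2 i) (fun h => hc2 i h.symm)⟩
  · rintro (h | ⟨i, h⟩)
    · refine ⟨⟨h.le, fun i => by have := ms_out h.ge i; linarith⟩, fun h' => ?_⟩
      have := h'.1
      linarith
    · refine ⟨⟨by have := ms_in h.le; linarith, fun j => ?_⟩, fun h' => ?_⟩
      · by_cases hj : i = j
        · subst hj; exact h.ge
        · have := ms_far hj h.le; linarith
      · have := h'.2 i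
        linarith

theorem isCompact_Surf : IsCompact Surf := by
  refine (isCompact_closedBall (0 : ℂ) 2).of_isClosed_subset ms_closed ?_
  rw [ms_eq]
  exact Set.inter_subset_left

theorem isHoledDisk_Surf : IsHoledDisk Surf := by
  refine ⟨0, 2, 5, fun j : Fin 5 => ctr j, fun _ => 1 / 10, by norm_num, fun _ => by norm_num,
    fun i z hz => ?_, fun i j hij => ?_, ?_⟩
  · rw [Metric.mem_closedBall, dist_eq_norm] at hz
    rw [Metric.mem_ball, dist_zero_right]
    have := ms_in hz
    linarith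
  · rw [Set.disjoint_left]
    intro z hz hz'
    rw [Metric.mem_closedBall, dist_eq_norm] at hz hz'
    have := ms_far (i := i) (j := j) hij hz
    linarith
  · rw [ms_eq]
    ext z
    simp only [Set.mem_inter_iff, Set.mem_iInter, Set.mem_compl_iff]
    constructor
    · rintro ⟨h1, h2⟩
      refine ⟨h1, fun h => ?_⟩
      obtain ⟨i, hi⟩ := Set.mem_iUnion.mp h
      exact h2 i hi
    · rintro ⟨h1, h2⟩
      exact ⟨h1, fun i hi => h2 (Set.mem_iUnion.mpr ⟨i, hi⟩)⟩

end
end Pool.Agent.Helper328.MT
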