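import Mathlib
import Pool.Agent.Helper328.MT.Free
import Pool.Agent.Helper328.MT.Circ
import Pool.Agent.Helper328.MT.In
import Pool.Agent.Helper328.MT.Out
import Pool.Agent.Helper328.MT.Alg
import Pool.Agent.Helper328.MT.CovEx
import Pool.Agent.Helper328.MT.S1
import Pool.Agent.Helper328.MT.Ann
import Pool.Agent.Helper328.MT.Gen

set_option autoImplicit false
open scoped ContDiff Topology unitInterval
open Set Filter

namespace Pool.Agent.Helper328.MT
noncomputable section

theorem Surf_ne_ctr (z : ℂ) (hz : z ∈ Surf) (i : ZMod 5) : z ≠ ctr i := by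
  rintro rfl
  have := hz.2 i
  simp at this
  norm_num at this

/-- points of the surface as points of `X` -/
def toX (z : Surf) : X := ⟨z, Surf_ne_ctr z z.2⟩

theorem continuous_toX : Continuous toX :=
  Continuous.subtype_mk continuous_subtype_val _

/-- a loop in the surface avoiding `circ i` satisfies the algebraic alternative at `i` -/
theorem alternative (C : Cov) (i : ZMod 5) (γ : ℝ → X) (hc : Continuous γ)
    (hi : ∀ t, ‖(γ t : ℂ) - cen i‖ ≠ 4 / 5) (w : G) (h : HasCode C γ w) :
    (∃ u ∈ Subgroup.closure ({FreeGroup.of i, FreeGroup.of (i + 1)} : Set (FreeGroup (ZMod 5))),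
        IsConj w u) ∨
      (∃ u ∈ Subgroup.closure ({x | x = FreeGroup.of i * FreeGroup.of (i + 1) ∨
          ∃ j, j ≠ i ∧ j ≠ i + 1 ∧ x = FreeGroup.of j} : Set (FreeGroup (ZMod 5))),
        IsConj w u) := by
  have hcont : Continuous fun t => ‖(γ t : ℂ) - cen i‖ :=
    ((continuous_subtype_val.comp hc).sub continuous_const).norm
  by_cases h0 : ‖(γ 0 : ℂ) - cen i‖ < 4 / 5
  · left
    refine code_in C i γ (fun t => ?_) w h
    by_contra hcon
    push Not at hcon
    have h1 : ‖(γ t : ℂ) - cen i‖ > 4 / 5 := lt_of_le_of_ne hcon (fun hh => hi t hh.symm)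
    obtain ⟨x, -, hx⟩ := isPreconnected_univ.intermediate_value (mem_univ (0:ℝ)) (mem_univ t)
      hcont.continuousOn ⟨h0.le, h1.le⟩
    exact hi x hx
  · right
    refine code_out C i γ (fun t => ?_) w h
    have h0' : 4 / 5 < ‖(γ 0 : ℂ) - cen i‖ :=
      lt_of_le_of_ne (not_lt.1 h0) (fun hh => hi 0 hh.symm)
    by_contra hcon
    push Not at hcon
    obtain ⟨x, -, hx⟩ := isPreconnected_univ.intermediate_value (mem_univ t) (mem_univ (0:ℝ))
      hcont.continuousOn ⟨hcon, h0'.le⟩
    exact hi x hx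

theorem inner_ne (i j : ZMod 5) (t : ℝ) :
    ctr i * (1 - Complex.exp (2 * Real.pi * Complex.I * t) / 10) ≠ ctr j := by
  intro h
  have he : ‖Complex.exp (2 * Real.pi * Complex.I * t)‖ = 1 := by
    rw [Complex.norm_exp]; simp
  by_cases hij : i = j
  · subst hij
    have h1 : ctr i * (Complex.exp (2 * Real.pi * Complex.I * t) / 10) = 0 := by
      linear_combination -h
    have h2 := congrArg norm h1
    rw [norm_mul, norm_ctr, norm_div, he] at h2
    norm_num at h2
  · have h1 : ctr i * (Complex.exp (2 * Real.pi * Complex.I * t) / 10) = ctr i - ctr j := by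
      linear_combination -h
    have h2 := congrArg norm h1
    rw [norm_mul, norm_ctr, norm_div, he] at h2
    have h3 : ‖ctr i - ctr j‖ ^ 2 = 2 - 2 * (ctr i * (starRingEnd ℂ) (ctr j)).re := by
      rw [← Complex.normSq_eq_norm_sq, Complex.normSq_sub, Complex.normSq_eq_norm_sq,
        Complex.normSq_eq_norm_sq, norm_ctr, norm_ctr]
      ring
    have h4 := ctr_re_le i j hij
    have h5 : ‖ctr i - ctr j‖ = 1 / 10 := by
      rw [← h2]; norm_num
    rw [h5] at h3
    linarith

theorem norm_exp_loop (t : ℝ) : ‖Complex.exp (2 * Real.pi * Complex.I * t)‖ = 1 := by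
  rw [Complex.norm_exp]; simp

/-- every code class found by the algebra is the code of a loop in the boundary -/
theorem exists_boundary_loop (C : Cov) (w : G)
    (h : (∃ (j : ZMod 5) (k : ℤ), IsConj w (FreeGroup.of j ^ k)) ∨
      ∃ k : ℤ, IsConj w ((FreeGroup.of 0 * FreeGroup.of 1 * FreeGroup.of 2 * FreeGroup.of 3 *
        FreeGroup.of 4) ^ k)) :
    ∃ δ : ℝ → X, (∀ t, (δ t : ℂ) ∈ frontier Surf) ∧ (∀ t, (δ t : ℂ) ∈ Surf) ∧
      HasCode C δ w := by
  rcases h with ⟨j, k, hk⟩ | ⟨k, hk⟩
  · let γ : ℝ → X := fun t =>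
      ⟨ctr j * (1 - Complex.exp (2 * Real.pi * Complex.I * t) / 10), fun i => inner_ne j i t⟩
    have hγ := code_inner C j γ (fun t => rfl)
    have hper : ∀ t, γ (t + 1) = γ t := by
      intro t
      apply Subtype.ext
      show ctr j * (1 - Complex.exp (2 * Real.pi * Complex.I * ((t + 1 : ℝ) : ℂ)) / 10) =
        ctr j * (1 - Complex.exp (2 * Real.pi * Complex.I * (t : ℂ)) / 10)
      push_cast
      rw [mul_add, Complex.exp_add, mul_one, Complex.exp_two_pi_mul_I, mul_one]
    have hk' := code_of_isConj C _ _ _ (code_zpow C γ hper _ hγ k) hk.symm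
    have hfr : ∀ t, ((fun t : ℝ => γ (k * t)) t : ℂ) ∈ frontier Surf := by
      intro t
      rw [frontier_Surf]
      right
      refine ⟨j, ?_⟩
      show ‖ctr j * (1 - Complex.exp (2 * Real.pi * Complex.I * ((k * t : ℝ) : ℂ)) / 10) - ctr j‖ = 1 / 10
      have : ctr j * (1 - Complex.exp (2 * Real.pi * Complex.I * ((k * t : ℝ) : ℂ)) / 10) - ctr j
        = - (ctr j * (Complex.exp (2 * Real.pi * Complex.I * ((k * t : ℝ) : ℂ)) / 10)) := by ring
      rw [this, norm_neg, norm_mul, norm_ctr, norm_div, norm_exp_loop]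
      norm_num
    exact ⟨fun t => γ (k * t), hfr, fun t => isCompact_Surf.isClosed.frontier_subset (hfr t), hk'⟩
  · have hne : ∀ (t : ℝ) (i : ZMod 5), 2 * Complex.exp (2 * Real.pi * Complex.I * t) ≠ ctr i := by
      intro t i h
      have h2 := congrArg norm h
      rw [norm_mul, norm_ctr, norm_exp_loop] at h2
      norm_num at h2
    let γ : ℝ → X := fun t => ⟨2 * Complex.exp (2 * Real.pi * Complex.I * t), hne t⟩
    have hγ := code_outer C γ (fun t => rfl)
    have hper : ∀ t, γ (t + 1) = γ t := by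
      intro t
      apply Subtype.ext
      show 2 * Complex.exp (2 * Real.pi * Complex.I * ((t + 1 : ℝ) : ℂ)) =
        2 * Complex.exp (2 * Real.pi * Complex.I * (t : ℂ))
      push_cast
      rw [mul_add, Complex.exp_add, mul_one, Complex.exp_two_pi_mul_I, mul_one]
    have hk' := code_of_isConj C _ _ _ (code_zpow C γ hper _ hγ k) hk.symm
    have hfr : ∀ t, ((fun t : ℝ => γ (k * t)) t : ℂ) ∈ frontier Surf := by
      intro t
      rw [frontier_Surf]
      left
      show ‖2 * Complex.exp (2 * Real.pi * Complex.I * ((k * t : ℝ) : ℂ))‖ = 2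
      rw [norm_mul, norm_exp_loop]
      norm_num
    exact ⟨fun t => γ (k * t), hfr, fun t => isCompact_Surf.isClosed.frontier_subset (hfr t), hk'⟩

/-- the five circles fill the surface -/
theorem fills_circ : Fills Surf {D | ∃ i : ZMod 5, D = circ i} := by
  intro C hC
  by_contra hcon
  push Not at hcon
  obtain ⟨hcirc, -, hnd⟩ := hC
  apply hnd
  obtain ⟨γ, hsm, -, hinj, hrange⟩ := hcirc
  obtain ⟨Cv⟩ := exists_cov
  have hγc : Continuous γ := hsm.continuous
  have hmem : ∀ t, γ t ∈ Surf := by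
    intro t
    have : γ t ∈ range γ := mem_range_self t
    rw [hrange] at this
    obtain ⟨x, -, hx⟩ := this
    rw [← hx]; exact x.2
  have hmemC : ∀ t, (⟨γ t, hmem t⟩ : Surf) ∈ C := by
    intro t
    have : γ t ∈ range γ := mem_range_self t
    rw [hrange] at this
    obtain ⟨x, hx1, hx⟩ := this
    have : x = ⟨γ t, hmem t⟩ := Subtype.ext hx
    rw [← this]; exact hx1
  have hper : ∀ t, γ (t + 1) = γ t := by
    intro t
    exact ((hinj t (t + 1)).2 ⟨1, by simp⟩).symm
  -- the loop in the surface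
  let γS : ℝ → Surf := fun t => ⟨γ t, hmem t⟩
  have hγSc : Continuous γS := Continuous.subtype_mk hγc _
  have hγSp : ∀ t, γS (t + 1) = γS t := fun t => Subtype.ext (hper t)
  let γX : ℝ → X := fun t => toX (γS t)
  have hγXc : Continuous γX := continuous_toX.comp hγSc
  have hγXp : ∀ t, γX (t + 1) = γX t := fun t => congrArg toX (hγSp t)
  obtain ⟨w, hw⟩ := exists_code Cv γX hγXc hγXp
  have halt : ∀ i : ZMod 5,
      (∃ u ∈ Subgroup.closure ({FreeGroup.of i, FreeGroup.of (i + 1)} : Set (FreeGroup (ZMod 5))),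
        IsConj w u) ∨
      (∃ u ∈ Subgroup.closure ({x | x = FreeGroup.of i * FreeGroup.of (i + 1) ∨
          ∃ j, j ≠ i ∧ j ≠ i + 1 ∧ x = FreeGroup.of j} : Set (FreeGroup (ZMod 5))),
        IsConj w u) := by
    intro i
    have h0 : geomInt Surf C (circ i) = 0 := hcon (circ i) ⟨i, rfl⟩
    obtain ⟨d, hd, hdis⟩ := exists_disjoint_of_geomInt Surf C (circ i) h0
    obtain ⟨H, hH0, hH1⟩ := diff0_homotopy Surf d hd
    let K : I × ℝ → X := fun p => toX (H (p.1, γS p.2))
    have hKc : Continuous K := by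
      apply continuous_toX.comp
      apply H.continuous.comp
      exact continuous_fst.prodMk (hγSc.comp continuous_snd)
    have hKp : ∀ s t, K (s, t + 1) = K (s, t) := by
      intro s t
      show toX (H (s, γS (t + 1))) = toX (H (s, γS t))
      rw [hγSp]
    have hK0 : (fun t => K (0, t)) = γX := by
      funext t
      show toX (H (0, γS t)) = toX (γS t)
      rw [hH0]
    have hcode := code_homotopy Cv K hKc hKp w (by rw [hK0]; exact hw)
    refine alternative Cv i (fun t => K (1, t)) ?_ ?_ w hcode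
    · exact hKc.comp (continuous_const.prodMk continuous_id)
    · intro t ht
      have h1 : H (1, γS t) ∈ img d C := ⟨γS t, hmemC t, (hH1 _).symm⟩
      have h2 : H (1, γS t) ∈ circ i := ht
      exact (Set.disjoint_left.1 hdis) h1 h2
  obtain ⟨δ, hδf, hδS, hδ⟩ := exists_boundary_loop Cv w (fill_algebra w halt)
  obtain ⟨H, hH0, hH1, hHp⟩ := homotopy_of_code Cv γX δ w hw hδ
  obtain ⟨r, hrc, hrS, hrid⟩ := exists_retraction
  refine deforms_of_homotopy Surf C γ hγc hinj hrange (fun p => r (H p)) ?_ ?_ ?_ ?_ ?_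
  · exact hrc.comp_continuous (continuous_subtype_val.comp H.continuous) (fun p => (H p).2)
  · intro p
    exact hrS _ (H p).2
  · intro t
    show r (H (0, t)) = γ t
    rw [hH0]
    exact hrid _ (hmem t)
  · intro t
    show r (H (1, t)) ∈ frontier Surf
    rw [hH1, hrid _ (hδS t)]
    exact hδf t
  · intro s
    show r (H (s, 0)) = r (H (s, 1))
    rw [hHp]

end
end Pool.Agent.Helper328.MT
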