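import Mathlib
set_option autoImplicit false
open scoped ContDiff Topology unitInterval
open Set Filter

namespace Pool.Agent.Helper328.MT
noncomputable section

/-- the closed (1-periodic) curve `γ` has winding number `n` about `p` -/
def HasWind (γ : ℝ → ℂ) (p : ℂ) (n : ℤ) : Prop :=
  ∃ u : ℝ → ℂ, Continuous u ∧ (∀ t, Complex.exp (u t) = γ t - p) ∧
    ∀ t, u (t + 1) = u t + 2 * Real.pi * Complex.I * n

theorem wexp_const {A : Type} [TopologicalSpace A] [PreconnectedSpace A] (f : A → ℂ)
    (hf : Continuous f) (h : ∀ a, Complex.exp (f a) = 1) (a b : A) : f a = f b := by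
  refine Complex.isCoveringMap_exp.const_of_comp hf ?_ a b
  intro x y
  apply Subtype.ext
  show Complex.exp (f x) = Complex.exp (f y)
  rw [h, h]

theorem wlift {A : Type} [TopologicalSpace A] [SimplyConnectedSpace A]
    [LocallyPathConnectedSpace A] (a₀ : A) (f : A → ℂ) (hf : Continuous f) (h : ∀ a, f a ≠ 0) :
    ∃ u : A → ℂ, Continuous u ∧ ∀ a, Complex.exp (u a) = f a := by
  let F : C(A, {z : ℂ // z ≠ 0}) := ⟨fun a => ⟨f a, h a⟩, hf.subtype_mk _⟩
  obtain ⟨u, ⟨-, hu⟩, -⟩ := Complex.isCoveringMap_exp.existsUnique_continuousMap_lifts F a₀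
    (Complex.log (f a₀)) (Subtype.ext (Complex.exp_log (h a₀)))
  refine ⟨u, u.continuous, fun a => ?_⟩
  have := congrFun hu a
  exact congrArg Subtype.val this

theorem wind_unique (γ : ℝ → ℂ) (p : ℂ) (n m : ℤ) (h : HasWind γ p n) (h' : HasWind γ p m) :
    n = m := by
  obtain ⟨u, hu, hue, hup⟩ := h
  obtain ⟨v, hv, hve, hvp⟩ := h'
  have key := wexp_const (fun t => u t - v t) (hu.sub hv) (fun t => by
    rw [Complex.exp_sub, hue, hve]
    apply div_self
    rw [← hue]; exact Complex.exp_ne_zero _) (0 + 1) 0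
  simp only [hup, hvp] at key
  have h2 : (2 * Real.pi * Complex.I : ℂ) * n = 2 * Real.pi * Complex.I * m := by
    linear_combination key
  have h3 := mul_left_cancel₀ Complex.two_pi_I_ne_zero h2
  exact_mod_cast h3

theorem wind_of_lift (γ : ℝ → ℂ) (p : ℂ) (hp : ∀ t, γ (t + 1) = γ t) (u : ℝ → ℂ)
    (hu : Continuous u) (hue : ∀ t, Complex.exp (u t) = γ t - p) : ∃ n, HasWind γ p n ∧
      ∀ t, u (t + 1) = u t + 2 * Real.pi * Complex.I * n := by
  have key : ∀ t, Complex.exp (u (t + 1) - u t) = 1 := by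
    intro t
    rw [Complex.exp_sub, hue, hue, hp]
    apply div_self
    rw [← hue]; exact Complex.exp_ne_zero _
  obtain ⟨n, hn⟩ := Complex.exp_eq_one_iff.1 (key 0)
  have hc := wexp_const (fun t => u (t + 1) - u t)
    ((hu.comp (continuous_id.add continuous_const)).sub hu) key
  have : ∀ t, u (t + 1) = u t + 2 * Real.pi * Complex.I * n := by
    intro t
    have := hc t 0
    rw [hn] at this
    linear_combination this
  exact ⟨n, ⟨u, hu, hue, this⟩, this⟩

theorem exists_wind (γ : ℝ → ℂ) (p : ℂ) (hc : Continuous γ) (hp : ∀ t, γ (t + 1) = γ t)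
    (h : ∀ t, γ t ≠ p) : ∃ n, HasWind γ p n := by
  obtain ⟨u, hu, hue⟩ := wlift (0 : ℝ) (fun t => γ t - p) (hc.sub continuous_const)
    (fun t => sub_ne_zero.2 (h t))
  obtain ⟨n, hn, -⟩ := wind_of_lift γ p hp u hu hue
  exact ⟨n, hn⟩

theorem wind_homotopy (H : I × ℝ → ℂ) (hc : Continuous H) (hp : ∀ s t, H (s, t + 1) = H (s, t))
    (p : ℂ) (hne : ∀ s t, H (s, t) ≠ p) (n : ℤ) (h : HasWind (fun t => H (0, t)) p n) :
    HasWind (fun t => H (1, t)) p n := by
  obtain ⟨v, hv, hve, hvp⟩ := h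
  let F : C(I × ℝ, {z : ℂ // z ≠ 0}) :=
    ⟨fun a => ⟨H a - p, sub_ne_zero.2 (hne a.1 a.2)⟩, (hc.sub continuous_const).subtype_mk _⟩
  let f : C(ℝ, ℂ) := ⟨v, hv⟩
  have hF0 : ∀ a : ℝ, F (0, a) = (fun z : ℂ ↦ (⟨_, z.exp_ne_zero⟩ : {z : ℂ // z ≠ 0})) (f a) := by
    intro a
    exact Subtype.ext (hve a).symm
  let u := Complex.isCoveringMap_exp.liftHomotopy F f hF0
  have hu : Continuous u := u.continuous
  have hue : ∀ a, Complex.exp (u a) = H a - p := by
    intro a
    have := congrFun (Complex.isCoveringMap_exp.liftHomotopy_lifts F f hF0) a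
    exact congrArg Subtype.val this
  have hu0 : ∀ t, u (0, t) = v t := fun t =>
    Complex.isCoveringMap_exp.liftHomotopy_zero F f hF0 t
  have key := wexp_const (fun a : I × ℝ => u (a.1, a.2 + 1) - u a)
    ((hu.comp (continuous_fst.prodMk (continuous_snd.add continuous_const))).sub hu) (fun a => by
      rw [Complex.exp_sub, hue, hue, hp]
      apply div_self
      rw [← hue]; exact Complex.exp_ne_zero _)
  refine ⟨fun t => u (1, t), hu.comp (continuous_const.prodMk continuous_id),
    fun t => hue (1, t), fun t => ?_⟩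
  have h2 := key (1, t) (0, 0)
  have h3 : u (0, 0 + 1) - u (0, 0) = 2 * Real.pi * Complex.I * n := by
    rw [hu0, hu0, hvp]; ring
  have h4 : u (1, t + 1) - u (1, t) = u (0, 0 + 1) - u (0, 0) := h2
  rw [h3] at h4
  linear_combination h4

/-- the dog-on-a-leash lemma -/
theorem wind_leash (γ δ : ℝ → ℂ) (hγ : Continuous γ) (hδ : Continuous δ)
    (hγp : ∀ t, γ (t + 1) = γ t) (hδp : ∀ t, δ (t + 1) = δ t) (p : ℂ)
    (h : ∀ t, ‖γ t - δ t‖ < ‖δ t - p‖) (n : ℤ) (hn : HasWind δ p n) : HasWind γ p n := by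
  obtain ⟨u, hu, hue, hup⟩ := hn
  have hne : ∀ t, δ t - p ≠ 0 := fun t => by rw [← hue]; exact Complex.exp_ne_zero _
  have hz : ∀ t, ‖(γ t - δ t) / (δ t - p)‖ < 1 := by
    intro t
    rw [norm_div, div_lt_one (norm_pos_iff.2 (hne t))]
    exact h t
  have hs : ∀ t, 1 + (γ t - δ t) / (δ t - p) ∈ Complex.slitPlane :=
    fun t => Complex.mem_slitPlane_of_norm_lt_one (hz t)
  refine ⟨fun t => u t + Complex.log (1 + (γ t - δ t) / (δ t - p)), ?_, ?_, ?_⟩
  · apply hu.add
    apply Continuous.clog _ hs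
    exact continuous_const.add ((hγ.sub hδ).div (hδ.sub continuous_const) hne)
  · intro t
    rw [Complex.exp_add, hue, Complex.exp_log (Complex.slitPlane_ne_zero (hs t))]
    have := hne t
    field_simp
    ring
  · intro t
    simp only [hγp, hδp, hup]
    ring

theorem wind_circle_center (c : ℂ) (ρ : ℝ) (h : 0 < ρ) :
    HasWind (fun t => c + ρ * Complex.exp (2 * Real.pi * Complex.I * t)) c 1 := by
  refine ⟨fun t => (Real.log ρ : ℂ) + 2 * Real.pi * Complex.I * t, by fun_prop, ?_, ?_⟩
  · intro t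
    rw [Complex.exp_add, ← Complex.ofReal_exp, Real.exp_log h]
    ring
  · intro t
    push_cast
    ring

/-- a round circle -/
theorem wind_circle (c p : ℂ) (ρ : ℝ) (h : ‖p - c‖ < ρ) :
    HasWind (fun t => c + ρ * Complex.exp (2 * Real.pi * Complex.I * t)) p 1 := by
  have hρ : 0 < ρ := lt_of_le_of_lt (norm_nonneg _) h
  have hcont : Continuous fun t : ℝ => c + ρ * Complex.exp (2 * Real.pi * Complex.I * t) := by
    fun_prop
  have hper : ∀ t : ℝ, c + ρ * Complex.exp (2 * Real.pi * Complex.I * ((t + 1 : ℝ) : ℂ)) =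
      c + ρ * Complex.exp (2 * Real.pi * Complex.I * t) := by
    intro t
    push_cast
    rw [mul_add, Complex.exp_add, mul_one, Complex.exp_two_pi_mul_I, mul_one]
  have h1 := wind_leash (fun t => c + ρ * Complex.exp (2 * Real.pi * Complex.I * t) + (c - p))
    (fun t => c + ρ * Complex.exp (2 * Real.pi * Complex.I * t)) (hcont.add continuous_const) hcont
    (fun t => by simp only [hper]) (fun t => hper t) c (fun t => by
      have e1 : c + ρ * Complex.exp (2 * Real.pi * Complex.I * t) + (c - p) -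
        (c + ρ * Complex.exp (2 * Real.pi * Complex.I * t)) = -(p - c) := by ring
      have e2 : c + ρ * Complex.exp (2 * Real.pi * Complex.I * t) - c =
        ρ * Complex.exp (2 * Real.pi * Complex.I * t) := by ring
      have e3 : ‖Complex.exp (2 * Real.pi * Complex.I * t)‖ = 1 := by
        rw [Complex.norm_exp]; simp
      rw [e1, e2, norm_neg, norm_mul, e3, mul_one, Complex.norm_real, Real.norm_of_nonneg hρ.le]
      exact h) 1 (wind_circle_center c ρ hρ)
  obtain ⟨u, hu, hue, hup⟩ := h1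
  refine ⟨u, hu, fun t => ?_, hup⟩
  rw [hue]; ring

/-- loops in a disc have winding number zero about points outside of it -/
theorem wind_zero (γ : ℝ → ℂ) (hγ : Continuous γ) (hγp : ∀ t, γ (t + 1) = γ t) (c p : ℂ)
    (h : ∀ t, ‖γ t - c‖ < ‖c - p‖) : HasWind γ p 0 := by
  have hcp : c - p ≠ 0 := by
    intro h0
    have := h 0
    rw [h0, norm_zero] at this
    exact absurd this (not_lt.2 (norm_nonneg _))
  refine wind_leash γ (fun _ => c) hγ continuous_const hγp (fun _ => rfl) p h 0 ?_
  refine ⟨fun _ => Complex.log (c - p), continuous_const, fun _ => Complex.exp_log hcp, ?_⟩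
  intro t
  simp

/-- a loop on the circle `|z| = R` has the same winding number about all points of the disc -/
theorem wind_eq (γ : ℝ → ℂ) (hγ : Continuous γ) (hγp : ∀ t, γ (t + 1) = γ t) (R : ℝ)
    (hR : ∀ t, ‖γ t‖ = R) (p q : ℂ) (hp : ‖p‖ < R) (hq : ‖q‖ < R) (n : ℤ)
    (h : HasWind γ p n) : HasWind γ q n := by
  have hR0 : 0 < R := lt_of_le_of_lt (norm_nonneg _) hp
  have hne : ∀ t, γ t ≠ 0 := by
    intro t h0
    have := hR t
    rw [h0, norm_zero] at this
    linarith
  have hs : ∀ a : ℂ, ‖a‖ < R → ∀ t, 1 + (-a / γ t) ∈ Complex.slitPlane := by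
    intro a ha t
    apply Complex.mem_slitPlane_of_norm_lt_one
    rw [norm_div, norm_neg, hR, div_lt_one hR0]
    exact ha
  obtain ⟨u, hu, hue, hup⟩ := h
  refine ⟨fun t => u t - Complex.log (1 + (-p / γ t)) + Complex.log (1 + (-q / γ t)), ?_, ?_, ?_⟩
  · apply (hu.sub _).add
    · apply Continuous.clog _ (hs q hq)
      exact continuous_const.add (continuous_const.div hγ hne)
    · apply Continuous.clog _ (hs p hp)
      exact continuous_const.add (continuous_const.div hγ hne)
  · intro t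
    rw [Complex.exp_add, Complex.exp_sub, hue,
      Complex.exp_log (Complex.slitPlane_ne_zero (hs p hp t)),
      Complex.exp_log (Complex.slitPlane_ne_zero (hs q hq t))]
    have h1 := hne t
    have h2 := Complex.slitPlane_ne_zero (hs p hp t)
    have h3 : 1 + -p / γ t = (γ t - p) / γ t := by field_simp; ring
    have h4 : 1 + -q / γ t = (γ t - q) / γ t := by field_simp; ring
    rw [h3] at h2 ⊢
    rw [h4]
    have h5 : γ t - p ≠ 0 := by
      intro h0; rw [h0, zero_div] at h2; exact h2 rfl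
    field_simp
  · intro t
    simp only [hγp, hup]
    ring

end
end Pool.Agent.Helper328.MT
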