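import Mathlib
import Pool.Agent.Helper328.MT.Geo1
import Pool.Agent.Helper328.MT.Cov0
import Pool.Agent.Helper328.MT.S1
import Pool.Agent.Helper328.MT.Ann
import Pool.Agent.Helper328.MT.Gen
import Pool.Agent.Helper328.MT.Wind

set_option autoImplicit false
open scoped ContDiff Topology unitInterval
open Set Filter

namespace Pool.Agent.Helper328.MT
noncomputable section

/-- the standard parametrisation of `circ i` -/
def gam (i : ZMod 5) (t : ℝ) : ℂ := cen i + (4 / 5 : ℝ) * Complex.exp (2 * Real.pi * Complex.I * t)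

theorem nt_norm_exp (t : ℝ) : ‖Complex.exp (2 * Real.pi * Complex.I * t)‖ = 1 := by
  rw [Complex.norm_exp]; simp

theorem gam_sub (i : ZMod 5) (t : ℝ) : ‖gam i t - cen i‖ = 4 / 5 := by
  have : gam i t - cen i = (4 / 5 : ℝ) * Complex.exp (2 * Real.pi * Complex.I * t) := by
    unfold gam; ring
  rw [this, norm_mul, nt_norm_exp, Complex.norm_real, Real.norm_of_nonneg (by norm_num)]
  norm_num

theorem continuous_gam (i : ZMod 5) : Continuous (gam i) := by
  unfold gam; fun_prop

theorem gam_per (i : ZMod 5) (t : ℝ) : gam i (t + 1) = gam i t := by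
  unfold gam
  push_cast
  rw [mul_add, Complex.exp_add, mul_one, Complex.exp_two_pi_mul_I, mul_one]

theorem mem_Surf_of (i : ZMod 5) (z : ℂ) (h : ‖z - cen i‖ = 4 / 5) : z ∈ Surf := by
  have := annulus_sub i z (by rw [h]; norm_num) (by rw [h]; norm_num)
  exact ⟨this.1.le, fun j => (this.2 j).le⟩

theorem gam_mem (i : ZMod 5) (t : ℝ) : gam i t ∈ Surf := mem_Surf_of i _ (gam_sub i t)

theorem nt_ne_ctr (z : ℂ) (hz : z ∈ Surf) (i : ZMod 5) : z ≠ ctr i := by
  rintro rfl
  have := hz.2 i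
  simp at this
  norm_num at this

theorem nt_ctr_sub (a b : ZMod 5) (h : a ≠ b) : 1 < ‖ctr a - ctr b‖ := by
  have h3 : ‖ctr a - ctr b‖ ^ 2 = 2 - 2 * (ctr a * (starRingEnd ℂ) (ctr b)).re := by
    rw [← Complex.normSq_eq_norm_sq, Complex.normSq_sub, Complex.normSq_eq_norm_sq,
      Complex.normSq_eq_norm_sq, norm_ctr, norm_ctr]
    ring
  have h4 := ctr_re_le a b h
  by_contra hcon
  push Not at hcon
  have h5 : ‖ctr a - ctr b‖ ^ 2 ≤ 1 := by
    have := norm_nonneg (ctr a - ctr b)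
    nlinarith
  linarith

theorem gam_wind_one (i k : ZMod 5) (h : k = i ∨ k = i + 1) : HasWind (gam i) (ctr k) 1 :=
  wind_circle (cen i) (ctr k) (4 / 5) (lt_trans (ctr_sub_cen i k h) (by norm_num))

theorem gam_wind_zero (i k : ZMod 5) (h : k ≠ i) (h' : k ≠ i + 1) : HasWind (gam i) (ctr k) 0 := by
  refine wind_zero (gam i) (continuous_gam i) (gam_per i) (cen i) (ctr k) (fun t => ?_)
  rw [gam_sub, norm_sub_rev]
  exact lt_trans (by norm_num) (lt_ctr_sub_cen i k h h')

theorem range_gam (i : ZMod 5) : range (gam i) = Subtype.val '' (circ i) := by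
  ext z
  constructor
  · rintro ⟨t, rfl⟩
    exact ⟨⟨gam i t, gam_mem i t⟩, gam_sub i t, rfl⟩
  · rintro ⟨x, hx, rfl⟩
    have hx' : ‖(x : ℂ) - cen i‖ = 4 / 5 := hx
    have hne : (x : ℂ) - cen i ≠ 0 := by
      intro h0; rw [h0, norm_zero] at hx'; norm_num at hx'
    refine ⟨Complex.arg ((x : ℂ) - cen i) / (2 * Real.pi), ?_⟩
    have h1 := Complex.norm_mul_exp_arg_mul_I ((x : ℂ) - cen i)
    unfold gam
    have h2 : (2 * (Real.pi : ℂ) * Complex.I * ((Complex.arg ((x : ℂ) - cen i) / (2 * Real.pi) : ℝ) : ℂ))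
        = (Complex.arg ((x : ℂ) - cen i)) * Complex.I := by
      push_cast
      have : (Real.pi : ℂ) ≠ 0 := by exact_mod_cast Real.pi_ne_zero
      field_simp
    rw [h2, ← hx', h1]
    ring

theorem circ_isCircle (i : ZMod 5) : IsCircle Surf (circ i) := by
  refine ⟨gam i, ?_, ?_, ?_, range_gam i⟩
  · unfold gam
    apply contDiff_const.add
    apply contDiff_const.mul
    apply Complex.contDiff_exp.comp
    exact contDiff_const.mul Complex.ofRealCLM.contDiff
  · intro t
    have hd : HasDerivAt (gam i) ((4 / 5 : ℝ) * (Complex.exp (2 * Real.pi * Complex.I * t) *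
        (2 * Real.pi * Complex.I))) t := by
      have h1 : HasDerivAt (fun t : ℝ => (2 * Real.pi * Complex.I * (t : ℂ)))
          (2 * Real.pi * Complex.I) t := by
        simpa using (Complex.ofRealCLM.hasDerivAt (x := t)).const_mul (2 * Real.pi * Complex.I)
      have h2 := (h1.cexp.const_mul ((4 / 5 : ℝ) : ℂ)).const_add (cen i)
      exact h2
    rw [hd.deriv]
    apply mul_ne_zero
    · norm_num
    · exact mul_ne_zero (Complex.exp_ne_zero _) Complex.two_pi_I_ne_zero
  · intro s t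
    constructor
    · intro h
      unfold gam at h
      have h1 : Complex.exp (2 * Real.pi * Complex.I * t) = Complex.exp (2 * Real.pi * Complex.I * s) := by
        have h45 : ((4 / 5 : ℝ) : ℂ) ≠ 0 := by norm_num
        have := add_left_cancel h
        exact (mul_left_cancel₀ h45 this).symm
      obtain ⟨n, hn⟩ := Complex.exp_eq_exp_iff_exists_int.1 h1
      refine ⟨n, ?_⟩
      have h2 : (2 * Real.pi * Complex.I) * (t : ℂ) = (2 * Real.pi * Complex.I) * ((s : ℂ) + n) := by
        rw [hn]; ring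
      have h3 := mul_left_cancel₀ Complex.two_pi_I_ne_zero h2
      exact_mod_cast h3
    · rintro ⟨n, rfl⟩
      unfold gam
      congr 2
      push_cast
      rw [mul_add, Complex.exp_add]
      have : Complex.exp (2 * Real.pi * Complex.I * (n : ℂ)) = 1 := by
        rw [Complex.exp_eq_one_iff]; exact ⟨n, by ring⟩
      rw [this, mul_one]

theorem circ_not_boundsDisk (i : ZMod 5) : ¬ BoundsDisk Surf (circ i) := by
  rintro ⟨φ, hφc, hφi, hφm, hφs⟩
  let B : Set ℂ := Metric.closedBall 0 1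
  have hBc : CompactSpace B := isCompact_iff_compactSpace.1 (isCompact_closedBall 0 1)
  let Φ : B → ℂ := fun x => φ x
  have hΦc : Continuous Φ := hφc.restrict
  have hΦi : Function.Injective Φ := fun x y h => Subtype.ext (hφi x.2 y.2 h)
  have hΦ : Topology.IsClosedEmbedding Φ := hΦc.isClosedEmbedding hΦi
  have hex : ∀ t : ℝ, ∃ x : B, Φ x = gam i t := by
    intro t
    have h1 : gam i t ∈ φ '' Metric.sphere 0 1 := by
      rw [hφs, ← range_gam]; exact mem_range_self t
    obtain ⟨x, hx, hx'⟩ := h1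
    exact ⟨⟨x, Metric.sphere_subset_closedBall hx⟩, hx'⟩
  choose ψ hψ using hex
  have hψc : Continuous ψ := by
    rw [hΦ.toIsEmbedding.continuous_iff]
    have : Φ ∘ ψ = gam i := funext hψ
    rw [this]; exact continuous_gam i
  have hψp : ∀ t, ψ (t + 1) = ψ t := fun t => hΦi (by rw [hψ, hψ, gam_per])
  let m : I × ℝ → B := fun a => ⟨(1 - (a.1 : ℝ) : ℝ) * (ψ a.2 : ℂ), by
    have h1 : ‖(ψ a.2 : ℂ)‖ ≤ 1 := mem_closedBall_zero_iff.1 (ψ a.2).2
    have h2 : ‖((1 - (a.1 : ℝ) : ℝ) : ℂ)‖ ≤ 1 := by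
      rw [Complex.norm_real, Real.norm_eq_abs, abs_le]
      constructor <;> linarith [a.1.2.1, a.1.2.2]
    have h3 : ‖((1 - (a.1 : ℝ) : ℝ) : ℂ) * (ψ a.2 : ℂ)‖ ≤ 1 := by
      rw [norm_mul]
      calc ‖((1 - (a.1 : ℝ) : ℝ) : ℂ)‖ * ‖(ψ a.2 : ℂ)‖ ≤ 1 * 1 :=
            mul_le_mul h2 h1 (norm_nonneg _) zero_le_one
        _ = 1 := one_mul 1
    simpa [B] using h3⟩
  have hm : Continuous m := by
    apply Continuous.subtype_mk
    have e1 : Continuous fun a : I × ℝ => ((1 - (a.1 : ℝ) : ℝ) : ℂ) :=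
      Complex.continuous_ofReal.comp (continuous_const.sub (continuous_subtype_val.comp continuous_fst))
    exact e1.mul (continuous_subtype_val.comp (hψc.comp continuous_snd))
  let K : I × ℝ → ℂ := fun a => Φ (m a)
  have hK : Continuous K := hΦc.comp hm
  have hKS : ∀ a, K a ∈ Surf := fun a => hφm (m a).2
  have hKp : ∀ s t, K (s, t + 1) = K (s, t) := by
    intro s t
    show Φ (m (s, t + 1)) = Φ (m (s, t))
    congr 1
    apply Subtype.ext
    show ((1 - (s : ℝ) : ℝ) : ℂ) * (ψ (t + 1) : ℂ) = ((1 - (s : ℝ) : ℝ) : ℂ) * (ψ t : ℂ)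
    rw [hψp]
  have hK0 : (fun t => K (0, t)) = gam i := by
    funext t
    show Φ (m (0, t)) = gam i t
    rw [← hψ t]
    congr 1
    apply Subtype.ext
    show ((1 - ((0 : I) : ℝ) : ℝ) : ℂ) * (ψ t : ℂ) = (ψ t : ℂ)
    simp
  have hw := wind_homotopy K hK hKp (ctr i) (fun s t => nt_ne_ctr _ (hKS (s, t)) i) 1
    (by rw [hK0]; exact gam_wind_one i i (Or.inl rfl))
  have hK1 : ∀ t, K (1, t) = K (1, 0) := by
    intro t
    show Φ (m (1, t)) = Φ (m (1, 0))
    congr 1
    apply Subtype.ext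
    show ((1 - ((1 : I) : ℝ) : ℝ) : ℂ) * (ψ t : ℂ) = ((1 - ((1 : I) : ℝ) : ℝ) : ℂ) * (ψ 0 : ℂ)
    simp
  have hw0 : HasWind (fun t => K (1, t)) (ctr i) 0 := by
    refine wind_zero (fun t => K (1, t)) (hK.comp (continuous_const.prodMk continuous_id)) (hKp 1)
      (K (1, 0)) (ctr i) (fun t => ?_)
    show ‖K (1, t) - K (1, 0)‖ < ‖K (1, 0) - ctr i‖
    rw [hK1 t, sub_self, norm_zero]
    exact norm_pos_iff.2 (sub_ne_zero.2 (nt_ne_ctr _ (hKS (1, 0)) i))
  have := wind_unique _ _ _ _ hw hw0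
  norm_num at this

theorem circ_not_deforms (i : ZMod 5) : ¬ DeformsIntoBoundary Surf (circ i) := by
  rintro ⟨H, hHc, hHS, hH0, hH1⟩
  let K : I × ℝ → ℂ := fun a => H (a.1, gam i a.2)
  have hmemC : ∀ t, (⟨gam i t, gam_mem i t⟩ : Surf) ∈ circ i := fun t => gam_sub i t
  have hK : Continuous K := by
    apply hHc.comp_continuous
    · exact (continuous_subtype_val.comp continuous_fst).prodMk ((continuous_gam i).comp continuous_snd)
    · intro a
      exact ⟨a.1.2, ⟨⟨gam i a.2, gam_mem i a.2⟩, hmemC a.2, rfl⟩⟩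
  have hKp : ∀ s t, K (s, t + 1) = K (s, t) := by
    intro s t
    show H (s, gam i (t + 1)) = H (s, gam i t)
    rw [gam_per]
  have hKS : ∀ a, K a ∈ Surf := fun a => hHS a.1 a.1.2 ⟨gam i a.2, gam_mem i a.2⟩ (hmemC a.2)
  have hK0 : (fun t => K (0, t)) = gam i := by
    funext t
    exact hH0 ⟨gam i t, gam_mem i t⟩ (hmemC t)
  have hK1 : ∀ t, K (1, t) ∈ frontier Surf := fun t => hH1 ⟨gam i t, gam_mem i t⟩ (hmemC t)
  have hwind : ∀ k n, HasWind (gam i) (ctr k) n → HasWind (fun t => K (1, t)) (ctr k) n := by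
    intro k n h
    exact wind_homotopy K hK hKp (ctr k) (fun s t => nt_ne_ctr _ (hKS (s, t)) k) n
      (by rw [hK0]; exact h)
  have hβc : Continuous fun t => K (1, t) := hK.comp (continuous_const.prodMk continuous_id)
  have hfr : ∀ t, ‖K (1, t)‖ = 2 ∨ ∃ k, ‖K (1, t) - ctr k‖ = 1 / 10 := by
    intro t
    have := hK1 t
    rw [frontier_Surf] at this
    exact this
  rcases hfr 0 with h0 | ⟨k, h0⟩
  · have hall : ∀ t, ‖K (1, t)‖ = 2 := by
      intro t
      rcases hfr t with h | ⟨k, hk⟩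
      · exact h
      · exfalso
        have h2 : ‖K (1, t)‖ ≤ 11 / 10 := by
          calc ‖K (1, t)‖ = ‖(K (1, t) - ctr k) + ctr k‖ := by rw [sub_add_cancel]
            _ ≤ ‖K (1, t) - ctr k‖ + ‖ctr k‖ := norm_add_le _ _
            _ = 11 / 10 := by rw [hk, norm_ctr]; norm_num
        obtain ⟨x, -, hx⟩ := isPreconnected_univ.intermediate_value (mem_univ t) (mem_univ (0:ℝ))
          hβc.norm.continuousOn (show (3 / 2 : ℝ) ∈ Icc ‖K (1, t)‖ ‖K (1, 0)‖ from
            ⟨by linarith, by rw [h0]; norm_num⟩)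
        have hx' : ‖K (1, x)‖ = 3 / 2 := hx
        rcases hfr x with h | ⟨l, hl⟩
        · rw [hx'] at h; norm_num at h
        · have h3 : ‖K (1, x)‖ ≤ 11 / 10 := by
            calc ‖K (1, x)‖ = ‖(K (1, x) - ctr l) + ctr l‖ := by rw [sub_add_cancel]
              _ ≤ ‖K (1, x) - ctr l‖ + ‖ctr l‖ := norm_add_le _ _
              _ = 11 / 10 := by rw [hl, norm_ctr]; norm_num
          rw [hx'] at h3; norm_num at h3
    have e1 := hwind i 1 (gam_wind_one i i (Or.inl rfl))
    have d1 : i + 2 ≠ i := by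
      intro h; have : (2 : ZMod 5) = 0 := by simpa using h
      exact absurd this (by decide)
    have d2 : i + 2 ≠ i + 1 := by
      intro h; have : (2 : ZMod 5) = 1 := by simpa using h
      exact absurd this (by decide)
    have e2 := hwind (i + 2) 0 (gam_wind_zero i (i + 2) d1 d2)
    have e3 := wind_eq _ hβc (hKp 1) 2 hall (ctr i) (ctr (i + 2)) (by rw [norm_ctr]; norm_num)
      (by rw [norm_ctr]; norm_num) 1 e1
    have := wind_unique _ _ _ _ e2 e3
    norm_num at this
  · have hfar : ∀ t, ‖K (1, t) - ctr k‖ = 1 / 10 ∨ 1 / 2 < ‖K (1, t) - ctr k‖ := by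
      intro t
      rcases hfr t with h | ⟨l, hl⟩
      · right
        have : ‖K (1, t)‖ ≤ ‖K (1, t) - ctr k‖ + ‖ctr k‖ := by
          calc ‖K (1, t)‖ = ‖(K (1, t) - ctr k) + ctr k‖ := by rw [sub_add_cancel]
            _ ≤ _ := norm_add_le _ _
        rw [h, norm_ctr] at this
        linarith
      · by_cases hlk : l = k
        · left; rw [← hlk]; exact hl
        · right
          have h1 := nt_ctr_sub l k hlk
          have h2 : ‖ctr l - ctr k‖ ≤ ‖K (1, t) - ctr k‖ + ‖K (1, t) - ctr l‖ := by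
            calc ‖ctr l - ctr k‖ = ‖(K (1, t) - ctr k) - (K (1, t) - ctr l)‖ := by congr 1; ring
              _ ≤ _ := norm_sub_le _ _
          rw [hl] at h2
          linarith
    have hall : ∀ t, ‖K (1, t) - ctr k‖ = 1 / 10 := by
      intro t
      rcases hfar t with h | h
      · exact h
      · exfalso
        obtain ⟨x, -, hx⟩ := isPreconnected_univ.intermediate_value (mem_univ (0:ℝ)) (mem_univ t)
          (hβc.sub continuous_const).norm.continuousOn
          (show (3 / 10 : ℝ) ∈ Icc ‖K (1, 0) - ctr k‖ ‖K (1, t) - ctr k‖ from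
            ⟨by rw [h0]; norm_num, by linarith⟩)
        have hx' : ‖K (1, x) - ctr k‖ = 3 / 10 := hx
        rcases hfar x with h3 | h3
        · rw [hx'] at h3; norm_num at h3
        · rw [hx'] at h3; norm_num at h3
    obtain ⟨l, hl, hlk⟩ : ∃ l, (l = i ∨ l = i + 1) ∧ k ≠ l := by
      by_cases hki : k = i
      · refine ⟨i + 1, Or.inr rfl, ?_⟩
        rw [hki]
        intro h
        have : (1 : ZMod 5) = 0 := by simpa using h.symm
        exact absurd this (by decide)
      · exact ⟨i, Or.inl rfl, hki⟩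
    have e1 := hwind l 1 (gam_wind_one i l hl)
    have e2 : HasWind (fun t => K (1, t)) (ctr l) 0 := by
      refine wind_zero _ hβc (hKp 1) (ctr k) (ctr l) (fun t => ?_)
      rw [hall t]
      exact lt_trans (by norm_num) (nt_ctr_sub k l hlk)
    have := wind_unique _ _ _ _ e1 e2
    norm_num at this

theorem circ_not_isotopic (i j : ZMod 5) (h : i ≠ j) :
    ¬ IsotopicCircles Surf (circ i) (circ j) := by
  rintro ⟨d, hd, hdj⟩
  obtain ⟨H, hH0, hH1⟩ := diff0_homotopy Surf d hd
  let g : ℝ → Surf := fun t => ⟨gam i t, gam_mem i t⟩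
  have hg : Continuous g := (continuous_gam i).subtype_mk _
  have hgp : ∀ t, g (t + 1) = g t := fun t => Subtype.ext (gam_per i t)
  let K : I × ℝ → ℂ := fun a => (H (a.1, g a.2) : ℂ)
  have hK : Continuous K :=
    continuous_subtype_val.comp (H.continuous.comp (continuous_fst.prodMk (hg.comp continuous_snd)))
  have hKp : ∀ s t, K (s, t + 1) = K (s, t) := by
    intro s t
    show ((H (s, g (t + 1)) : Surf) : ℂ) = H (s, g t)
    rw [hgp]
  have hK0 : (fun t => K (0, t)) = gam i := by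
    funext t
    show ((H (0, g t) : Surf) : ℂ) = gam i t
    rw [hH0]
  have hK1 : ∀ t, ‖K (1, t) - cen j‖ = 4 / 5 := by
    intro t
    have h1 : H (1, g t) ∈ circ j := by
      rw [hdj, hH1]
      exact ⟨g t, gam_sub i t, rfl⟩
    exact h1
  have hdec : ∀ i j : ZMod 5, i ≠ j → ∃ k, (k = i ∨ k = i + 1) ∧ k ≠ j ∧ k ≠ j + 1 := by decide
  obtain ⟨k, hk, hk1, hk2⟩ := hdec i j h
  have e1 := wind_homotopy K hK hKp (ctr k) (fun s t => nt_ne_ctr _ (H (s, g t)).2 k) 1
    (by rw [hK0]; exact gam_wind_one i k hk)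
  have e2 : HasWind (fun t => K (1, t)) (ctr k) 0 := by
    refine wind_zero (fun t => K (1, t)) (hK.comp (continuous_const.prodMk continuous_id)) (hKp 1)
      (cen j) (ctr k) (fun t => ?_)
    show ‖K (1, t) - cen j‖ < ‖cen j - ctr k‖
    rw [hK1 t, norm_sub_rev]
    exact lt_trans (by norm_num) (lt_ctr_sub_cen j k hk1 hk2)
  have := wind_unique _ _ _ _ e1 e2
  norm_num at this

end
end Pool.Agent.Helper328.MT
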