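import Mathlib
import Pool.Agent.Helper328.MT.Geo1
import Pool.Agent.Helper328.MT.Cov0
import Pool.Agent.Helper328.MT.Ann

/-! Mapping class groups of planar surfaces: the definitions. -/

set_option autoImplicit false
open scoped ContDiff Topology unitInterval
open Set Filter

namespace Pool.Agent.Helper328.MT
noncomputable section

/-! ### Diffeomorphisms and isotopies of a planar surface `S ⊆ ℂ` -/

instance (S : Set ℂ) : (Diff0 S).Normal := Subgroup.normalClosure_normal

/-! ### Circles -/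

/-! ### Dehn twists and multi-twists -/

/-! ### The Nielsen–Thurston trichotomy -/

/-! ### The question -/

/-! ### The surface of the counterexample -/

theorem exists_rot_mem (k : ZMod 5) (z : ℂ) (hz : z ∈ Surf) : ctr k * z ∈ Surf := by
  refine ⟨?_, fun i => ?_⟩
  · rw [norm_mul, norm_ctr, one_mul]
    exact hz.1
  · have h1 : ctr i = ctr k * ctr (i - k) := by
      rw [← ctr_add]
      congr 1
      ring
    rw [h1, ← mul_sub, norm_mul, norm_ctr, one_mul]
    exact hz.2 (i - k)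

theorem exists_rot_sm (k : ZMod 5) (e : Surf → Surf) (he : ∀ x : Surf, ctr k * (x : ℂ) = e x) :
    IsSmoothSelfMap Surf e :=
  ⟨univ, fun z => ctr k * z, isOpen_univ, subset_univ _,
    (contDiff_const.mul contDiff_id).contDiffOn, he⟩

theorem exists_rot : ∃ f : Diff Surf, ∀ x : Surf, ((f : Equiv.Perm Surf) x : ℂ) = ctr 2 * x := by
  have h1 : ctr (-2) * ctr 2 = 1 := by
    rw [← ctr_add, neg_add_cancel, ctr_zero]
  have h2 : ctr 2 * ctr (-2) = 1 := by
    rw [← ctr_add, add_neg_cancel, ctr_zero]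
  refine ⟨⟨{ toFun := fun x => ⟨ctr 2 * x, exists_rot_mem 2 x x.2⟩
             invFun := fun x => ⟨ctr (-2) * x, exists_rot_mem (-2) x x.2⟩
             left_inv := fun x => Subtype.ext ?_
             right_inv := fun x => Subtype.ext ?_ }, ?_, ?_⟩, fun x => rfl⟩
  · show ctr (-2) * (ctr 2 * (x : ℂ)) = x
    rw [← mul_assoc, h1, one_mul]
  · show ctr 2 * (ctr (-2) * (x : ℂ)) = x
    rw [← mul_assoc, h2, one_mul]
  · exact exists_rot_sm 2 _ (fun x => rfl)
  · exact exists_rot_sm (-2) _ (fun x => rfl)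

/-- phase -/
def twph (s : ℤ) (r : ℝ) : ℂ :=
  Complex.exp (((2 * Real.pi * ((s : ℝ) *
    Real.smoothTransition ((r - 3 / 4) / (17 / 20 - 3 / 4))) : ℝ) : ℂ) * Complex.I)

theorem twph_norm (s : ℤ) (r : ℝ) : ‖twph s r‖ = 1 := Complex.norm_exp_ofReal_mul_I _

theorem twph_mul (s : ℤ) (r : ℝ) : twph s r * twph (-s) r = 1 := by
  unfold twph
  rw [← Complex.exp_add, ← Complex.exp_zero]
  congr 1
  push_cast
  ring

theorem twph_zero (s : ℤ) (r : ℝ) (h : r ≤ 3 / 4) : twph s r = 1 := by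
  unfold twph
  rw [Real.smoothTransition.zero_of_nonpos, mul_zero, mul_zero, Complex.ofReal_zero, zero_mul,
    Complex.exp_zero]
  apply div_nonpos_of_nonpos_of_nonneg
  · linarith
  · norm_num

theorem twph_one (s : ℤ) (r : ℝ) (h : 17 / 20 ≤ r) : twph s r = 1 := by
  unfold twph
  rw [Real.smoothTransition.one_of_one_le, mul_one]
  · rw [← Complex.exp_int_mul_two_pi_mul_I s]
    congr 1
    push_cast
    ring
  · rw [le_div_iff₀ (by norm_num)]
    linarith

/-- twist -/
def twz (s : ℤ) (z : ℂ) : ℂ := z * twph s ‖z‖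

theorem twz_norm (s : ℤ) (z : ℂ) : ‖twz s z‖ = ‖z‖ := by
  unfold twz
  rw [norm_mul, twph_norm, mul_one]

theorem twz_inv (s : ℤ) (z : ℂ) : twz (-s) (twz s z) = z := by
  show twz s z * twph (-s) ‖twz s z‖ = z
  rw [twz_norm]
  show z * twph s ‖z‖ * twph (-s) ‖z‖ = z
  rw [mul_assoc, twph_mul, mul_one]

theorem twz_smooth (s : ℤ) : ContDiff ℝ ∞ (twz s) := by
  rw [contDiff_iff_contDiffAt]
  intro z
  by_cases hz : z = 0
  · subst hz
    have h1 : twz s =ᶠ[𝓝 0] id := by
      have h2 : ∀ᶠ z : ℂ in 𝓝 0, ‖z‖ < 3 / 4 := by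
        have h3 := Metric.ball_mem_nhds (0 : ℂ) (show (0 : ℝ) < 3 / 4 by norm_num)
        filter_upwards [h3] with z hz
        rwa [mem_ball_zero_iff] at hz
      filter_upwards [h2] with z hz
      show z * twph s ‖z‖ = z
      rw [twph_zero s _ hz.le, mul_one]
    exact contDiffAt_id.congr_of_eventuallyEq h1
  · have h1 : ContDiffAt ℝ ∞ (fun z : ℂ => ‖z‖) z := contDiffAt_norm ℝ hz
    have h2 : ContDiffAt ℝ ∞ (fun z : ℂ => (‖z‖ - 3 / 4) / (17 / 20 - 3 / 4)) z :=
      (h1.sub contDiffAt_const).div_const _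
    have h3 : ContDiffAt ℝ ∞ (fun z : ℂ =>
        Real.smoothTransition ((‖z‖ - 3 / 4) / (17 / 20 - 3 / 4))) z :=
      Real.smoothTransition.contDiff.contDiffAt.comp z h2
    have h4 : ContDiffAt ℝ ∞ (fun z : ℂ => (2 * Real.pi * ((s : ℝ) *
        Real.smoothTransition ((‖z‖ - 3 / 4) / (17 / 20 - 3 / 4))) : ℝ)) z :=
      contDiffAt_const.mul (contDiffAt_const.mul h3)
    have h5 : ContDiffAt ℝ ∞ (fun z : ℂ => (((2 * Real.pi * ((s : ℝ) *
        Real.smoothTransition ((‖z‖ - 3 / 4) / (17 / 20 - 3 / 4))) : ℝ)) : ℂ)) z :=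
      Complex.ofRealCLM.contDiff.contDiffAt.comp z h4
    have h6 : ContDiffAt ℝ ∞ (fun z : ℂ => twph s ‖z‖) z :=
      Complex.contDiff_exp.contDiffAt.comp z (h5.mul contDiffAt_const)
    exact contDiffAt_id.mul h6

theorem twz_mem (s : ℤ) (x : ℂ) (hx : x ∈ Surf) : cen 0 + twz s (x - cen 0) ∈ Surf := by
  have hfix : twph s ‖x - cen 0‖ = 1 → cen 0 + twz s (x - cen 0) ∈ Surf := by
    intro h
    show cen 0 + (x - cen 0) * twph s ‖x - cen 0‖ ∈ Surf
    rw [h, mul_one, add_sub_cancel]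
    exact hx
  rcases le_or_gt ‖x - cen 0‖ (3 / 4) with h | h
  · exact hfix (twph_zero s _ h)
  · rcases le_or_gt (17 / 20) ‖x - cen 0‖ with h' | h'
    · exact hfix (twph_one s _ h')
    · have h1 : ‖cen 0 + twz s (x - cen 0) - cen 0‖ = ‖x - cen 0‖ := by
        rw [add_sub_cancel_left, twz_norm]
      have h2 := annulus_sub 0 (cen 0 + twz s (x - cen 0)) (by rw [h1]; linarith)
        (by rw [h1]; linarith)
      exact ⟨h2.1.le, fun i => (h2.2 i).le⟩

theorem twz_sm (s : ℤ) (e : Surf → Surf)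
    (he : ∀ x : Surf, cen 0 + twz s ((x : ℂ) - cen 0) = e x) : IsSmoothSelfMap Surf e :=
  ⟨univ, fun z => cen 0 + twz s (z - cen 0), isOpen_univ, subset_univ _,
    (contDiff_const.add ((twz_smooth s).comp (contDiff_id.sub contDiff_const))).contDiffOn, he⟩

theorem exists_twist : ∃ T : Diff Surf, ∀ x : Surf,
    ((T : Equiv.Perm Surf) x : ℂ) = cen 0 + modelTwist (3 / 4) (17 / 20) (x - cen 0) := by
  refine ⟨⟨{ toFun := fun x => ⟨cen 0 + twz 1 (x - cen 0), twz_mem 1 x x.2⟩
             invFun := fun x => ⟨cen 0 + twz (-1) (x - cen 0), twz_mem (-1) x x.2⟩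
             left_inv := fun x => Subtype.ext ?_
             right_inv := fun x => Subtype.ext ?_ }, ?_, ?_⟩, fun x => ?_⟩
  · show cen 0 + twz (-1) (cen 0 + twz 1 ((x : ℂ) - cen 0) - cen 0) = x
    rw [add_sub_cancel_left, twz_inv, add_sub_cancel]
  · show cen 0 + twz 1 (cen 0 + twz (-1) ((x : ℂ) - cen 0) - cen 0) = x
    have h := twz_inv (-1) ((x : ℂ) - cen 0)
    rw [neg_neg] at h
    rw [add_sub_cancel_left, h, add_sub_cancel]
  · exact twz_sm 1 _ (fun x => rfl)
  · exact twz_sm (-1) _ (fun x => rfl)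
  · show cen 0 + twz 1 ((x : ℂ) - cen 0) = cen 0 + modelTwist (3 / 4) (17 / 20) (x - cen 0)
    unfold twz modelTwist twph
    congr 3
    push_cast
    ring

end
end Pool.Agent.Helper328.MT
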