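import Mathlib
import Pool.Agent.Helper328.MT.Geo1
import Pool.Agent.Helper328.MT.Cov0
import Pool.Agent.Helper328.MT.Ann
import Pool.Agent.Helper328.MT.S1

/-! Mapping class groups of planar surfaces: the definitions. -/

set_option autoImplicit false
open scoped ContDiff Topology unitInterval
open Set Filter

namespace Pool.Agent.Helper328.MT
noncomputable section

/-! ### Diffeomorphisms and isotopies of a planar surface `S ⊆ ℂ` -/

instance (S : Set ℂ) : (Diff0 S).Normal := Subgroup.normalClosure_normal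

/-! ### Circles -/

/-! ### Dehn twists and multi-twists -/

/-! ### The Nielsen–Thurston trichotomy -/

/-! ### The question -/

/-! ### The surface of the counterexample -/

theorem dehn_zero_out (z : ℂ) (hz : z ∉ annulus (3 / 4) (17 / 20)) :
    modelTwist (3 / 4) (17 / 20) z = z := by
  have h : ‖z‖ < 3 / 4 ∨ 17 / 20 < ‖z‖ := by
    by_contra hcon
    push Not at hcon
    exact hz ⟨hcon.1, hcon.2⟩
  unfold modelTwist
  rcases h with h | h
  · rw [Real.smoothTransition.zero_of_nonpos]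
    · simp
    · apply div_nonpos_of_nonpos_of_nonneg
      · linarith
      · norm_num
  · rw [Real.smoothTransition.one_of_one_le]
    · rw [Complex.ofReal_one, mul_one, Complex.exp_two_pi_mul_I, mul_one]
    · rw [one_le_div (by norm_num)]
      linarith

theorem dehn_zero_det (c : ℂ) : (c • (ContinuousLinearMap.id ℝ ℂ)).det = Complex.normSq c := by
  rw [← Algebra.norm_complex_apply, Algebra.norm_apply]
  unfold ContinuousLinearMap.det
  congr 1

theorem dehn_zero_gen (c : ℂ) (hc : ‖c‖ = 1) (i : ZMod 5) (hci : c * cen 0 = cen i) (T : Diff Surf)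
    (hT : ∀ x : Surf, ((T : Equiv.Perm Surf) x : ℂ) =
      c * (cen 0 + modelTwist (3 / 4) (17 / 20) ((starRingEnd ℂ) c * x - cen 0))) :
    IsDehnTwist Surf (circ i) (T : MCG Surf) := by
  have hcc : c * (starRingEnd ℂ) c = 1 := by
    rw [Complex.mul_conj, Complex.normSq_eq_norm_sq, hc]
    norm_num
  have hc0 : c ≠ 0 := by
    intro h0
    rw [h0, norm_zero] at hc
    exact zero_ne_one hc
  have hdist : ∀ z, ‖c * (cen 0 + z) - cen i‖ = ‖z‖ := by
    intro z
    rw [← hci]
    have : c * (cen 0 + z) - c * cen 0 = c * z := by ring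
    rw [this, norm_mul, hc, one_mul]
  have hinv : ∀ x : ℂ, c * (cen 0 + ((starRingEnd ℂ) c * x - cen 0)) = x := by
    intro x
    have : c * (cen 0 + ((starRingEnd ℂ) c * x - cen 0)) = (c * (starRingEnd ℂ) c) * x := by ring
    rw [this, hcc, one_mul]
  refine ⟨3 / 4, 4 / 5, 17 / 20, {z | 74 / 100 < ‖z‖ ∧ ‖z‖ < 86 / 100}, fun z => c * (cen 0 + z), T,
    by norm_num, by norm_num, by norm_num, ?_, ?_, ?_, ?_, ?_, ?_, ?_, ?_, ?_, rfl⟩
  · exact (isOpen_lt continuous_const continuous_norm).inter (isOpen_lt continuous_norm continuous_const)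
  · rintro z ⟨h1, h2⟩
    refine ⟨?_, ?_⟩
    · linarith
    · linarith
  · exact (contDiff_const.mul (contDiff_const.add contDiff_id)).contDiffOn
  · intro z _ w _ h
    exact add_left_cancel (mul_left_cancel₀ hc0 h)
  · intro z _
    have hd : HasFDerivAt (fun z : ℂ => c * (cen 0 + z)) (c • (ContinuousLinearMap.id ℝ ℂ)) z :=
      ((hasFDerivAt_id z).const_add (cen 0)).const_mul c
    rw [hd.fderiv, dehn_zero_det, Complex.normSq_eq_norm_sq, hc]
    norm_num
  · rintro z ⟨h1, h2⟩
    rw [interior_Surf]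
    rw [← hdist z] at h1 h2
    exact annulus_sub i _ h1 h2
  · ext x
    constructor
    · rintro ⟨z, hz, rfl⟩
      have hz' : ‖z‖ = 4 / 5 := hz
      have h3 : ‖c * (cen 0 + z) - cen i‖ = 4 / 5 := by rw [hdist z]; exact hz'
      have h4 := annulus_sub i (c * (cen 0 + z)) (by rw [h3]; norm_num) (by rw [h3]; norm_num)
      exact ⟨⟨c * (cen 0 + z), h4.1.le, fun j => (h4.2 j).le⟩, h3, rfl⟩
    · rintro ⟨y, hy, rfl⟩
      refine ⟨(starRingEnd ℂ) c * y - cen 0, ?_, hinv y⟩
      have hy' : ‖(y : ℂ) - cen i‖ = 4 / 5 := hy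
      show ‖(starRingEnd ℂ) c * y - cen 0‖ = 4 / 5
      rw [← hdist, hinv, hy']
  · intro x hx
    apply Subtype.ext
    rw [hT]
    rw [dehn_zero_out, hinv]
    intro h
    exact hx ⟨_, h, hinv x⟩
  · intro x z hz hxz
    rw [hT, hxz]
    have : (starRingEnd ℂ) c * (c * (cen 0 + z)) - cen 0 = (c * (starRingEnd ℂ) c) * (cen 0 + z) - cen 0 := by ring
    rw [this, hcc, one_mul, add_sub_cancel_left]

theorem dehn_zero (T : Diff Surf)
    (hT : ∀ x : Surf, ((T : Equiv.Perm Surf) x : ℂ) =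
      cen 0 + modelTwist (3 / 4) (17 / 20) (x - cen 0)) :
    IsDehnTwist Surf (circ 0) (T : MCG Surf) := by
  apply dehn_zero_gen 1 norm_one 0 (one_mul _) T
  intro x
  rw [hT, map_one, one_mul, one_mul]

theorem dehn_two (f T : Diff Surf) (hf : ∀ x : Surf, ((f : Equiv.Perm Surf) x : ℂ) = ctr 2 * x)
    (hT : ∀ x : Surf, ((T : Equiv.Perm Surf) x : ℂ) =
      cen 0 + modelTwist (3 / 4) (17 / 20) (x - cen 0)) :
    IsDehnTwist Surf (circ 2) ((f * T * f⁻¹ : Diff Surf) : MCG Surf) := by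
  apply dehn_zero_gen (ctr 2) (norm_ctr 2) 2
  · have := cen_mul 0
    rw [zero_add] at this
    exact this
  · intro x
    show ((f : Equiv.Perm Surf) ((T : Equiv.Perm Surf) ((f : Equiv.Perm Surf)⁻¹ x)) : ℂ) = _
    rw [hf, hT]
    have h1 : (((f : Equiv.Perm Surf)⁻¹ x : Surf) : ℂ) = (starRingEnd ℂ) (ctr 2) * x := by
      have h2 := hf ((f : Equiv.Perm Surf)⁻¹ x)
      have h3 : (f : Equiv.Perm Surf) ((f : Equiv.Perm Surf)⁻¹ x) = x :=
        Equiv.apply_symm_apply (f : Equiv.Perm Surf) x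
      rw [h3] at h2
      rw [h2, ← mul_assoc, mul_comm ((starRingEnd ℂ) (ctr 2)), ctr_mul_conj, one_mul]
    rw [h1]

end
end Pool.Agent.Helper328.MT
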