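import Mathlib
import Pool.Agent.Helper328.MT.Geo1
import Pool.Agent.Helper328.MT.Cov0
import Pool.Agent.Helper328.MT.Ann

/-! Mapping class groups of planar surfaces: the definitions. -/

set_option autoImplicit false
open scoped ContDiff Topology unitInterval
open Set Filter

namespace Pool.Agent.Helper328.MT
noncomputable section

/-! ### Diffeomorphisms and isotopies of a planar surface `S ⊆ ℂ` -/

instance (S : Set ℂ) : (Diff0 S).Normal := Subgroup.normalClosure_normal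

/-! ### Circles -/

/-! ### Dehn twists and multi-twists -/

/-! ### The Nielsen–Thurston trichotomy -/

/-! ### The question -/

/-! ### The surface of the counterexample -/

theorem mt_low (a b : ℝ) (hab : a < b) (z : ℂ) (hz : ‖z‖ ≤ a) : modelTwist a b z = z := by
  unfold modelTwist
  have h1 : (‖z‖ - a) / (b - a) ≤ 0 :=
    div_nonpos_of_nonpos_of_nonneg (by linarith) (by linarith)
  rw [Real.smoothTransition.zero_of_nonpos h1, Complex.ofReal_zero, mul_zero, Complex.exp_zero,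
    mul_one]

theorem mt_high (a b : ℝ) (hab : a < b) (z : ℂ) (hz : b ≤ ‖z‖) : modelTwist a b z = z := by
  unfold modelTwist
  have h1 : 1 ≤ (‖z‖ - a) / (b - a) := by
    rw [le_div_iff₀ (by linarith)]
    linarith
  rw [Real.smoothTransition.one_of_one_le h1, Complex.ofReal_one, mul_one,
    Complex.exp_two_pi_mul_I, mul_one]

theorem mt_norm (a b : ℝ) (z : ℂ) : ‖modelTwist a b z‖ = ‖z‖ := by
  unfold modelTwist
  generalize Real.smoothTransition ((‖z‖ - a) / (b - a)) = s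
  have h1 : 2 * (Real.pi : ℂ) * Complex.I * (s : ℂ) = ((2 * Real.pi * s : ℝ) : ℂ) * Complex.I := by
    push_cast
    ring
  rw [norm_mul, h1, Complex.norm_exp_ofReal_mul_I, mul_one]

theorem mt_rot (a b : ℝ) (w z : ℂ) (hw : ‖w‖ = 1) :
    modelTwist a b (w * z) = w * modelTwist a b z := by
  unfold modelTwist
  rw [norm_mul, hw, one_mul, mul_assoc]

theorem rot_pow (f : Diff Surf) (hf : ∀ x : Surf, ((f : Equiv.Perm Surf) x : ℂ) = ctr 2 * x)
    (n : ℕ) (x : Surf) : (((f ^ n : Diff Surf) : Equiv.Perm Surf) x : ℂ) = ctr 2 ^ n * x := by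
  induction n with
  | zero => simp
  | succ n ih =>
    rw [pow_succ', Subgroup.coe_mul, Equiv.Perm.mul_apply, hf, ih, pow_succ']
    ring

theorem rot_pow_five (f : Diff Surf) (hf : ∀ x : Surf, ((f : Equiv.Perm Surf) x : ℂ) = ctr 2 * x) :
    f ^ 5 = 1 := by
  apply Subtype.ext
  apply Equiv.ext
  intro x
  apply Subtype.ext
  rw [rot_pow f hf 5 x, ctr_pow_five, one_mul]
  rfl

theorem img_rot (f : Diff Surf) (hf : ∀ x : Surf, ((f : Equiv.Perm Surf) x : ℂ) = ctr 2 * x)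
    (i : ZMod 5) : img f (circ i) = circ (i + 2) := by
  have key : ∀ x : Surf, ‖(((f : Equiv.Perm Surf) x : Surf) : ℂ) - cen (i + 2)‖
      = ‖(x : ℂ) - cen i‖ := by
    intro x
    rw [hf, ← cen_mul, ← mul_sub, norm_mul, norm_ctr, one_mul]
  ext y
  unfold img circ
  constructor
  · rintro ⟨x, hx, rfl⟩
    rw [mem_setOf_eq] at hx ⊢
    rw [key]
    exact hx
  · intro hy
    rw [mem_setOf_eq] at hy
    refine ⟨(f : Equiv.Perm Surf).symm y, ?_, Equiv.apply_symm_apply _ y⟩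
    rw [mem_setOf_eq, ← key, Equiv.apply_symm_apply]
    exact hy

theorem img_mul (f g : Diff Surf) (C : Set Surf) : img (f * g) C = img f (img g C) := by
  unfold img
  rw [Subgroup.coe_mul, Equiv.Perm.coe_mul, image_comp]

theorem img_rot_zpow (f : Diff Surf)
    (hf : ∀ x : Surf, ((f : Equiv.Perm Surf) x : ℂ) = ctr 2 * x) (m : ℕ) (i : ZMod 5) :
    img (f ^ (m : ℤ)) (circ i) = circ (i + 2 * m) := by
  rw [zpow_natCast]
  induction m with
  | zero =>
    rw [pow_zero, Nat.cast_zero, mul_zero, add_zero]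
    unfold img
    simp
  | succ m ih =>
    rw [pow_succ', img_mul, ih, img_rot f hf]
    congr 1
    push_cast
    ring

theorem circ_disjoint (i : ZMod 5) : Disjoint (circ i) (circ (i + 2)) := by
  rw [Set.disjoint_left]
  intro x h1 h2
  unfold circ at h1 h2
  rw [mem_setOf_eq] at h1 h2
  have h3 := cen_sub_cen i
  have h4 : ‖cen i - cen (i + 2)‖ ≤ ‖(x : ℂ) - cen (i + 2)‖ + ‖(x : ℂ) - cen i‖ := by
    have : cen i - cen (i + 2) = ((x : ℂ) - cen (i + 2)) - ((x : ℂ) - cen i) := by ring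
    rw [this]
    exact norm_sub_le _ _
  rw [h1, h2] at h4
  linarith

theorem twist_commute (f T : Diff Surf)
    (hf : ∀ x : Surf, ((f : Equiv.Perm Surf) x : ℂ) = ctr 2 * x)
    (hT : ∀ x : Surf, ((T : Equiv.Perm Surf) x : ℂ) =
      cen 0 + modelTwist (3 / 4) (17 / 20) (x - cen 0)) : Commute T (f * T * f⁻¹) := by
  obtain ⟨S, hS⟩ : ∃ S : Diff Surf, S = f * T * f⁻¹ := ⟨_, rfl⟩
  have hS' : ∀ x : Surf, ((S : Equiv.Perm Surf) x : ℂ) =
      cen 2 + modelTwist (3 / 4) (17 / 20) (x - cen 2) := by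
    intro x
    obtain ⟨y, rfl⟩ : ∃ y, (f : Equiv.Perm Surf) y = x :=
      ⟨(f : Equiv.Perm Surf).symm x, Equiv.apply_symm_apply _ x⟩
    have h1 : (S : Equiv.Perm Surf) ((f : Equiv.Perm Surf) y) =
        (f : Equiv.Perm Surf) ((T : Equiv.Perm Surf) y) := by
      rw [← Equiv.Perm.mul_apply, ← Equiv.Perm.mul_apply, ← Subgroup.coe_mul, ← Subgroup.coe_mul, hS,
        inv_mul_cancel_right]
    have h2 : cen 2 = ctr 2 * cen 0 := by rw [cen_mul, zero_add]
    rw [h1, hf, hT, hf, h2, ← mul_sub, mt_rot _ _ _ _ (norm_ctr 2)]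
    ring
  rw [← hS]
  have h18 := cen_sub_cen 0
  rw [zero_add] at h18
  have htri : ∀ z : ℂ, 18 / 10 < ‖z - cen 0‖ + ‖z - cen 2‖ := by
    intro z
    have h4 : ‖cen 0 - cen 2‖ ≤ ‖z - cen 2‖ + ‖z - cen 0‖ := by
      have : cen 0 - cen 2 = (z - cen 2) - (z - cen 0) := by ring
      rw [this]
      exact norm_sub_le _ _
    linarith
  have hTn : ∀ x : Surf, ‖((T : Equiv.Perm Surf) x : ℂ) - cen 0‖ = ‖(x : ℂ) - cen 0‖ := by
    intro x
    rw [hT, add_sub_cancel_left, mt_norm]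
  have hSn : ∀ x : Surf, ‖((S : Equiv.Perm Surf) x : ℂ) - cen 2‖ = ‖(x : ℂ) - cen 2‖ := by
    intro x
    rw [hS', add_sub_cancel_left, mt_norm]
  have hTid : ∀ x : Surf, 17 / 20 ≤ ‖(x : ℂ) - cen 0‖ → (T : Equiv.Perm Surf) x = x := by
    intro x hx
    apply Subtype.ext
    rw [hT, mt_high _ _ (by norm_num) _ hx]
    ring
  have hSid : ∀ x : Surf, 17 / 20 ≤ ‖(x : ℂ) - cen 2‖ → (S : Equiv.Perm Surf) x = x := by
    intro x hx
    apply Subtype.ext
    rw [hS', mt_high _ _ (by norm_num) _ hx]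
    ring
  show T * S = S * T
  apply Subtype.ext
  apply Equiv.ext
  intro x
  rw [Subgroup.coe_mul, Subgroup.coe_mul, Equiv.Perm.mul_apply, Equiv.Perm.mul_apply]
  by_cases h0 : ‖(x : ℂ) - cen 0‖ < 17 / 20
  · have h2 : 17 / 20 ≤ ‖(x : ℂ) - cen 2‖ := by
      have := htri x
      linarith
    have h3 : 17 / 20 ≤ ‖((T : Equiv.Perm Surf) x : ℂ) - cen 2‖ := by
      have h4 := htri ((T : Equiv.Perm Surf) x)
      rw [hTn] at h4
      linarith
    rw [hSid x h2, hSid _ h3]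
  · push Not at h0
    rw [hTid x h0]
    by_cases h2 : 17 / 20 ≤ ‖(x : ℂ) - cen 2‖
    · rw [hSid x h2, hTid x h0]
    · push Not at h2
      apply hTid
      have h4 := htri ((S : Equiv.Perm Surf) x)
      rw [hSn] at h4
      linarith

/-- the key identity, in any group -/
theorem key_identity {Γ : Type} [Group Γ] (f T : Γ) (h : Commute T (f * T * f⁻¹)) (j : ℤ) :
    (T * (f * T * f⁻¹)⁻¹) ^ j * f = T ^ j * f * (T ^ j)⁻¹ := by
  rw [h.inv_right.mul_zpow, inv_zpow, conj_zpow]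
  group

theorem key_order {Γ : Type} [Group Γ] (f T : Γ) (h : Commute T (f * T * f⁻¹)) (hf : f ^ 5 = 1)
    (j : ℤ) : ((T * (f * T * f⁻¹)⁻¹) ^ j * f) ^ 5 = 1 := by
  rw [key_identity f T h j, conj_pow, hf, mul_one, mul_inv_cancel]

end
end Pool.Agent.Helper328.MT
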