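import Mathlib
import Pool.Agent.Helper328.MT.Fills
import Pool.Agent.Helper328.MT.NT
import Pool.Agent.Helper328.MT.S5A
import Pool.Agent.Helper328.MT.S5B
import Pool.Agent.Helper328.MT.S5C

set_option autoImplicit false
open scoped ContDiff Topology
open Set Filter

namespace Pool.Agent.Helper328.MT
noncomputable section

theorem circ_nontrivial (i : ZMod 5) : IsNontrivialCircle Surf (circ i) :=
  ⟨circ_isCircle i, circ_not_boundsDisk i, circ_not_deforms i⟩

theorem fills_orbit (f : Diff Surf) (hf : ∀ x : Surf, ((f : Equiv.Perm Surf) x : ℂ) = ctr 2 * x)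
    (α : Fin 2 → Set Surf) (h0 : α 0 = circ 0) :
    Fills Surf {C | ∃ (m : ℤ) (i : Fin 2), C = img (f ^ m) (α i)} := by
  intro C hC
  obtain ⟨D, ⟨i, rfl⟩, hD⟩ := fills_circ C hC
  refine ⟨circ i, ?_, hD⟩
  have h2 : ∀ i : ZMod 5, ∃ m : Fin 5, (0 : ZMod 5) + 2 * ((m : ℕ) : ZMod 5) = i := by decide
  obtain ⟨m, hm⟩ := h2 i
  refine ⟨((m : ℕ) : ℤ), 0, ?_⟩
  rw [h0, img_rot_zpow f hf (m : ℕ) 0, hm]

theorem isMultiTwist_pair (f T : Diff Surf)
    (hf : ∀ x : Surf, ((f : Equiv.Perm Surf) x : ℂ) = ctr 2 * x)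
    (hT : ∀ x : Surf, ((T : Equiv.Perm Surf) x : ℂ) =
      cen 0 + modelTwist (3 / 4) (17 / 20) (x - cen 0)) :
    IsMultiTwist Surf ![circ 0, circ 2] ((T * (f * T * f⁻¹)⁻¹ : Diff Surf) : MCG Surf) := by
  have h02 : (0 : ZMod 5) ≠ 2 := by decide
  refine ⟨?_, ?_, ?_, ?_⟩
  · intro i
    fin_cases i
    · exact circ_nontrivial 0
    · exact circ_nontrivial 2
  · intro i j hij
    fin_cases i <;> fin_cases j
    · exact absurd rfl hij
    · simpa using circ_disjoint 0
    · simpa using (circ_disjoint 0).symm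
    · exact absurd rfl hij
  · intro i j hij
    fin_cases i <;> fin_cases j
    · exact absurd rfl hij
    · exact circ_not_isotopic 0 2 h02
    · exact circ_not_isotopic 2 0 h02.symm
    · exact absurd rfl hij
  · refine ⟨![(T : MCG Surf), ((f * T * f⁻¹ : Diff Surf) : MCG Surf)], ![1, -1], ?_, ?_⟩
    · intro i
      fin_cases i
      · exact dehn_zero T hT
      · exact dehn_two f T hf hT
    · simp [List.ofFn_succ]

/-- the counterexample -/
theorem counterexample : ∃ (f : Diff Surf) (α : Fin 2 → Set Surf) (t : MCG Surf),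
    IsMultiTwist Surf α t ∧ Fills Surf {C | ∃ (m : ℤ) (i : Fin 2), C = img (f ^ m) (α i)} ∧
    (∀ j : ℤ, (t ^ j * (f : MCG Surf)) ^ 5 = 1) ∧ exceptional Surf t (f : MCG Surf) = univ := by
  obtain ⟨f, hf⟩ := exists_rot
  obtain ⟨T, hT⟩ := exists_twist
  have h5 : ∀ j : ℤ, (((T * (f * T * f⁻¹)⁻¹ : Diff Surf) : MCG Surf) ^ j * (f : MCG Surf)) ^ 5 = 1 := by
    intro j
    have h := key_order f T (twist_commute f T hf hT) (rot_pow_five f hf) j
    have h' := congrArg (fun d : Diff Surf => (d : MCG Surf)) h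
    simpa using h'
  refine ⟨f, ![circ 0, circ 2], _, isMultiTwist_pair f T hf hT, fills_orbit f hf _ rfl, h5, ?_⟩
  ext j
  simp only [exceptional, mem_setOf_eq, mem_univ, iff_true]
  rintro ⟨hpa, -⟩
  exact hpa (isOfFinOrder_iff_pow_eq_one.2 ⟨5, by norm_num, h5 j⟩)

/-- no constant works for the disk with five holes -/
theorem no_uniform_block : ¬ ∃ N : ℕ, UniformBlock Surf N := by
  rintro ⟨N, hN⟩
  obtain ⟨f, α, t, h1, h2, -, h4⟩ := counterexample
  have := (hN f 2 α t h1 h2).1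
  rw [h4] at this
  exact Set.infinite_univ this

end
end Pool.Agent.Helper328.MT
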